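import Pool.Agent.H24.Near.Touching

set_option autoImplicit false

/-!
# Comparison of `log |u|` with superharmonic functions at high frequency
-/

namespace Pool.Agent.H24.Near

open MeasureTheory Set Metric

/-- Mixed second derivatives commute. -/
lemma cmp_symm {f : ℝ × ℝ → ℝ} (hf : Smooth f) (p : ℝ × ℝ) : d2 (d1 f) p = d1 (d2 f) p := by
  have h1 : ContDiff ℝ (⊤ : ℕ∞) (fderiv ℝ f) := ContDiff.fderiv_right hf (by simp)
  have hd : HasFDerivAt (fderiv ℝ f) (fderiv ℝ (fderiv ℝ f) p) p :=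
    (h1.differentiable (by simp) p).hasFDerivAt
  have hc : ∀ v : ℝ × ℝ, fderiv ℝ (fun p => fderiv ℝ f p v) p =
      (fderiv ℝ (fderiv ℝ f) p).flip v := by
    intro v
    have h3 := hd.clm_apply (hasFDerivAt_const v p)
    rw [h3.fderiv]
    ext <;> simp
  have hsymm : IsSymmSndFDerivAt ℝ f p := by
    apply ContDiffAt.isSymmSndFDerivAt (n := (⊤ : ℕ∞))
    · exact hf.contDiffAt
    · rw [minSmoothness_of_isRCLikeNormedField]
      decide
  change fderiv ℝ (fun p => fderiv ℝ f p (1, 0)) p (0, 1) =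
    fderiv ℝ (fun p => fderiv ℝ f p (0, 1)) p (1, 0)
  rw [hc, hc]
  simp only [ContinuousLinearMap.flip_apply]
  exact hsymm (0, 1) (1, 0)

/-- Derivative along a line. -/
lemma cmp_line {f : ℝ × ℝ → ℝ} (hf : Smooth f) (z ξ : ℝ × ℝ) (s : ℝ) :
    HasDerivAt (fun s : ℝ => f (z + s • ξ))
      (d1 f (z + s • ξ) * ξ.1 + d2 f (z + s • ξ) * ξ.2) s := by
  have h1 : HasDerivAt (fun s : ℝ => z + s • ξ) ξ s := by
    have := ((hasDerivAt_id s).smul_const ξ).const_add z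
    simpa using this
  have h2 := (hf.hasFDerivAt (z + s • ξ)).comp_hasDerivAt s h1
  rw [fderiv_apply_eq] at h2
  exact h2

/-- Comparison of a function with the integral of a bound of its derivative. -/
lemma cmp_le {f f' B B' : ℝ → ℝ} (hf : ∀ s ∈ Icc (0 : ℝ) 1, HasDerivAt f (f' s) s)
    (hB : ∀ s, HasDerivAt B (B' s) s) (h0 : f 0 ≤ B 0) (h : ∀ s ∈ Icc (0 : ℝ) 1, f' s ≤ B' s) :
    ∀ s ∈ Icc (0 : ℝ) 1, f s ≤ B s := by
  intro s hs
  exact image_le_of_deriv_right_le_deriv_boundary (f := f) (f' := f') (a := 0) (b := 1)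
    (fun x hx => (hf x hx).continuousAt.continuousWithinAt)
    (fun x hx => (hf x ⟨hx.1, hx.2.le⟩).hasDerivWithinAt) h0
    (fun x _ => (hB x).continuousAt.continuousWithinAt)
    (fun x _ => (hB x).hasDerivWithinAt) (fun x hx => h x ⟨hx.1, hx.2.le⟩) hs

/-- Taylor formula of order 3, upper bound. -/
lemma cmp_taylor3 {f f1 f2 f3 : ℝ → ℝ} {C : ℝ} (h : ∀ s ∈ Icc (0 : ℝ) 1, HasDerivAt f (f1 s) s)
    (h1 : ∀ s ∈ Icc (0 : ℝ) 1, HasDerivAt f1 (f2 s) s)
    (h2 : ∀ s ∈ Icc (0 : ℝ) 1, HasDerivAt f2 (f3 s) s) (hC : ∀ s ∈ Icc (0 : ℝ) 1, f3 s ≤ C) :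
    f 1 ≤ f 0 + f1 0 + f2 0 / 2 + C / 6 := by
  have a2 := cmp_le (B := fun s => f2 0 + C * s) (B' := fun _ => C) h2
    (fun s => by
      have := ((hasDerivAt_id s).const_mul C).const_add (f2 0)
      simpa using this) (by simp) hC
  have a1 := cmp_le (B := fun s => f1 0 + (f2 0 * s + C * s ^ 2 / 2))
    (B' := fun s => f2 0 + C * s) h1
    (fun s => by
      have := (((hasDerivAt_id s).const_mul (f2 0)).add
        ((((hasDerivAt_id s).pow 2).const_mul C).div_const 2)).const_add (f1 0)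
      refine HasDerivAt.congr_deriv this ?_
      simp
      ring) (by simp) a2
  have a0 := cmp_le (B := fun s => f 0 + (f1 0 * s + (f2 0 * s ^ 2 / 2 + C * s ^ 3 / 6)))
    (B' := fun s => f1 0 + (f2 0 * s + C * s ^ 2 / 2)) h
    (fun s => by
      have := (((hasDerivAt_id s).const_mul (f1 0)).add
        (((((hasDerivAt_id s).pow 2).const_mul (f2 0)).div_const 2).add
        ((((hasDerivAt_id s).pow 3).const_mul C).div_const 6))).const_add (f 0)
      refine HasDerivAt.congr_deriv this ?_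
      simp
      ring) (by simp) a1
  have := a0 1 ⟨zero_le_one, le_rfl⟩
  simp only [mul_one, one_pow] at this
  linarith

/-- Taylor formula of order 2, lower bound. -/
lemma cmp_taylor2 {f f1 f2 : ℝ → ℝ} {C : ℝ} (h : ∀ s ∈ Icc (0 : ℝ) 1, HasDerivAt f (f1 s) s)
    (h1 : ∀ s ∈ Icc (0 : ℝ) 1, HasDerivAt f1 (f2 s) s)
    (hC : ∀ s ∈ Icc (0 : ℝ) 1, -C ≤ f2 s) :
    f 0 + f1 0 - C / 2 ≤ f 1 := by
  have a1 := cmp_le (f := fun s => -f1 s) (f' := fun s => -f2 s) (B := fun s => -f1 0 + C * s)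
    (B' := fun _ => C) (fun s hs => (h1 s hs).neg)
    (fun s => by
      have := ((hasDerivAt_id s).const_mul C).const_add (-f1 0)
      simpa using this) (by simp) (fun s hs => by have := hC s hs; linarith)
  have a0 := cmp_le (f := fun s => -f s) (f' := fun s => -f1 s)
    (B := fun s => -f 0 + (-f1 0 * s + C * s ^ 2 / 2))
    (B' := fun s => -f1 0 + C * s) (fun s hs => (h s hs).neg)
    (fun s => by
      have := (((hasDerivAt_id s).const_mul (-f1 0)).add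
        ((((hasDerivAt_id s).pow 2).const_mul C).div_const 2)).const_add (-f 0)
      refine HasDerivAt.congr_deriv this ?_
      simp
      ring) (by simp) a1
  have := a0 1 ⟨zero_le_one, le_rfl⟩
  simp only [mul_one, one_pow] at this
  linarith only [this]

/-- Taylor formula of order 1, upper bound. -/
lemma cmp_taylor1 {f f1 : ℝ → ℝ} {C : ℝ} (h : ∀ s ∈ Icc (0 : ℝ) 1, HasDerivAt f (f1 s) s)
    (hC : ∀ s ∈ Icc (0 : ℝ) 1, f1 s ≤ C) : f 1 ≤ f 0 + C := by
  have a0 := cmp_le (B := fun s => f 0 + C * s) (B' := fun _ => C) h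
    (fun s => by
      have := ((hasDerivAt_id s).const_mul C).const_add (f 0)
      simpa using this) (by simp) hC
  have := a0 1 ⟨zero_le_one, le_rfl⟩
  simp only [mul_one] at this
  linarith

/-- Unit eigenvector of a symmetric `2 × 2` matrix for its smallest eigenvalue. -/
lemma cmp_eigen (a b c : ℝ) : ∃ e1 e2 lam : ℝ, e1 ^ 2 + e2 ^ 2 = 1 ∧ lam ≤ (a + c) / 2 ∧
    a * e1 + b * e2 = lam * e1 ∧ b * e1 + c * e2 = lam * e2 := by
  set δ : ℝ := (a - c) / 2 with hδ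
  set D : ℝ := Real.sqrt (δ ^ 2 + b ^ 2) with hD
  have hD0 : 0 ≤ D := Real.sqrt_nonneg _
  have hD2 : D ^ 2 = δ ^ 2 + b ^ 2 := Real.sq_sqrt (by positivity)
  by_cases h0 : b ^ 2 + (δ + D) ^ 2 = 0
  · have hb : b = 0 := by nlinarith only [h0]
    have hd : D = -δ := by nlinarith only [h0]
    refine ⟨1, 0, a, by norm_num, ?_, by ring, by rw [hb]; ring⟩
    have : δ ≤ 0 := by linarith
    rw [hδ] at this
    linarith
  · have hpos : 0 < b ^ 2 + (δ + D) ^ 2 := lt_of_le_of_ne (by positivity) (Ne.symm h0)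
    set N : ℝ := Real.sqrt (b ^ 2 + (δ + D) ^ 2) with hN
    have hN0 : 0 < N := Real.sqrt_pos.2 hpos
    have hN2 : N ^ 2 = b ^ 2 + (δ + D) ^ 2 := Real.sq_sqrt hpos.le
    refine ⟨b / N, -(δ + D) / N, (a + c) / 2 - D, ?_, by linarith, ?_, ?_⟩
    · field_simp
      rw [hN2]
    · field_simp
      rw [hδ]
      ring
    · have h1 : b * b + c * (-(δ + D)) = ((a + c) / 2 - D) * (-(δ + D)) := by
        rw [hδ] at hD2 ⊢
        nlinarith only [hD2]
      have : b * (b / N) + c * (-(δ + D) / N) = (b * b + c * (-(δ + D))) / N := by ring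
      rw [this, h1]
      ring


lemma cmp_lin {L a b x y : ℝ} (ha : |a| ≤ L) (hb : |b| ≤ L) :
    |a * x + b * y| ≤ L * (|x| + |y|) := by
  calc |a * x + b * y| ≤ |a * x| + |b * y| := abs_add_le _ _
    _ = |a| * |x| + |b| * |y| := by rw [abs_mul, abs_mul]
    _ ≤ L * |x| + L * |y| := add_le_add (mul_le_mul_of_nonneg_right ha (abs_nonneg _))
        (mul_le_mul_of_nonneg_right hb (abs_nonneg _))
    _ = L * (|x| + |y|) := by ring

/-- Second derivative along a line. -/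
lemma cmp_line2 {f : ℝ × ℝ → ℝ} (hf : Smooth f) (z ξ : ℝ × ℝ) (s : ℝ) :
    HasDerivAt (fun s : ℝ => d1 f (z + s • ξ) * ξ.1 + d2 f (z + s • ξ) * ξ.2)
      ((d1 (d1 f) (z + s • ξ) * ξ.1 + d2 (d1 f) (z + s • ξ) * ξ.2) * ξ.1 +
        (d1 (d2 f) (z + s • ξ) * ξ.1 + d2 (d2 f) (z + s • ξ) * ξ.2) * ξ.2) s :=
  ((cmp_line hf.d1 z ξ s).mul_const ξ.1).add ((cmp_line hf.d2 z ξ s).mul_const ξ.2)

/-- Third derivative along a line. -/
lemma cmp_line3 {f : ℝ × ℝ → ℝ} (hf : Smooth f) (z ξ : ℝ × ℝ) (s : ℝ) :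
    HasDerivAt (fun s : ℝ => (d1 (d1 f) (z + s • ξ) * ξ.1 + d2 (d1 f) (z + s • ξ) * ξ.2) * ξ.1 +
        (d1 (d2 f) (z + s • ξ) * ξ.1 + d2 (d2 f) (z + s • ξ) * ξ.2) * ξ.2)
      (((d1 (d1 (d1 f)) (z + s • ξ) * ξ.1 + d2 (d1 (d1 f)) (z + s • ξ) * ξ.2) * ξ.1 +
        (d1 (d2 (d1 f)) (z + s • ξ) * ξ.1 + d2 (d2 (d1 f)) (z + s • ξ) * ξ.2) * ξ.2) * ξ.1 +
        ((d1 (d1 (d2 f)) (z + s • ξ) * ξ.1 + d2 (d1 (d2 f)) (z + s • ξ) * ξ.2) * ξ.1 +
        (d1 (d2 (d2 f)) (z + s • ξ) * ξ.1 + d2 (d2 (d2 f)) (z + s • ξ) * ξ.2) * ξ.2) * ξ.2) s :=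
  ((cmp_line2 hf.d1 z ξ s).mul_const ξ.1).add ((cmp_line2 hf.d2 z ξ s).mul_const ξ.2)

/-- The derivatives of order at most 3 of `f` are bounded by `L` on `S`. -/
def CmpB (f : ℝ × ℝ → ℝ) (L : ℝ) (S : Set (ℝ × ℝ)) : Prop :=
  ∀ w : List Bool, 1 ≤ w.length → w.length ≤ 3 → ∀ z ∈ S, |der w f z| ≤ L

lemma cmp_mem {z ξ : ℝ × ℝ} {r s : ℝ} (h : z + ξ ∈ closedBall z r) (hs : s ∈ Icc (0 : ℝ) 1) :
    z + s • ξ ∈ closedBall z r := by
  rw [mem_closedBall, dist_eq_norm, add_sub_cancel_left] at h ⊢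
  rw [norm_smul, Real.norm_eq_abs, abs_of_nonneg hs.1]
  calc s * ‖ξ‖ ≤ 1 * ‖ξ‖ := mul_le_mul_of_nonneg_right hs.2 (norm_nonneg _)
    _ ≤ r := by rw [one_mul]; exact h

/-- Taylor expansion of the weight. -/
lemma cmp_expand {ψ : ℝ × ℝ → ℝ} (hψ : Smooth ψ) {L r R : ℝ} {z ξ : ℝ × ℝ}
    (hb : CmpB ψ L (closedBall z R)) (hL : 0 ≤ L) (hξ : z + ξ ∈ closedBall z R)
    (h1 : |ξ.1| ≤ r) (h2 : |ξ.2| ≤ r) :
    ψ (z + ξ) ≤ ψ z + (d1 ψ z * ξ.1 + d2 ψ z * ξ.2) +
      (d1 (d1 ψ) z * ξ.1 ^ 2 + (d2 (d1 ψ) z + d1 (d2 ψ) z) * (ξ.1 * ξ.2) +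
        d2 (d2 ψ) z * ξ.2 ^ 2) / 2 + L * r * (ξ.1 ^ 2 + ξ.2 ^ 2) := by
  have ht := cmp_taylor3 (C := 4 * L * r * (ξ.1 ^ 2 + ξ.2 ^ 2))
    (fun s _ => cmp_line hψ z ξ s) (fun s _ => cmp_line2 hψ z ξ s)
    (fun s _ => cmp_line3 hψ z ξ s) (by
      intro s hs
      have hm := cmp_mem hξ hs
      have b : ∀ w : List Bool, 1 ≤ w.length → w.length ≤ 3 → |der w ψ (z + s • ξ)| ≤ L :=
        fun w hw hw' => hb w hw hw' _ hm
      have b111 : |d1 (d1 (d1 ψ)) (z + s • ξ)| ≤ L := b [false, false, false] (by simp) (by simp)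
      have b211 : |d2 (d1 (d1 ψ)) (z + s • ξ)| ≤ L := b [true, false, false] (by simp) (by simp)
      have b121 : |d1 (d2 (d1 ψ)) (z + s • ξ)| ≤ L := b [false, true, false] (by simp) (by simp)
      have b221 : |d2 (d2 (d1 ψ)) (z + s • ξ)| ≤ L := b [true, true, false] (by simp) (by simp)
      have b112 : |d1 (d1 (d2 ψ)) (z + s • ξ)| ≤ L := b [false, false, true] (by simp) (by simp)
      have b212 : |d2 (d1 (d2 ψ)) (z + s • ξ)| ≤ L := b [true, false, true] (by simp) (by simp)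
      have b122 : |d1 (d2 (d2 ψ)) (z + s • ξ)| ≤ L := b [false, true, true] (by simp) (by simp)
      have b222 : |d2 (d2 (d2 ψ)) (z + s • ξ)| ≤ L := b [true, true, true] (by simp) (by simp)
      have c1 := cmp_lin (x := ξ.1) (y := ξ.2) b111 b211
      have c2 := cmp_lin (x := ξ.1) (y := ξ.2) b121 b221
      have c3 := cmp_lin (x := ξ.1) (y := ξ.2) b112 b212
      have c4 := cmp_lin (x := ξ.1) (y := ξ.2) b122 b222
      have e1 := cmp_lin (x := ξ.1) (y := ξ.2) c1 c2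
      have e2 := cmp_lin (x := ξ.1) (y := ξ.2) c3 c4
      have g := cmp_lin (x := ξ.1) (y := ξ.2) e1 e2
      refine (le_abs_self _).trans (g.trans ?_)
      set a := |ξ.1| with ha
      set b' := |ξ.2| with hb'
      have ha0 : 0 ≤ a := abs_nonneg _
      have hb0 : 0 ≤ b' := abs_nonneg _
      have ea : ξ.1 ^ 2 = a ^ 2 := (sq_abs _).symm
      have eb : ξ.2 ^ 2 = b' ^ 2 := (sq_abs _).symm
      rw [ea, eb]
      have h3 : (a + b') * (a + b') ≤ 2 * (a ^ 2 + b' ^ 2) := by nlinarith only [sq_nonneg (a - b')]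
      have h4 : a + b' ≤ 2 * r := by linarith
      calc L * (a + b') * (a + b') * (a + b') = L * ((a + b') * ((a + b') * (a + b'))) := by ring
        _ ≤ L * ((2 * r) * (2 * (a ^ 2 + b' ^ 2))) := by
            apply mul_le_mul_of_nonneg_left _ hL
            exact mul_le_mul h4 h3 (by positivity) (by linarith only [h1, ha0])
        _ = 4 * L * r * (a ^ 2 + b' ^ 2) := by ring)
  simp only [one_smul, zero_smul, add_zero] at ht
  have hr : 0 ≤ r := le_trans (abs_nonneg _) h1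
  have h5 : 0 ≤ L * r * (ξ.1 ^ 2 + ξ.2 ^ 2) := by positivity
  linarith only [ht, h5]

lemma cmp_sol_mono {q u : ℝ × ℝ → ℝ} {Λ Λ' : ℝ} {S : Set (ℝ × ℝ)} (h : Sol q u Λ S)
    (hΛ : Λ ≤ Λ') : Sol q u Λ' S where
  smooth_q := h.smooth_q
  smooth_u := h.smooth_u
  eq := h.eq
  bq := fun p hp => (h.bq p hp).trans hΛ
  bq1 := fun p hp => (h.bq1 p hp).trans hΛ
  bq2 := fun p hp => (h.bq2 p hp).trans hΛ

lemma cmp_sol_subset {q u : ℝ × ℝ → ℝ} {Λ : ℝ} {S T : Set (ℝ × ℝ)} (h : Sol q u Λ S)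
    (hT : T ⊆ S) : Sol q u Λ T where
  smooth_q := h.smooth_q
  smooth_u := h.smooth_u
  eq := fun p hp => h.eq p (hT hp)
  bq := fun p hp => h.bq p (hT hp)
  bq1 := fun p hp => h.bq1 p (hT hp)
  bq2 := fun p hp => h.bq2 p (hT hp)

lemma cmp_k1 {a b g1 g2 w1 w2 r x y kap L h11 h21 h12 h22 : ℝ}
    (h : b ≤ a + (g1 * (r * x) + g2 * (r * y)) +
      (h11 * (r * x) ^ 2 + (h21 + h12) * (r * x * (r * y)) + h22 * (r * y) ^ 2) / 2 +
      L * r * ((r * x) ^ 2 + (r * y) ^ 2)) :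
    b - a + (w1 * (r * x) + w2 * (r * y)) + kap * ((r * x) ^ 2 + (r * y) ^ 2) ≤
      r * ((g1 + w1) * x + (g2 + w2) * y) +
        r ^ 2 * ((h11 * x ^ 2 + 2 * ((h21 + h12) / 2) * (x * y) + h22 * y ^ 2) / 2 +
          (kap + L * r) * (x ^ 2 + y ^ 2)) := by
  linarith

lemma cmp_k3 {m r β B1 B2 ρ h11 h22 hx kap κ1 κt L x y : ℝ} (hβ : 0 < β) (h : ρ * β = r) :
    m * r * β * (B1 / β * x + B2 / β * y +
        (ρ * (h11 + (2 * kap + 2 * (L * r) + 2 * κ1)) * x ^ 2 + 2 * (ρ * hx) * x * y +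
          ρ * (h22 + (2 * kap + 2 * (L * r) + 2 * κ1)) * y ^ 2) / 2 - κt * (x ^ 2 + y ^ 2)) =
      m * (r * (B1 * x + B2 * y) + r ^ 2 * ((h11 * x ^ 2 + 2 * hx * (x * y) + h22 * y ^ 2) / 2 +
          (kap + L * r) * (x ^ 2 + y ^ 2)) +
          (r ^ 2 * κ1 * (x ^ 2 + y ^ 2) - r * β * κt * (x ^ 2 + y ^ 2))) := by
  have y1 : β * (B1 / β) = B1 := by field_simp
  have y2 : β * (B2 / β) = B2 := by field_simp
  have y3 : m * r * β * (B1 / β * x + B2 / β * y +
        (ρ * (h11 + (2 * kap + 2 * (L * r) + 2 * κ1)) * x ^ 2 + 2 * (ρ * hx) * x * y +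
          ρ * (h22 + (2 * kap + 2 * (L * r) + 2 * κ1)) * y ^ 2) / 2 - κt * (x ^ 2 + y ^ 2)) =
        m * (r * ((β * (B1 / β)) * x + (β * (B2 / β)) * y) +
        r * (ρ * β) * (((h11 + (2 * kap + 2 * (L * r) + 2 * κ1)) * x ^ 2 + 2 * hx * (x * y) +
          (h22 + (2 * kap + 2 * (L * r) + 2 * κ1)) * y ^ 2) / 2) -
            r * β * κt * (x ^ 2 + y ^ 2)) := by ring
  rw [y3, y1, y2, h]
  ring

/-- At a point where the weight is touched the gradient of the weight is small. -/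
lemma cmp_case (L η d p0 kap : ℝ) (hL : 1 ≤ L) (hη : 0 < η) (hd : 0 < d) (hp0 : 0 < p0)
    (hkap0 : 0 ≤ kap) (hkap : kap ≤ η / 64) : ∃ K : ℝ, 1 ≤ K ∧
    ∀ (m Λ : ℝ) (q u ψ : ℝ × ℝ → ℝ) (z1 w : ℝ × ℝ), K ≤ m → 0 ≤ Λ → K ^ 2 * Λ ≤ m ^ 2 →
      Sol q u Λ (closedBall z1 (d / 2)) → Smooth ψ → CmpB ψ L (closedBall z1 (d / 2)) →
      |w.1| ≤ 1 → |w.2| ≤ 1 → p0 ^ 2 ≤ (d1 ψ z1 + w.1) ^ 2 + (d2 ψ z1 + w.2) ^ 2 →
      lap ψ z1 ≤ -(3 * η / 4) →
      (∀ ξ : ℝ × ℝ, z1 + ξ ∈ closedBall z1 (d / 2) → |u (z1 + ξ)| ≤ |u z1| *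
        Real.exp (m * (ψ (z1 + ξ) - ψ z1 + (w.1 * ξ.1 + w.2 * ξ.2) +
          kap * (ξ.1 ^ 2 + ξ.2 ^ 2)))) → u z1 = 0 := by
  have hL0 : 0 < L := by linarith
  set r : ℝ := min (min (d / 2) 1) (min (η / (32 * L)) (p0 * η / (2000 * L ^ 2))) with hr
  have hr0 : 0 < r := by
    rw [hr]
    exact lt_min (lt_min (by positivity) one_pos) (lt_min (by positivity) (by positivity))
  have hrd : r ≤ d / 2 := (min_le_left _ _).trans (min_le_left _ _)
  have hr1 : r ≤ 1 := (min_le_left _ _).trans (min_le_right _ _)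
  have hrη : r ≤ η / (32 * L) := (min_le_right _ _).trans (min_le_left _ _)
  have hrp : r ≤ p0 * η / (2000 * L ^ 2) := (min_le_right _ _).trans (min_le_right _ _)
  set η1 : ℝ := r * η / (8 * L) with hη1
  set κt : ℝ := r * (η / 64) / (4 * L) with hκt
  have hη10 : 0 < η1 := by positivity
  have hκt0 : 0 < κt := by positivity
  obtain ⟨K', hK', hT⟩ := touching η1 κt hη10 hκt0
  refine ⟨1 + K' / (r * p0) + 100 / (η1 * p0 ^ 2), ?_, ?_⟩
  · have : 0 ≤ K' / (r * p0) := by positivity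
    have : 0 ≤ 100 / (η1 * p0 ^ 2) := by positivity
    linarith
  intro m Λ q u ψ z1 w hm hΛ hΛm hsol hψ hB hw1 hw2 hgrad hlap htouch
  set K : ℝ := 1 + K' / (r * p0) + 100 / (η1 * p0 ^ 2) with hKdef
  have hKa : 0 ≤ K' / (r * p0) := by positivity
  have hKb : 0 ≤ 100 / (η1 * p0 ^ 2) := by positivity
  have hK1 : 1 ≤ K := by linarith only [hKa, hKb]
  have hm0 : 0 < m := by linarith only [hm, hKa, hKb]
  have hzmem : z1 ∈ closedBall z1 (d / 2) := mem_closedBall_self (by linarith only [hr0, hrd])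
  -- bounds of the derivatives at `z1`
  have g1 : |d1 ψ z1| ≤ L := hB [false] (by simp) (by simp) _ hzmem
  have g2 : |d2 ψ z1| ≤ L := hB [true] (by simp) (by simp) _ hzmem
  have g11 : |d1 (d1 ψ) z1| ≤ L := hB [false, false] (by simp) (by simp) _ hzmem
  have g21 : |d2 (d1 ψ) z1| ≤ L := hB [true, false] (by simp) (by simp) _ hzmem
  have g12 : |d1 (d2 ψ) z1| ≤ L := hB [false, true] (by simp) (by simp) _ hzmem
  have g22 : |d2 (d2 ψ) z1| ≤ L := hB [true, true] (by simp) (by simp) _ hzmem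
  set B1 : ℝ := d1 ψ z1 + w.1 with hB1
  set B2 : ℝ := d2 ψ z1 + w.2 with hB2
  set h11 : ℝ := d1 (d1 ψ) z1 with hh11
  set h21 : ℝ := d2 (d1 ψ) z1 with hh21
  set h12 : ℝ := d1 (d2 ψ) z1 with hh12
  set h22 : ℝ := d2 (d2 ψ) z1 with hh22
  have hlap' : h11 + h22 ≤ -(3 * η / 4) := hlap
  have hηL : 3 * η / 4 ≤ 2 * L := by
    have := (abs_le.1 g11).1
    have := (abs_le.1 g22).1
    linarith
  set β : ℝ := Real.sqrt (B1 ^ 2 + B2 ^ 2) with hβ
  have hβ2 : β ^ 2 = B1 ^ 2 + B2 ^ 2 := Real.sq_sqrt (by positivity)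
  have hβ0 : 0 ≤ β := Real.sqrt_nonneg _
  have hβp : p0 ≤ β := by
    rw [← hβ2] at hgrad
    exact (pow_le_pow_iff_left₀ hp0.le hβ0 two_ne_zero).1 hgrad
  have hβpos : 0 < β := lt_of_lt_of_le hp0 hβp
  have hβL : β ≤ 4 * L := by
    have e1 : |B1| ≤ L + 1 := (abs_add_le _ _).trans (add_le_add g1 hw1)
    have e2 : |B2| ≤ L + 1 := (abs_add_le _ _).trans (add_le_add g2 hw2)
    have e3 : B1 ^ 2 ≤ (L + 1) ^ 2 := sq_le_sq' (by linarith only [(abs_le.1 e1).1]) (abs_le.1 e1).2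
    have e4 : B2 ^ 2 ≤ (L + 1) ^ 2 := sq_le_sq' (by linarith only [(abs_le.1 e2).1]) (abs_le.1 e2).2
    have : β ^ 2 ≤ (4 * L) ^ 2 := by rw [hβ2]; nlinarith only [hL, e3, e4]
    exact (pow_le_pow_iff_left₀ hβ0 (by positivity) two_ne_zero).1 this
  set κ1 : ℝ := η / 64 with hκ1
  have hκ10 : 0 < κ1 := by positivity
  set c0 : ℝ := 2 * kap + 2 * (L * r) + 2 * κ1 with hc0
  have hLr : L * r ≤ η / 32 := by
    calc L * r ≤ L * (η / (32 * L)) := mul_le_mul_of_nonneg_left hrη hL0.le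
      _ = η / 32 := by field_simp
  have hLr0 : 0 < L * r := by positivity
  have hc0le : c0 ≤ η / 8 := by rw [hc0, hκ1]; linarith only [hkap, hκ1, hLr]
  have hc00 : 0 ≤ c0 := by rw [hc0]; positivity
  set ρ : ℝ := r / β with hρ
  have hρ0 : 0 < ρ := by positivity
  have hρβ : ρ * β = r := by rw [hρ]; field_simp
  have hρle : ρ * (2000 * L ^ 2) ≤ η := by
    have h1 : ρ ≤ r / p0 := div_le_div_of_nonneg_left hr0.le hp0 hβp
    have h2 : r / p0 ≤ η / (2000 * L ^ 2) := by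
      rw [div_le_iff₀ hp0]
      calc r ≤ p0 * η / (2000 * L ^ 2) := hrp
        _ = η / (2000 * L ^ 2) * p0 := by ring
    have h3 := h1.trans h2
    rwa [le_div_iff₀ (by positivity)] at h3
  have hρL : r ≤ ρ * (4 * L) := by
    rw [← hρβ]
    exact mul_le_mul_of_nonneg_left hβL hρ0.le
  set hx : ℝ := (h21 + h12) / 2 with hhx
  have hxL : |hx| ≤ L := by
    rw [hhx, abs_div, abs_two]
    have := abs_add_le h21 h12
    linarith only [g21, g12, this]
  have hfin := hT (m * r * β) (B1 / β) (B2 / β) (ρ * (h11 + c0)) (ρ * hx) (ρ * (h22 + c0))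
    (fun x => r ^ 2 * q (z1 + r • x)) (fun x => u (z1 + r • x)) ?_ ?_ ?_ ?_ ?_ ?_
  · simpa using hfin
  · -- `K' ≤ m r β`
    have h1 : K' / (r * p0) ≤ m := by linarith only [hm, hKb]
    have h2 : K' = K' / (r * p0) * (r * p0) := by field_simp
    rw [h2]
    calc K' / (r * p0) * (r * p0) ≤ m * (r * β) :=
          mul_le_mul h1 (mul_le_mul_of_nonneg_left hβp hr0.le) (by positivity) hm0.le
      _ = m * r * β := by ring
  · rw [div_pow, div_pow, ← add_div, ← hβ2]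
    field_simp
  · -- trace
    have h1 : η / 2 ≤ -(h11 + h22) - 2 * c0 := by linarith only [hlap', hkap, hκ1, hLr]
    have h2 : ρ * (η / 2) ≤ ρ * (-(h11 + h22) - 2 * c0) := mul_le_mul_of_nonneg_left h1 hρ0.le
    have h3 : η1 ≤ ρ * (η / 2) := by
      rw [hη1, div_le_iff₀ (by positivity)]
      calc r * η ≤ (ρ * (4 * L)) * η := mul_le_mul_of_nonneg_right hρL hη.le
        _ = ρ * (η / 2) * (8 * L) := by ring
    calc η1 ≤ ρ * (-(h11 + h22) - 2 * c0) := h3.trans h2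
      _ = -(ρ * (h11 + c0) + ρ * (h22 + c0)) := by ring
  · -- Frobenius norm
    have h1 : η / 2 ≤ -(h11 + h22) - 2 * c0 := by linarith only [hlap', hkap, hκ1, hLr]
    have i1 : (h11 + c0) ^ 2 ≤ (2 * L) ^ 2 := by
      have := abs_le.1 g11
      exact sq_le_sq' (by linarith only [hkap0, hκ10, hLr0, this]) (by linarith only [hηL, hkap, hκ1, hκ10, hLr, this])
    have i2 : (h22 + c0) ^ 2 ≤ (2 * L) ^ 2 := by
      have := abs_le.1 g22
      exact sq_le_sq' (by linarith only [hkap0, hκ10, hLr0, this]) (by linarith only [hηL, hkap, hκ1, hLr, this])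
    have i3 : hx ^ 2 ≤ L ^ 2 := by
      have := abs_le.1 hxL
      exact sq_le_sq' (by linarith only [this]) (by linarith only [this])
    have h4 : ρ * (ρ * ((h11 + c0) ^ 2 + 2 * hx ^ 2 + (h22 + c0) ^ 2)) ≤
        ρ * ((-(h11 + h22) - 2 * c0) / 100) := by
      apply mul_le_mul_of_nonneg_left _ hρ0.le
      calc ρ * ((h11 + c0) ^ 2 + 2 * hx ^ 2 + (h22 + c0) ^ 2) ≤ ρ * (10 * L ^ 2) :=
            mul_le_mul_of_nonneg_left (by linarith only [i1, i2, i3]) hρ0.le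
        _ ≤ η / 200 := by linarith only [hρle]
        _ ≤ (-(h11 + h22) - 2 * c0) / 100 := by linarith only [hlap', hkap, hκ1, hLr]
    calc (ρ * (h11 + c0)) ^ 2 + 2 * (ρ * hx) ^ 2 + (ρ * (h22 + c0)) ^ 2
        = ρ * (ρ * ((h11 + c0) ^ 2 + 2 * hx ^ 2 + (h22 + c0) ^ 2)) := by ring
      _ ≤ ρ * ((-(h11 + h22) - 2 * c0) / 100) := h4
      _ = -(ρ * (h11 + c0) + ρ * (h22 + c0)) / 100 := by ring
  · -- the equation
    have hs := Sol.scale hsol z1 hr0.le hr1 (T := closedBall (0 : ℝ × ℝ) 1) (by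
      intro p hp
      rw [mem_closedBall, dist_eq_norm, add_sub_cancel_left, norm_smul, Real.norm_eq_abs,
        abs_of_pos hr0]
      rw [mem_closedBall, dist_eq_norm, sub_zero] at hp
      calc r * ‖p‖ ≤ r * 1 := mul_le_mul_of_nonneg_left hp hr0.le
        _ ≤ d / 2 := by linarith only [hrd])
    refine cmp_sol_mono hs ?_
    have h1 : Λ * (100 / (η1 * p0 ^ 2)) ≤ m ^ 2 := by
      have h2 : 100 / (η1 * p0 ^ 2) ≤ K ^ 2 := by nlinarith only [hKa, hKb]
      calc Λ * (100 / (η1 * p0 ^ 2)) ≤ Λ * K ^ 2 := mul_le_mul_of_nonneg_left h2 hΛ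
        _ = K ^ 2 * Λ := by ring
        _ ≤ m ^ 2 := hΛm
    have h3 : Λ * 100 ≤ m ^ 2 * (η1 * p0 ^ 2) := by
      have h4 := mul_le_mul_of_nonneg_right h1 (by positivity : 0 ≤ η1 * p0 ^ 2)
      have h5 : Λ * (100 / (η1 * p0 ^ 2)) * (η1 * p0 ^ 2) = Λ * 100 := by field_simp
      linarith only [h4, h5]
    have h6 : p0 ^ 2 ≤ β ^ 2 := pow_le_pow_left₀ hp0.le hβp 2
    have h7 : m ^ 2 * (η1 * p0 ^ 2) ≤ m ^ 2 * (η1 * β ^ 2) :=
      mul_le_mul_of_nonneg_left (mul_le_mul_of_nonneg_left h6 hη10.le) (by positivity)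
    have h8 : r ^ 2 * (Λ * 100) ≤ r ^ 2 * (m ^ 2 * (η1 * β ^ 2)) :=
      mul_le_mul_of_nonneg_left (h3.trans h7) (by positivity)
    linarith only [h8]
  · -- the touching inequality
    intro p hp
    have hp' : ‖p‖ ≤ 1 := by rwa [mem_closedBall, dist_eq_norm, sub_zero] at hp
    have hp1 : |p.1| ≤ 1 := (norm_fst_le p).trans hp'
    have hp2 : |p.2| ≤ 1 := (norm_snd_le p).trans hp'
    have hmem : z1 + r • p ∈ closedBall z1 (d / 2) := by
      rw [mem_closedBall, dist_eq_norm, add_sub_cancel_left, norm_smul, Real.norm_eq_abs,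
        abs_of_pos hr0]
      calc r * ‖p‖ ≤ r * 1 := mul_le_mul_of_nonneg_left hp' hr0.le
        _ ≤ d / 2 := by linarith only [hrd]
    have t1 := htouch (r • p) hmem
    have x1 : |(r • p).1| ≤ r := by
      rw [Prod.smul_fst, smul_eq_mul, abs_mul, abs_of_pos hr0]
      calc r * |p.1| ≤ r * 1 := mul_le_mul_of_nonneg_left hp1 hr0.le
        _ = r := mul_one r
    have x2 : |(r • p).2| ≤ r := by
      rw [Prod.smul_snd, smul_eq_mul, abs_mul, abs_of_pos hr0]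
      calc r * |p.2| ≤ r * 1 := mul_le_mul_of_nonneg_left hp2 hr0.le
        _ = r := mul_one r
    have t2 := cmp_expand hψ hB hL0.le hmem x1 x2
    have e0 : u (z1 + r • (0 : ℝ × ℝ)) = u z1 := by simp
    rw [e0]
    refine t1.trans (mul_le_mul_of_nonneg_left (Real.exp_le_exp.2 ?_) (abs_nonneg _))
    simp only [Prod.smul_fst, Prod.smul_snd, smul_eq_mul] at t2 ⊢
    rw [← hh11, ← hh12, ← hh21, ← hh22] at t2
    set P : ℝ := p.1 ^ 2 + p.2 ^ 2 with hP
    have hP0 : 0 ≤ P := by positivity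
    have k1 : ψ (z1 + r • p) - ψ z1 + (w.1 * (r * p.1) + w.2 * (r * p.2)) +
        kap * ((r * p.1) ^ 2 + (r * p.2) ^ 2) ≤ r * (B1 * p.1 + B2 * p.2) +
        r ^ 2 * ((h11 * p.1 ^ 2 + 2 * hx * (p.1 * p.2) + h22 * p.2 ^ 2) / 2 +
          (kap + L * r) * P) := by
      exact cmp_k1 t2
    have k2 : r * β * κt * P ≤ r ^ 2 * κ1 * P := by
      apply mul_le_mul_of_nonneg_right _ hP0
      have : β * κt ≤ r * κ1 := by
        rw [hκt, ← mul_div_assoc, div_le_iff₀ (by positivity)]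
        calc β * (r * κ1) ≤ (4 * L) * (r * κ1) :=
              mul_le_mul_of_nonneg_right hβL (by positivity)
          _ = r * κ1 * (4 * L) := by ring
      calc r * β * κt = r * (β * κt) := by ring
        _ ≤ r * (r * κ1) := mul_le_mul_of_nonneg_left this hr0.le
        _ = r ^ 2 * κ1 := by ring
    have k3 : m * r * β * (B1 / β * p.1 + B2 / β * p.2 +
        (ρ * (h11 + c0) * p.1 ^ 2 + 2 * (ρ * hx) * p.1 * p.2 + ρ * (h22 + c0) * p.2 ^ 2) / 2 -
          κt * P) = m * (r * (B1 * p.1 + B2 * p.2) + r ^ 2 * ((h11 * p.1 ^ 2 +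
            2 * hx * (p.1 * p.2) + h22 * p.2 ^ 2) / 2 + (kap + L * r) * P) +
          (r ^ 2 * κ1 * P - r * β * κt * P)) := by
      exact cmp_k3 hβpos hρβ
    rw [k3]
    apply mul_le_mul_of_nonneg_left _ hm0.le
    linarith only [k1, k2]

/-- Vectors of the plane: a bound of the Euclidean norm from an inequality of quadratic type. -/
lemma cmp_quad {k t e1 e2 x y : ℝ} (hk : 0 < k) (ht : 0 < t) (he : e1 ^ 2 + e2 ^ 2 = 1)
    (h : k * (x ^ 2 + y ^ 2) + t * (e1 * x + e2 * y) ≤ 0) : x ^ 2 + y ^ 2 ≤ (t / k) ^ 2 := by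
  by_contra hc
  push Not at hc
  set P : ℝ := x ^ 2 + y ^ 2 with hP
  have hP0 : 0 < P := lt_of_le_of_lt (by positivity) hc
  have h1 : (e1 * x + e2 * y) ^ 2 ≤ P := by
    have : (e1 * x + e2 * y) ^ 2 + (e1 * y - e2 * x) ^ 2 = (e1 ^ 2 + e2 ^ 2) * (x ^ 2 + y ^ 2) := by
      ring
    rw [he, one_mul] at this
    nlinarith only [this]
  have h2 : (k * P) ^ 2 ≤ t ^ 2 * P := by
    have h3 : k * P ≤ t * -(e1 * x + e2 * y) := by linarith
    have h4 : (k * P) ^ 2 ≤ (t * -(e1 * x + e2 * y)) ^ 2 :=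
      pow_le_pow_left₀ (by positivity) h3 2
    calc (k * P) ^ 2 ≤ (t * -(e1 * x + e2 * y)) ^ 2 := h4
      _ = t ^ 2 * (e1 * x + e2 * y) ^ 2 := by ring
      _ ≤ t ^ 2 * P := mul_le_mul_of_nonneg_left h1 (by positivity)
  have h5 : k ^ 2 * P ≤ t ^ 2 := by
    by_contra h6
    push Not at h6
    have := mul_lt_mul_of_pos_right h6 hP0
    linarith [this, h2, mul_pow k P 2]
  have h6 : P ≤ (t / k) ^ 2 := by
    rw [div_pow, le_div_iff₀ (by positivity)]
    linarith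
  linarith

/-- A weight cannot be touched at a point of superharmonicity. -/
lemma cmp_core (L η d : ℝ) (hL : 1 ≤ L) (hη : 0 < η) (hd : 0 < d) : ∃ K : ℝ, 1 ≤ K ∧
    ∀ (m Λ : ℝ) (q u ψ : ℝ × ℝ → ℝ) (D : Set (ℝ × ℝ)) (z0 : ℝ × ℝ), K ≤ m → 0 ≤ Λ →
      K ^ 2 * Λ ≤ m ^ 2 → IsCompact D → Sol q u Λ D → Smooth ψ → CmpB ψ L D →
      closedBall z0 d ⊆ D → lap ψ z0 ≤ -η → u z0 ≠ 0 →
      (∀ z ∈ D, |u z| ≤ |u z0| * Real.exp (m * (ψ z - ψ z0))) → False := by
  set kap : ℝ := min (η / 64) 1 with hkap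
  have hkap0 : 0 < kap := lt_min (by positivity) one_pos
  have hkapη : kap ≤ η / 64 := min_le_left _ _
  have hkap1 : kap ≤ 1 := min_le_right _ _
  have hL0 : 0 < L := by linarith
  set t : ℝ := min (min (kap * d / 4) (kap * η / (16 * L))) (min (kap ^ 2 / (4 * L)) (1 / 3))
    with ht
  have ht0 : 0 < t := by
    rw [ht]
    exact lt_min (lt_min (by positivity) (by positivity)) (lt_min (by positivity) (by norm_num))
  have ht1 : t ≤ kap * d / 4 := (min_le_left _ _).trans (min_le_left _ _)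
  have ht2 : t ≤ kap * η / (16 * L) := (min_le_left _ _).trans (min_le_right _ _)
  have ht3 : t ≤ kap ^ 2 / (4 * L) := (min_le_right _ _).trans (min_le_left _ _)
  have ht4 : t ≤ 1 / 3 := (min_le_right _ _).trans (min_le_right _ _)
  obtain ⟨K, hK, hcase⟩ := cmp_case L η d (t / 16) kap hL hη hd (by positivity) hkap0.le hkapη
  refine ⟨K, hK, ?_⟩
  intro m Λ q u ψ D z0 hm hΛ hΛm hD hsol hψ hB hball hlap hu0 hmax
  have hm0 : 0 < m := by linarith only [hK, hm]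
  have hz0 : z0 ∈ D := hball (mem_closedBall_self hd.le)
  have hball2 : closedBall z0 (d / 2) ⊆ D :=
    (closedBall_subset_closedBall (by linarith)).trans hball
  -- the gradient of `ψ` at `z0` is small
  have hgrad0 : (d1 ψ z0) ^ 2 + (d2 ψ z0) ^ 2 < (t / 16) ^ 2 := by
    by_contra hc
    push Not at hc
    refine hu0 (hcase m Λ q u ψ z0 (0, 0) hm hΛ hΛm (cmp_sol_subset hsol hball2) hψ
      (fun w hw hw' z hz => hB w hw hw' z (hball2 hz)) (by simp) (by simp) (by simpa using hc)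
      (by linarith only [hkap0, hkapη, hlap]) ?_)
    intro ξ hξ
    refine (hmax _ (hball2 hξ)).trans (mul_le_mul_of_nonneg_left (Real.exp_le_exp.2 ?_)
      (abs_nonneg _))
    apply mul_le_mul_of_nonneg_left _ hm0.le
    have : 0 ≤ kap * (ξ.1 ^ 2 + ξ.2 ^ 2) := by positivity
    simp only [zero_mul, add_zero]
    linarith only [this]
  obtain ⟨e1, e2, lam, he, hlam, hev1, hev2⟩ :=
    cmp_eigen (d1 (d1 ψ) z0) (d1 (d2 ψ) z0) (d2 (d2 ψ) z0)
  have hlam' : lam ≤ -(η / 2) := by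
    have : d1 (d1 ψ) z0 + d2 (d2 ψ) z0 ≤ -η := hlap
    linarith only [hlam, this]
  have he1 : |e1| ≤ 1 := by
    rw [← sq_le_one_iff_abs_le_one, ← he]
    exact le_add_of_nonneg_right (sq_nonneg e2)
  have he2 : |e2| ≤ 1 := by
    rw [← sq_le_one_iff_abs_le_one, ← he]
    exact le_add_of_nonneg_left (sq_nonneg e1)
  -- the second maximum
  set Q : ℝ × ℝ → ℝ := fun z => kap * ((z.1 - z0.1) ^ 2 + (z.2 - z0.2) ^ 2) +
    t * (e1 * (z.1 - z0.1) + e2 * (z.2 - z0.2)) with hQ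
  have hcont : ContinuousOn (fun z => |u z| * Real.exp (-(m * (ψ z + Q z)))) D := by
    apply Continuous.continuousOn
    have h1 : Continuous u := hsol.smooth_u.continuous
    have h2 : Continuous ψ := hψ.continuous
    have h3 : Continuous Q := by rw [hQ]; fun_prop
    exact h1.abs.mul (Real.continuous_exp.comp ((continuous_const.mul (h2.add h3)).neg))
  obtain ⟨z1, hz1, hz1max⟩ := hD.exists_isMaxOn ⟨z0, hz0⟩ hcont
  have hQ0 : Q z0 = 0 := by simp [hQ]
  have hz1max' : ∀ z ∈ D, |u z| ≤ |u z1| * Real.exp (m * (ψ z + Q z - (ψ z1 + Q z1))) := by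
    intro z hz
    have h1 : |u z| * Real.exp (-(m * (ψ z + Q z))) ≤
      |u z1| * Real.exp (-(m * (ψ z1 + Q z1))) := hz1max hz
    have h2 : |u z| * Real.exp (-(m * (ψ z + Q z))) * Real.exp (m * (ψ z + Q z)) ≤
      |u z1| * Real.exp (-(m * (ψ z1 + Q z1))) * Real.exp (m * (ψ z + Q z)) :=
      mul_le_mul_of_nonneg_right h1 (Real.exp_pos _).le
    rw [mul_assoc, mul_assoc, ← Real.exp_add, ← Real.exp_add, neg_add_cancel, Real.exp_zero,
      mul_one] at h2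
    refine h2.trans (le_of_eq ?_)
    congr 2
    ring
  have hu1 : u z1 ≠ 0 := by
    intro h
    have := hz1max' z0 hz0
    rw [h, abs_zero, zero_mul] at this
    exact hu0 (abs_eq_zero.1 (le_antisymm this (abs_nonneg _)))
  have hQ1 : Q z1 ≤ 0 := by
    by_contra hc
    push Not at hc
    have h1 := hz1max' z0 hz0
    have h2 := hmax z1 hz1
    have h3 : |u z0| ≤ |u z0| * Real.exp (m * (ψ z1 - ψ z0)) *
        Real.exp (m * (ψ z0 + Q z0 - (ψ z1 + Q z1))) :=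
      h1.trans (mul_le_mul_of_nonneg_right h2 (Real.exp_pos _).le)
    rw [mul_assoc, ← Real.exp_add, hQ0] at h3
    have h4 : Real.exp (m * (ψ z1 - ψ z0) + m * (ψ z0 + 0 - (ψ z1 + Q z1))) < 1 := by
      rw [Real.exp_lt_one_iff]
      have := mul_pos hm0 hc
      linarith only [this]
    have h5 : 0 < |u z0| := abs_pos.2 hu0
    have := mul_lt_mul_of_pos_left h4 h5
    linarith only [h3, this]
  set x : ℝ := z1.1 - z0.1 with hx
  set y : ℝ := z1.2 - z0.2 with hy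
  have hQ1' : kap * (x ^ 2 + y ^ 2) + t * (e1 * x + e2 * y) ≤ 0 := hQ1
  have hP := cmp_quad hkap0 ht0 he hQ1'
  have htk : 0 < t / kap := by positivity
  have hxb : |x| ≤ t / kap := by
    apply abs_le_of_sq_le_sq _ htk.le
    exact (le_add_of_nonneg_right (sq_nonneg y)).trans hP
  have hyb : |y| ≤ t / kap := by
    apply abs_le_of_sq_le_sq _ htk.le
    exact (le_add_of_nonneg_left (sq_nonneg x)).trans hP
  have htkd : t / kap ≤ d / 4 := by
    rw [div_le_iff₀ hkap0]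
    linarith only [ht1]
  have htkη : t / kap * (16 * L) ≤ η := by
    rw [div_mul_eq_mul_div, div_le_iff₀ hkap0]
    rw [le_div_iff₀ (by positivity)] at ht2
    linarith only [ht2]
  have hdist : dist z1 z0 ≤ d / 4 := by
    rw [Prod.dist_eq, Real.dist_eq, Real.dist_eq]
    exact max_le (hxb.trans htkd) (hyb.trans htkd)
  have hball1 : closedBall z1 (d / 2) ⊆ D :=
    (closedBall_subset_closedBall' (by linarith only [htk, htkd, hdist])).trans hball
  have hΔ : z0 + (z1 - z0) = z1 := by abel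
  have hmem : z0 + (z1 - z0) ∈ closedBall z0 d := by
    rw [hΔ, mem_closedBall]
    linarith only [htk, htkd, hdist]
  have hseg : ∀ s ∈ Icc (0 : ℝ) 1, z0 + s • (z1 - z0) ∈ D := fun s hs => hball (cmp_mem hmem hs)
  have hbs : ∀ s ∈ Icc (0 : ℝ) 1, ∀ w : List Bool, 1 ≤ w.length → w.length ≤ 3 →
      |der w ψ (z0 + s • (z1 - z0))| ≤ L := fun s hs w hw hw' => hB w hw hw' _ (hseg s hs)
  have hΔ1 : (z1 - z0).1 = x := rfl
  have hΔ2 : (z1 - z0).2 = y := rfl
  have hxy : |x| + |y| ≤ 2 * (t / kap) := by linarith only [hxb, hyb]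
  -- the Laplacian at `z1`
  have hlap1 : lap ψ z1 ≤ -(3 * η / 4) := by
    have a1 := cmp_taylor1 (f := fun s : ℝ => d1 (d1 ψ) (z0 + s • (z1 - z0)))
      (C := L * (2 * (t / kap))) (fun s _ => cmp_line hψ.d1.d1 z0 (z1 - z0) s) (by
        intro s hs
        have b1 : |d1 (d1 (d1 ψ)) (z0 + s • (z1 - z0))| ≤ L :=
          hbs s hs [false, false, false] (by simp) (by simp)
        have b2 : |d2 (d1 (d1 ψ)) (z0 + s • (z1 - z0))| ≤ L :=
          hbs s hs [true, false, false] (by simp) (by simp)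
        exact (le_abs_self _).trans ((cmp_lin b1 b2).trans
          (mul_le_mul_of_nonneg_left hxy hL0.le)))
    have a2 := cmp_taylor1 (f := fun s : ℝ => d2 (d2 ψ) (z0 + s • (z1 - z0)))
      (C := L * (2 * (t / kap))) (fun s _ => cmp_line hψ.d2.d2 z0 (z1 - z0) s) (by
        intro s hs
        have b1 : |d1 (d2 (d2 ψ)) (z0 + s • (z1 - z0))| ≤ L :=
          hbs s hs [false, true, true] (by simp) (by simp)
        have b2 : |d2 (d2 (d2 ψ)) (z0 + s • (z1 - z0))| ≤ L :=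
          hbs s hs [true, true, true] (by simp) (by simp)
        exact (le_abs_self _).trans ((cmp_lin b1 b2).trans
          (mul_le_mul_of_nonneg_left hxy hL0.le)))
    simp only [one_smul, zero_smul, add_zero, hΔ] at a1 a2
    have : d1 (d1 ψ) z0 + d2 (d2 ψ) z0 ≤ -η := hlap
    change d1 (d1 ψ) z1 + d2 (d2 ψ) z1 ≤ -(3 * η / 4)
    linarith only [htkη, a1, a2, this]
  -- the gradient of `ψ` at `z1`
  set w : ℝ × ℝ := (2 * kap * x + t * e1, 2 * kap * y + t * e2) with hw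
  have hw1 : |w.1| ≤ 1 := by
    have h1 : |w.1| ≤ |2 * kap * x| + |t * e1| := abs_add_le _ _
    rw [abs_mul (2 * kap) x, abs_mul t e1, abs_of_pos (by positivity : 0 < 2 * kap),
      abs_of_pos ht0] at h1
    have h2 : 2 * kap * |x| ≤ 2 * kap * (t / kap) := mul_le_mul_of_nonneg_left hxb (by positivity)
    have h3 : 2 * kap * (t / kap) = 2 * t := by field_simp
    have h4 : t * |e1| ≤ t * 1 := mul_le_mul_of_nonneg_left he1 ht0.le
    linarith only [ht4, h1, h2, h3, h4]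
  have hw2 : |w.2| ≤ 1 := by
    have h1 : |w.2| ≤ |2 * kap * y| + |t * e2| := abs_add_le _ _
    rw [abs_mul (2 * kap) y, abs_mul t e2, abs_of_pos (by positivity : 0 < 2 * kap),
      abs_of_pos ht0] at h1
    have h2 : 2 * kap * |y| ≤ 2 * kap * (t / kap) := mul_le_mul_of_nonneg_left hyb (by positivity)
    have h3 : 2 * kap * (t / kap) = 2 * t := by field_simp
    have h4 : t * |e2| ≤ t * 1 := mul_le_mul_of_nonneg_left he2 ht0.le
    linarith only [ht4, h1, h2, h3, h4]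
  have hgrad1 : (d1 ψ z1 + w.1) ^ 2 + (d2 ψ z1 + w.2) ^ 2 < (t / 16) ^ 2 := by
    by_contra hc
    push Not at hc
    refine hu1 (hcase m Λ q u ψ z1 w hm hΛ hΛm (cmp_sol_subset hsol hball1) hψ
      (fun w hw hw' z hz => hB w hw hw' z (hball1 hz)) hw1 hw2 hc hlap1 ?_)
    intro ξ hξ
    refine (hz1max' _ (hball1 hξ)).trans (le_of_eq ?_)
    congr 3
    simp only [hQ, hw, Prod.fst_add, Prod.snd_add, hx, hy]
    ring
  -- conclusion
  have hfin := cmp_taylor2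
    (f := fun s : ℝ => e1 * d1 ψ (z0 + s • (z1 - z0)) + e2 * d2 ψ (z0 + s • (z1 - z0)))
    (C := 4 * L * (x ^ 2 + y ^ 2))
    (fun s _ => ((cmp_line hψ.d1 z0 (z1 - z0) s).const_mul e1).add
      ((cmp_line hψ.d2 z0 (z1 - z0) s).const_mul e2))
    (fun s _ => ((cmp_line2 hψ.d1 z0 (z1 - z0) s).const_mul e1).add
      ((cmp_line2 hψ.d2 z0 (z1 - z0) s).const_mul e2)) (by
      intro s hs
      have b : ∀ w : List Bool, 1 ≤ w.length → w.length ≤ 3 →
          |der w ψ (z0 + s • (z1 - z0))| ≤ L := hbs s hs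
      have b111 : |d1 (d1 (d1 ψ)) (z0 + s • (z1 - z0))| ≤ L :=
        b [false, false, false] (by simp) (by simp)
      have b211 : |d2 (d1 (d1 ψ)) (z0 + s • (z1 - z0))| ≤ L :=
        b [true, false, false] (by simp) (by simp)
      have b121 : |d1 (d2 (d1 ψ)) (z0 + s • (z1 - z0))| ≤ L :=
        b [false, true, false] (by simp) (by simp)
      have b221 : |d2 (d2 (d1 ψ)) (z0 + s • (z1 - z0))| ≤ L :=
        b [true, true, false] (by simp) (by simp)
      have b112 : |d1 (d1 (d2 ψ)) (z0 + s • (z1 - z0))| ≤ L :=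
        b [false, false, true] (by simp) (by simp)
      have b212 : |d2 (d1 (d2 ψ)) (z0 + s • (z1 - z0))| ≤ L :=
        b [true, false, true] (by simp) (by simp)
      have b122 : |d1 (d2 (d2 ψ)) (z0 + s • (z1 - z0))| ≤ L :=
        b [false, true, true] (by simp) (by simp)
      have b222 : |d2 (d2 (d2 ψ)) (z0 + s • (z1 - z0))| ≤ L :=
        b [true, true, true] (by simp) (by simp)
      have c1 := cmp_lin (x := x) (y := y) b111 b211
      have c2 := cmp_lin (x := x) (y := y) b121 b221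
      have c3 := cmp_lin (x := x) (y := y) b112 b212
      have c4 := cmp_lin (x := x) (y := y) b122 b222
      have f1 := cmp_lin (x := x) (y := y) c1 c2
      have f2 := cmp_lin (x := x) (y := y) c3 c4
      set A1 : ℝ := (d1 (d1 (d1 ψ)) (z0 + s • (z1 - z0)) * x +
        d2 (d1 (d1 ψ)) (z0 + s • (z1 - z0)) * y) * x +
        (d1 (d2 (d1 ψ)) (z0 + s • (z1 - z0)) * x +
        d2 (d2 (d1 ψ)) (z0 + s • (z1 - z0)) * y) * y with hA1
      set A2 : ℝ := (d1 (d1 (d2 ψ)) (z0 + s • (z1 - z0)) * x +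
        d2 (d1 (d2 ψ)) (z0 + s • (z1 - z0)) * y) * x +
        (d1 (d2 (d2 ψ)) (z0 + s • (z1 - z0)) * x +
        d2 (d2 (d2 ψ)) (z0 + s • (z1 - z0)) * y) * y with hA2
      change -(4 * L * (x ^ 2 + y ^ 2)) ≤ e1 * A1 + e2 * A2
      set X : ℝ := |x| + |y| with hX
      have hX0 : 0 ≤ X := by positivity
      have g1 : |e1 * A1| ≤ 1 * (L * X * X) := by
        rw [abs_mul]
        exact mul_le_mul he1 f1 (abs_nonneg _) zero_le_one
      have g2 : |e2 * A2| ≤ 1 * (L * X * X) := by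
        rw [abs_mul]
        exact mul_le_mul he2 f2 (abs_nonneg _) zero_le_one
      have g3 : L * X * X ≤ L * (2 * (x ^ 2 + y ^ 2)) := by
        rw [mul_assoc]
        apply mul_le_mul_of_nonneg_left _ hL0.le
        have ex : x ^ 2 = |x| ^ 2 := (sq_abs _).symm
        have ey : y ^ 2 = |y| ^ 2 := (sq_abs _).symm
        rw [ex, ey, hX]
        have := sq_nonneg (|x| - |y|)
        linarith only [this]
      have g4 := (abs_le.1 g1).1
      have g5 := (abs_le.1 g2).1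
      linarith only [g3, g4, g5])
  simp only [one_smul, zero_smul, add_zero, hΔ] at hfin
  have hs := cmp_symm hψ z0
  have hlin : e1 * (d1 (d1 ψ) z0 * (z1 - z0).1 + d2 (d1 ψ) z0 * (z1 - z0).2) +
      e2 * (d1 (d2 ψ) z0 * (z1 - z0).1 + d2 (d2 ψ) z0 * (z1 - z0).2) =
      lam * (e1 * x + e2 * y) := by
    rw [hs, hΔ1, hΔ2]
    have : e1 * (d1 (d1 ψ) z0 * x + d1 (d2 ψ) z0 * y) +
      e2 * (d1 (d2 ψ) z0 * x + d2 (d2 ψ) z0 * y) =
      (d1 (d1 ψ) z0 * e1 + d1 (d2 ψ) z0 * e2) * x +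
      (d1 (d2 ψ) z0 * e1 + d2 (d2 ψ) z0 * e2) * y := by ring
    rw [this, hev1, hev2]
    ring
  rw [hlin] at hfin
  -- Cauchy–Schwarz
  have cs : ∀ a b : ℝ, a ^ 2 + b ^ 2 < (t / 16) ^ 2 → |e1 * a + e2 * b| ≤ t / 16 := by
    intro a b hab
    apply abs_le_of_sq_le_sq _ (by positivity)
    have : (e1 * a + e2 * b) ^ 2 + (e1 * b - e2 * a) ^ 2 = (e1 ^ 2 + e2 ^ 2) * (a ^ 2 + b ^ 2) := by
      ring
    rw [he, one_mul] at this
    have := sq_nonneg (e1 * b - e2 * a)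
    linarith
  have c0 := (abs_le.1 (cs _ _ hgrad0)).1
  have c1 := (abs_le.1 (cs _ _ hgrad1)).2
  have hdot : e1 * (d1 ψ z1 + w.1) + e2 * (d2 ψ z1 + w.2) =
      e1 * d1 ψ z1 + e2 * d2 ψ z1 + 2 * kap * (e1 * x + e2 * y) + t * (e1 ^ 2 + e2 ^ 2) := by
    simp only [hw]
    ring
  rw [hdot, he, mul_one] at c1
  have hP0 : 0 ≤ kap * (x ^ 2 + y ^ 2) := by positivity
  have hed : e1 * x + e2 * y ≤ 0 := by
    by_contra hc
    push Not at hc
    have := mul_pos ht0 hc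
    linarith only [hQ1, hP0, this]
  have hcoef : lam + 2 * kap ≤ 0 := by linarith only [hkap0, hkapη, hlam']
  have hprod : 0 ≤ (lam + 2 * kap) * (e1 * x + e2 * y) := mul_nonneg_of_nonpos_of_nonpos hcoef hed
  have hquad : 4 * L * (x ^ 2 + y ^ 2) ≤ t := by
    have h1 : 4 * L * (x ^ 2 + y ^ 2) ≤ 4 * L * (t / kap) ^ 2 :=
      mul_le_mul_of_nonneg_left hP (by positivity)
    have h2 : 4 * L * (t / kap) ^ 2 ≤ t := by
      rw [div_pow, ← mul_div_assoc, div_le_iff₀ (by positivity)]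
      rw [le_div_iff₀ (by positivity)] at ht3
      have := mul_le_mul_of_nonneg_left ht3 ht0.le
      linarith only [this]
    linarith only [h1, h2]
  linarith only [ht0, hfin, c0, c1, hprod, hquad]

/-- Comparison of a solution with a weight which is superharmonic where the solution is large. -/
theorem comparison (L η d μ R : ℝ) (hL : 1 ≤ L) (hη : 0 < η) (hd : 0 < d) (hμ : 0 < μ)
    (hR : 0 < R) : ∃ K : ℝ, 1 ≤ K ∧ ∀ (m Λ : ℝ) (q u ψ : ℝ × ℝ → ℝ) (c : ℝ × ℝ)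
      (D D' : Set (ℝ × ℝ)), K ≤ m → 0 ≤ Λ → K ^ 2 * Λ ≤ m ^ 2 → IsCompact D →
      D ⊆ closedBall c R → D' ⊆ D → (∀ z ∈ D', closedBall z d ⊆ D) → Sol q u Λ D → Smooth ψ →
      (∀ w : List Bool, 1 ≤ w.length → w.length ≤ 3 → ∀ z ∈ D, |der w ψ z| ≤ L) →
      (∀ z ∈ D, z ∉ D' → |u z| ≤ Real.exp (m * ψ z)) →
      (∀ z ∈ D', Real.exp (m * (ψ z + μ)) < |u z| → lap ψ z ≤ -η) →
      ∀ z ∈ D, |u z| ≤ Real.exp (m * (ψ z + μ)) := by
  obtain ⟨K, hK, hcore⟩ := cmp_core L η d hL hη hd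
  refine ⟨K, hK, ?_⟩
  intro m Λ q u ψ c D D' hm hΛ hΛm hD hDR hD' hball hsol hψ hB hout hlap z hz
  have hm0 : 0 < m := by linarith
  have hcont : ContinuousOn (fun z => |u z| * Real.exp (-(m * ψ z))) D := by
    apply Continuous.continuousOn
    have h1 : Continuous u := hsol.smooth_u.continuous
    have h2 : Continuous ψ := hψ.continuous
    exact h1.abs.mul (Real.continuous_exp.comp ((continuous_const.mul h2).neg))
  obtain ⟨z0, hz0, hz0max⟩ := hD.exists_isMaxOn ⟨z, hz⟩ hcont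
  have hmax : ∀ z ∈ D, |u z| ≤ |u z0| * Real.exp (m * (ψ z - ψ z0)) := by
    intro z hz
    have h1 : |u z| * Real.exp (-(m * ψ z)) ≤ |u z0| * Real.exp (-(m * ψ z0)) := hz0max hz
    have h2 : |u z| * Real.exp (-(m * ψ z)) * Real.exp (m * ψ z) ≤
      |u z0| * Real.exp (-(m * ψ z0)) * Real.exp (m * ψ z) :=
      mul_le_mul_of_nonneg_right h1 (Real.exp_pos _).le
    rw [mul_assoc, mul_assoc, ← Real.exp_add, ← Real.exp_add, neg_add_cancel, Real.exp_zero,
      mul_one] at h2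
    refine h2.trans (le_of_eq ?_)
    congr 2
    ring
  rcases le_or_gt |u z0| (Real.exp (m * (ψ z0 + μ))) with h0 | h0
  · calc |u z| ≤ |u z0| * Real.exp (m * (ψ z - ψ z0)) := hmax z hz
      _ ≤ Real.exp (m * (ψ z0 + μ)) * Real.exp (m * (ψ z - ψ z0)) :=
          mul_le_mul_of_nonneg_right h0 (Real.exp_pos _).le
      _ = Real.exp (m * (ψ z + μ)) := by
          rw [← Real.exp_add]
          congr 1
          ring
  · exfalso
    have hmem : z0 ∈ D' := by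
      by_contra hc
      have h1 := hout z0 hz0 hc
      have h2 : Real.exp (m * ψ z0) ≤ Real.exp (m * (ψ z0 + μ)) := by
        apply Real.exp_le_exp.2
        have := mul_pos hm0 hμ
        linarith
      linarith
    refine hcore m Λ q u ψ D z0 hm hΛ hΛm hD hsol hψ hB (hball z0 hmem) (hlap z0 hmem h0) ?_ hmax
    intro h
    rw [h, abs_zero] at h0
    exact absurd h0 (not_lt.2 (Real.exp_pos _).le)

end Pool.Agent.H24.Near
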