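import Mathlib

set_option autoImplicit false

/-!
# Near harmonicity of eigenfunctions at high growth: definitions

Functions on the plane `ℝ × ℝ` with its maximum norm; closed balls are closed squares.
-/

namespace Pool.Agent.H24.Near

open MeasureTheory Set Metric

/-- Smooth functions on the plane. -/
def Smooth (f : ℝ × ℝ → ℝ) : Prop := ContDiff ℝ (⊤ : ℕ∞) f

/-- The first partial derivative. -/
noncomputable def d1 (f : ℝ × ℝ → ℝ) (p : ℝ × ℝ) : ℝ := fderiv ℝ f p (1, 0)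

/-- The second partial derivative. -/
noncomputable def d2 (f : ℝ × ℝ → ℝ) (p : ℝ × ℝ) : ℝ := fderiv ℝ f p (0, 1)

/-- The Laplacian. -/
noncomputable def lap (f : ℝ × ℝ → ℝ) (p : ℝ × ℝ) : ℝ := d1 (d1 f) p + d2 (d2 f) p

/-- Iterated partial derivatives: `false` stands for `d1`, `true` for `d2`. -/
noncomputable def der : List Bool → (ℝ × ℝ → ℝ) → ℝ × ℝ → ℝ
  | [], f => f
  | false :: w, f => d1 (der w f)
  | true :: w, f => d2 (der w f)

/-- The maximum of `|u|` on the closed square with centre `z` and radius `r`. -/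
noncomputable def M (u : ℝ × ℝ → ℝ) (z : ℝ × ℝ) (r : ℝ) : ℝ :=
  sSup ((fun p => |u p|) '' closedBall z r)

/-- `u` solves `Δu + q u = 0` on `S`, and `q` and its first derivatives are at most `Λ` there. -/
structure Sol (q u : ℝ × ℝ → ℝ) (Λ : ℝ) (S : Set (ℝ × ℝ)) : Prop where
  smooth_q : Smooth q
  smooth_u : Smooth u
  eq : ∀ p ∈ S, lap u p + q p * u p = 0
  bq : ∀ p ∈ S, |q p| ≤ Λ
  bq1 : ∀ p ∈ S, |d1 q p| ≤ Λ
  bq2 : ∀ p ∈ S, |d2 q p| ≤ Λ

/-- The growth index of `u` at the point `x` and the scale `r`, with ratio `B`: the maximum over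
the centres `y` at distance at most `B r / 2` from `x` of
`log (max_{sq (x, B r)} |u| / max_{sq (y, r)} |u|)`. -/
noncomputable def Idx (B : ℝ) (u : ℝ × ℝ → ℝ) (x : ℝ × ℝ) (r : ℝ) : ℝ :=
  sSup ((fun y => Real.log (M u x (B * r)) - Real.log (M u y r)) '' closedBall x (B * r / 2))

lemma Smooth.d1 {f : ℝ × ℝ → ℝ} (hf : Smooth f) : Smooth (d1 f) := by
  have h1 : ContDiff ℝ (⊤ : ℕ∞) (fderiv ℝ f) := ContDiff.fderiv_right hf (by simp)
  exact h1.clm_apply contDiff_const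

lemma Smooth.d2 {f : ℝ × ℝ → ℝ} (hf : Smooth f) : Smooth (d2 f) := by
  have h1 : ContDiff ℝ (⊤ : ℕ∞) (fderiv ℝ f) := ContDiff.fderiv_right hf (by simp)
  exact h1.clm_apply contDiff_const

lemma Smooth.lap {f : ℝ × ℝ → ℝ} (hf : Smooth f) : Smooth (lap f) := hf.d1.d1.add hf.d2.d2

lemma Smooth.der {f : ℝ × ℝ → ℝ} (hf : Smooth f) : ∀ w : List Bool, Smooth (der w f)
  | [] => hf
  | false :: w => (Smooth.der hf w).d1
  | true :: w => (Smooth.der hf w).d2

lemma Smooth.continuous {f : ℝ × ℝ → ℝ} (hf : Smooth f) : Continuous f := ContDiff.continuous hf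

lemma Smooth.differentiable {f : ℝ × ℝ → ℝ} (hf : Smooth f) : Differentiable ℝ f :=
  ContDiff.differentiable hf (by simp)

lemma Smooth.hasFDerivAt {f : ℝ × ℝ → ℝ} (hf : Smooth f) (p : ℝ × ℝ) :
    HasFDerivAt f (fderiv ℝ f p) p := (hf.differentiable p).hasFDerivAt

lemma fderiv_apply_eq (f : ℝ × ℝ → ℝ) (p v : ℝ × ℝ) :
    fderiv ℝ f p v = d1 f p * v.1 + d2 f p * v.2 := by
  have h : v = v.1 • ((1, 0) : ℝ × ℝ) + v.2 • ((0, 1) : ℝ × ℝ) := by
    ext <;> simp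
  conv_lhs => rw [h]
  rw [map_add, map_smul, map_smul]
  simp only [smul_eq_mul, d1, d2]
  ring

lemma d1_add {f g : ℝ × ℝ → ℝ} {p : ℝ × ℝ} (hf : DifferentiableAt ℝ f p)
    (hg : DifferentiableAt ℝ g p) : d1 (fun x => f x + g x) p = d1 f p + d1 g p := by
  have := hf.hasFDerivAt.add hg.hasFDerivAt
  unfold d1
  rw [show (fun x => f x + g x) = f + g from rfl, this.fderiv]
  rfl

lemma d2_add {f g : ℝ × ℝ → ℝ} {p : ℝ × ℝ} (hf : DifferentiableAt ℝ f p)
    (hg : DifferentiableAt ℝ g p) : d2 (fun x => f x + g x) p = d2 f p + d2 g p := by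
  have := hf.hasFDerivAt.add hg.hasFDerivAt
  unfold d2
  rw [show (fun x => f x + g x) = f + g from rfl, this.fderiv]
  rfl

lemma d1_mul {f g : ℝ × ℝ → ℝ} {p : ℝ × ℝ} (hf : DifferentiableAt ℝ f p)
    (hg : DifferentiableAt ℝ g p) : d1 (fun x => f x * g x) p = d1 f p * g p + f p * d1 g p := by
  have := hf.hasFDerivAt.mul hg.hasFDerivAt
  unfold d1
  rw [show (fun x => f x * g x) = f * g from rfl, this.fderiv]
  simp only [add_apply, smul_apply, smul_eq_mul]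
  ring

lemma d2_mul {f g : ℝ × ℝ → ℝ} {p : ℝ × ℝ} (hf : DifferentiableAt ℝ f p)
    (hg : DifferentiableAt ℝ g p) : d2 (fun x => f x * g x) p = d2 f p * g p + f p * d2 g p := by
  have := hf.hasFDerivAt.mul hg.hasFDerivAt
  unfold d2
  rw [show (fun x => f x * g x) = f * g from rfl, this.fderiv]
  simp only [add_apply, smul_apply, smul_eq_mul]
  ring

lemma d1_const (c : ℝ) (p : ℝ × ℝ) : d1 (fun _ => c) p = 0 := by
  simp [d1]

lemma d2_const (c : ℝ) (p : ℝ × ℝ) : d2 (fun _ => c) p = 0 := by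
  simp [d2]

lemma d1_const_mul {f : ℝ × ℝ → ℝ} {p : ℝ × ℝ} (c : ℝ) (hf : DifferentiableAt ℝ f p) :
    d1 (fun x => c * f x) p = c * d1 f p := by
  have := d1_mul (f := fun _ : ℝ × ℝ => c) (p := p) (by fun_prop) hf
  rw [this, d1_const]
  ring

lemma d2_const_mul {f : ℝ × ℝ → ℝ} {p : ℝ × ℝ} (c : ℝ) (hf : DifferentiableAt ℝ f p) :
    d2 (fun x => c * f x) p = c * d2 f p := by
  have := d2_mul (f := fun _ : ℝ × ℝ => c) (p := p) (by fun_prop) hf
  rw [this, d2_const]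
  ring

lemma d1_fst (p : ℝ × ℝ) : d1 (fun x => x.1) p = 1 := by
  simp [d1, fderiv_fst]

lemma d2_fst (p : ℝ × ℝ) : d2 (fun x => x.1) p = 0 := by
  simp [d2, fderiv_fst]

lemma d1_snd (p : ℝ × ℝ) : d1 (fun x => x.2) p = 0 := by
  simp [d1, fderiv_snd]

lemma d2_snd (p : ℝ × ℝ) : d2 (fun x => x.2) p = 1 := by
  simp [d2, fderiv_snd]

/-- The chain rule for the composition with a function of one variable. -/
lemma d1_comp {f : ℝ × ℝ → ℝ} {g : ℝ → ℝ} {g' : ℝ} {p : ℝ × ℝ} (hf : DifferentiableAt ℝ f p)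
    (hg : HasDerivAt g g' (f p)) : d1 (fun x => g (f x)) p = g' * d1 f p := by
  have := hg.comp_hasFDerivAt p hf.hasFDerivAt
  unfold d1
  rw [show (fun x => g (f x)) = g ∘ f from rfl, this.fderiv]
  simp

lemma d2_comp {f : ℝ × ℝ → ℝ} {g : ℝ → ℝ} {g' : ℝ} {p : ℝ × ℝ} (hf : DifferentiableAt ℝ f p)
    (hg : HasDerivAt g g' (f p)) : d2 (fun x => g (f x)) p = g' * d2 f p := by
  have := hg.comp_hasFDerivAt p hf.hasFDerivAt
  unfold d2
  rw [show (fun x => g (f x)) = g ∘ f from rfl, this.fderiv]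
  simp

/-- Translation and dilation. -/
lemma d1_scale {f : ℝ × ℝ → ℝ} (hf : Differentiable ℝ f) (c : ℝ × ℝ) (r : ℝ) (p : ℝ × ℝ) :
    d1 (fun x => f (c + r • x)) p = r * d1 f (c + r • p) := by
  have h1 : HasFDerivAt (fun x : ℝ × ℝ => c + r • x) (r • ContinuousLinearMap.id ℝ (ℝ × ℝ)) p :=
    ((hasFDerivAt_id p).const_smul r).const_add c
  have := (hf (c + r • p)).hasFDerivAt.comp p h1
  unfold d1
  rw [show (fun x => f (c + r • x)) = f ∘ (fun x : ℝ × ℝ => c + r • x) from rfl, this.fderiv]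
  simp

lemma d2_scale {f : ℝ × ℝ → ℝ} (hf : Differentiable ℝ f) (c : ℝ × ℝ) (r : ℝ) (p : ℝ × ℝ) :
    d2 (fun x => f (c + r • x)) p = r * d2 f (c + r • p) := by
  have h1 : HasFDerivAt (fun x : ℝ × ℝ => c + r • x) (r • ContinuousLinearMap.id ℝ (ℝ × ℝ)) p :=
    ((hasFDerivAt_id p).const_smul r).const_add c
  have := (hf (c + r • p)).hasFDerivAt.comp p h1
  unfold d2
  rw [show (fun x => f (c + r • x)) = f ∘ (fun x : ℝ × ℝ => c + r • x) from rfl, this.fderiv]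
  simp

lemma Smooth.scale {f : ℝ × ℝ → ℝ} (hf : Smooth f) (c : ℝ × ℝ) (r : ℝ) :
    Smooth (fun x => f (c + r • x)) :=
  ContDiff.comp (g := f) hf (contDiff_const.add (contDiff_id.const_smul r))

lemma lap_scale {f : ℝ × ℝ → ℝ} (hf : Smooth f) (c : ℝ × ℝ) (r : ℝ) (p : ℝ × ℝ) :
    lap (fun x => f (c + r • x)) p = r ^ 2 * lap f (c + r • p) := by
  have e1 : d1 (fun x => f (c + r • x)) = fun x => r * d1 f (c + r • x) := by
    funext x; exact d1_scale hf.differentiable c r x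
  have e2 : d2 (fun x => f (c + r • x)) = fun x => r * d2 f (c + r • x) := by
    funext x; exact d2_scale hf.differentiable c r x
  unfold lap
  rw [e1, e2, d1_const_mul r ((hf.d1.scale c r).differentiable p),
    d2_const_mul r ((hf.d2.scale c r).differentiable p), d1_scale hf.d1.differentiable,
    d2_scale hf.d2.differentiable]
  ring

/-- Rescaling of solutions. -/
lemma Sol.scale {q u : ℝ × ℝ → ℝ} {Λ : ℝ} {S : Set (ℝ × ℝ)} (h : Sol q u Λ S) (c : ℝ × ℝ)
    {r : ℝ} (hr : 0 ≤ r) (hr1 : r ≤ 1) {T : Set (ℝ × ℝ)} (hT : ∀ p ∈ T, c + r • p ∈ S) :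
    Sol (fun x => r ^ 2 * q (c + r • x)) (fun x => u (c + r • x)) (r ^ 2 * Λ) T where
  smooth_q := contDiff_const.mul (h.smooth_q.scale c r)
  smooth_u := h.smooth_u.scale c r
  eq := by
    intro p hp
    rw [lap_scale h.smooth_u]
    linear_combination r ^ 2 * h.eq _ (hT p hp)
  bq := by
    intro p hp
    rw [abs_mul, abs_of_nonneg (by positivity : 0 ≤ r ^ 2)]
    exact mul_le_mul_of_nonneg_left (h.bq _ (hT p hp)) (by positivity)
  bq1 := by
    intro p hp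
    rw [d1_const_mul (r ^ 2) ((h.smooth_q.scale c r).differentiable p),
      d1_scale h.smooth_q.differentiable, abs_mul, abs_mul,
      abs_of_nonneg (by positivity : 0 ≤ r ^ 2), abs_of_nonneg hr]
    have h1 := h.bq1 _ (hT p hp)
    have h2 : r * |d1 q (c + r • p)| ≤ 1 * Λ :=
      mul_le_mul hr1 h1 (abs_nonneg _) zero_le_one
    rw [one_mul] at h2
    exact mul_le_mul_of_nonneg_left h2 (by positivity)
  bq2 := by
    intro p hp
    rw [d2_const_mul (r ^ 2) ((h.smooth_q.scale c r).differentiable p),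
      d2_scale h.smooth_q.differentiable, abs_mul, abs_mul,
      abs_of_nonneg (by positivity : 0 ≤ r ^ 2), abs_of_nonneg hr]
    have h1 := h.bq2 _ (hT p hp)
    have h2 : r * |d2 q (c + r • p)| ≤ 1 * Λ :=
      mul_le_mul hr1 h1 (abs_nonneg _) zero_le_one
    rw [one_mul] at h2
    exact mul_le_mul_of_nonneg_left h2 (by positivity)

/-! ### Maxima on squares -/

lemma bddAbove_M {u : ℝ × ℝ → ℝ} (hu : Continuous u) (z : ℝ × ℝ) (r : ℝ) :
    BddAbove ((fun p => |u p|) '' closedBall z r) :=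
  ((isCompact_closedBall z r).image_of_continuousOn hu.abs.continuousOn).bddAbove

lemma le_M {u : ℝ × ℝ → ℝ} (hu : Continuous u) {z p : ℝ × ℝ} {r : ℝ} (hp : p ∈ closedBall z r) :
    |u p| ≤ M u z r := le_csSup (bddAbove_M hu z r) ⟨p, hp, rfl⟩

lemma M_le {u : ℝ × ℝ → ℝ} {z : ℝ × ℝ} {r a : ℝ} (hr : 0 ≤ r)
    (h : ∀ p ∈ closedBall z r, |u p| ≤ a) : M u z r ≤ a := by
  apply csSup_le ((nonempty_closedBall.mpr hr).image _)
  rintro _ ⟨p, hp, rfl⟩
  exact h p hp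

lemma M_nonneg {u : ℝ × ℝ → ℝ} {z : ℝ × ℝ} {r : ℝ} : 0 ≤ M u z r := by
  apply Real.sSup_nonneg
  rintro _ ⟨p, _, rfl⟩
  exact abs_nonneg _

lemma exists_M {u : ℝ × ℝ → ℝ} (hu : Continuous u) {z : ℝ × ℝ} {r : ℝ} (hr : 0 ≤ r) :
    ∃ p ∈ closedBall z r, |u p| = M u z r := by
  obtain ⟨p, hp, h⟩ := (isCompact_closedBall z r).exists_isMaxOn (nonempty_closedBall.mpr hr)
    hu.abs.continuousOn
  refine ⟨p, hp, le_antisymm (le_M hu hp) (M_le hr fun q hq => h hq)⟩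

lemma M_mono {u : ℝ × ℝ → ℝ} (hu : Continuous u) {z z' : ℝ × ℝ} {r r' : ℝ} (hr : 0 ≤ r)
    (h : closedBall z r ⊆ closedBall z' r') : M u z r ≤ M u z' r' :=
  M_le hr fun _ hp => le_M hu (h hp)

end Pool.Agent.H24.Near
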