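import Pool.Agent.H24.Near.Defs

set_option autoImplicit false

/-!
# The energy estimate
-/

namespace Pool.Agent.H24.Near

open MeasureTheory Set Metric

/-! ### Green's formula -/

lemma tsupport_d1_subset (f : ℝ × ℝ → ℝ) : tsupport (d1 f) ⊆ tsupport f :=
  tsupport_fderiv_apply_subset ℝ ((1, 0) : ℝ × ℝ)

lemma tsupport_d2_subset (f : ℝ × ℝ → ℝ) : tsupport (d2 f) ⊆ tsupport f :=
  tsupport_fderiv_apply_subset ℝ ((0, 1) : ℝ × ℝ)

lemma hasCompactSupport_d1 {f : ℝ × ℝ → ℝ} (hf : HasCompactSupport f) : HasCompactSupport (d1 f) :=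
  hf.of_isClosed_subset (isClosed_tsupport _) (tsupport_d1_subset f)

lemma hasCompactSupport_d2 {f : ℝ × ℝ → ℝ} (hf : HasCompactSupport f) : HasCompactSupport (d2 f) :=
  hf.of_isClosed_subset (isClosed_tsupport _) (tsupport_d2_subset f)

lemma integral_mul_d1 {χ g : ℝ × ℝ → ℝ} (hχ : Smooth χ) (hc : HasCompactSupport χ)
    (hg : Smooth g) : ∫ p, χ p * d1 g p = - ∫ p, d1 χ p * g p := by
  refine integral_mul_fderiv_eq_neg_fderiv_mul_of_integrable (v := ((1, 0) : ℝ × ℝ)) ?_ ?_ ?_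
    (fun x _ => hχ.differentiable x) (fun x _ => hg.differentiable x)
  · exact (hχ.d1.continuous.mul hg.continuous).integrable_of_hasCompactSupport
      ((hasCompactSupport_d1 hc).mul_right)
  · exact (hχ.continuous.mul hg.d1.continuous).integrable_of_hasCompactSupport hc.mul_right
  · exact (hχ.continuous.mul hg.continuous).integrable_of_hasCompactSupport hc.mul_right

lemma integral_mul_d2 {χ g : ℝ × ℝ → ℝ} (hχ : Smooth χ) (hc : HasCompactSupport χ)
    (hg : Smooth g) : ∫ p, χ p * d2 g p = - ∫ p, d2 χ p * g p := by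
  refine integral_mul_fderiv_eq_neg_fderiv_mul_of_integrable (v := ((0, 1) : ℝ × ℝ)) ?_ ?_ ?_
    (fun x _ => hχ.differentiable x) (fun x _ => hg.differentiable x)
  · exact (hχ.d2.continuous.mul hg.continuous).integrable_of_hasCompactSupport
      ((hasCompactSupport_d2 hc).mul_right)
  · exact (hχ.continuous.mul hg.d2.continuous).integrable_of_hasCompactSupport hc.mul_right
  · exact (hχ.continuous.mul hg.continuous).integrable_of_hasCompactSupport hc.mul_right

/-- Green's formula with a compactly supported function. -/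
lemma green {χ g : ℝ × ℝ → ℝ} (hχ : Smooth χ) (hc : HasCompactSupport χ) (hg : Smooth g) :
    ∫ p, χ p * lap g p = ∫ p, lap χ p * g p := by
  have e1 : ∫ p, χ p * d1 (d1 g) p = ∫ p, d1 (d1 χ) p * g p := by
    rw [integral_mul_d1 hχ hc hg.d1, integral_mul_d1 hχ.d1 (hasCompactSupport_d1 hc) hg, neg_neg]
  have e2 : ∫ p, χ p * d2 (d2 g) p = ∫ p, d2 (d2 χ) p * g p := by
    rw [integral_mul_d2 hχ hc hg.d2, integral_mul_d2 hχ.d2 (hasCompactSupport_d2 hc) hg, neg_neg]
  have i1 : Integrable (fun p => χ p * d1 (d1 g) p) :=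
    (hχ.continuous.mul hg.d1.d1.continuous).integrable_of_hasCompactSupport hc.mul_right
  have i2 : Integrable (fun p => χ p * d2 (d2 g) p) :=
    (hχ.continuous.mul hg.d2.d2.continuous).integrable_of_hasCompactSupport hc.mul_right
  have i3 : Integrable (fun p => d1 (d1 χ) p * g p) :=
    (hχ.d1.d1.continuous.mul hg.continuous).integrable_of_hasCompactSupport
      (hasCompactSupport_d1 (hasCompactSupport_d1 hc)).mul_right
  have i4 : Integrable (fun p => d2 (d2 χ) p * g p) :=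
    (hχ.d2.d2.continuous.mul hg.continuous).integrable_of_hasCompactSupport
      (hasCompactSupport_d2 (hasCompactSupport_d2 hc)).mul_right
  have h1 : ∫ p, χ p * lap g p = ∫ p, (χ p * d1 (d1 g) p + χ p * d2 (d2 g) p) :=
    integral_congr_ae (Filter.Eventually.of_forall fun p => by simp only [lap]; ring)
  have h2 : ∫ p, lap χ p * g p = ∫ p, (d1 (d1 χ) p * g p + d2 (d2 χ) p * g p) :=
    integral_congr_ae (Filter.Eventually.of_forall fun p => by simp only [lap]; ring)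
  rw [h1, h2, integral_add i1 i2, integral_add i3 i4, e1, e2]

lemma lap_eq_zero_of_notMem {χ : ℝ × ℝ → ℝ} {p : ℝ × ℝ} (hp : p ∉ tsupport χ) : lap χ p = 0 := by
  unfold lap
  rw [image_eq_zero_of_notMem_tsupport (f := d1 (d1 χ)) fun h =>
      hp (tsupport_d1_subset _ (tsupport_d1_subset _ h)),
    image_eq_zero_of_notMem_tsupport (f := d2 (d2 χ)) fun h =>
      hp (tsupport_d2_subset _ (tsupport_d2_subset _ h)), add_zero]

lemma green_on {χ g : ℝ × ℝ → ℝ} (hχ : Smooth χ) (hc : HasCompactSupport χ) {S : Set (ℝ × ℝ)}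
    (hS : tsupport χ ⊆ S) (hg : Smooth g) :
    ∫ p in S, χ p * lap g p = ∫ p in S, lap χ p * g p := by
  rw [setIntegral_eq_integral_of_forall_compl_eq_zero (fun p hp => by
      rw [image_eq_zero_of_notMem_tsupport fun h => hp (hS h), zero_mul]),
    setIntegral_eq_integral_of_forall_compl_eq_zero (fun p hp => by
      rw [lap_eq_zero_of_notMem fun h => hp (hS h), zero_mul])]
  exact green hχ hc hg

lemma lap_sq {ψ : ℝ × ℝ → ℝ} (hψ : Smooth ψ) (p : ℝ × ℝ) :
    lap (fun x => ψ x * ψ x) p = 2 * (d1 ψ p ^ 2 + d2 ψ p ^ 2) + 2 * (ψ p * lap ψ p) := by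
  have h0 := hψ.differentiable
  have h1 := hψ.d1.differentiable
  have h2 := hψ.d2.differentiable
  have e1 : d1 (fun x => ψ x * ψ x) = fun x => 2 * (ψ x * d1 ψ x) := by
    funext x
    rw [d1_mul (h0 x) (h0 x)]
    ring
  have e2 : d2 (fun x => ψ x * ψ x) = fun x => 2 * (ψ x * d2 ψ x) := by
    funext x
    rw [d2_mul (h0 x) (h0 x)]
    ring
  have k1 : DifferentiableAt ℝ (fun x => ψ x * d1 ψ x) p := (h0 p).mul (h1 p)
  have k2 : DifferentiableAt ℝ (fun x => ψ x * d2 ψ x) p := (h0 p).mul (h2 p)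
  unfold lap
  rw [e1, e2, d1_const_mul 2 k1, d2_const_mul 2 k2, d1_mul (h0 p) (h1 p), d2_mul (h0 p) (h2 p)]
  ring

/-! ### The cutoff function -/

lemma exists_cutoff : ∃ χ : ℝ × ℝ → ℝ, Smooth χ ∧ HasCompactSupport χ ∧
    tsupport χ ⊆ closedBall (0 : ℝ × ℝ) 2 ∧ (∀ p, 0 ≤ χ p) ∧ (∀ p, χ p ≤ 1) ∧
    (∀ p ∈ closedBall (0 : ℝ × ℝ) (3 / 2), χ p = 1) ∧ ∃ K : ℝ, 0 ≤ K ∧ ∀ p, |lap χ p| ≤ K := by
  set b : ContDiffBump (0 : ℝ × ℝ) := ⟨3 / 2, 7 / 4, by norm_num, by norm_num⟩ with hb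
  have hs : Smooth (fun p => b p) := b.contDiff
  have hc : HasCompactSupport (fun p => b p) := b.hasCompactSupport
  refine ⟨fun p => b p, hs, hc, ?_, fun p => b.nonneg, fun p => b.le_one,
    fun p hp => b.one_of_mem_closedBall hp, ?_⟩
  · refine (b.tsupport_eq).subset.trans (closedBall_subset_closedBall ?_)
    show (7 / 4 : ℝ) ≤ 2
    norm_num
  · have hcs : HasCompactSupport (lap (fun p => b p)) :=
      hc.of_isClosed_subset (isClosed_tsupport _)
        (closure_minimal (fun p hp => by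
          by_contra h
          exact hp (lap_eq_zero_of_notMem h)) (isClosed_tsupport _))
    obtain ⟨K, hK⟩ := hcs.exists_bound_of_continuous hs.lap.continuous
    refine ⟨K, (abs_nonneg _).trans (hK 0), hK⟩

/-! ### Translations -/

lemma integral_translate_le {g : ℝ × ℝ → ℝ} (hg : Continuous g) (h0 : ∀ p, 0 ≤ g p)
    {r R : ℝ} {ζ : ℝ × ℝ} (h : r + ‖ζ‖ ≤ R) :
    ∫ z in closedBall (0 : ℝ × ℝ) r, g (z + ζ) ≤ ∫ z in closedBall (0 : ℝ × ℝ) R, g z := by
  have e1 : ∫ z in closedBall (0 : ℝ × ℝ) r, g (z + ζ) = ∫ z in closedBall ζ r, g z := by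
    rw [← integral_indicator measurableSet_closedBall, ← integral_indicator measurableSet_closedBall,
      ← integral_add_right_eq_self (fun z => (closedBall ζ r).indicator g z) ζ]
    refine integral_congr_ae (Filter.Eventually.of_forall fun z => ?_)
    have hiff : z + ζ ∈ closedBall ζ r ↔ z ∈ closedBall (0 : ℝ × ℝ) r := by
      rw [mem_closedBall, mem_closedBall, dist_eq_norm, dist_eq_norm]
      simp
    by_cases hz : z ∈ closedBall (0 : ℝ × ℝ) r
    · show (closedBall (0 : ℝ × ℝ) r).indicator (fun z => g (z + ζ)) z =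
        (closedBall ζ r).indicator g (z + ζ)
      rw [indicator_of_mem hz, indicator_of_mem (hiff.2 hz)]
    · show (closedBall (0 : ℝ × ℝ) r).indicator (fun z => g (z + ζ)) z =
        (closedBall ζ r).indicator g (z + ζ)
      rw [indicator_of_notMem hz, indicator_of_notMem fun h => hz (hiff.1 h)]
  rw [e1]
  refine setIntegral_mono_set (hg.continuousOn.integrableOn_compact (isCompact_closedBall 0 R))
    (Filter.Eventually.of_forall fun p => h0 p) (LE.le.eventuallyLE ?_)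
  refine closedBall_subset_closedBall' ?_
  rw [dist_zero_right]
  exact h

lemma translate_diff_le {ψ : ℝ × ℝ → ℝ} (hψ : Smooth ψ) {r : ℝ} {ζ : ℝ × ℝ} :
    ∫ z in closedBall (0 : ℝ × ℝ) r, |ψ (z + ζ) - ψ z| ≤
      ‖ζ‖ * ∫ z in closedBall (0 : ℝ × ℝ) (r + ‖ζ‖), (|d1 ψ z| + |d2 ψ z|) := by
  set G : ℝ × ℝ → ℝ := fun z => |d1 ψ z| + |d2 ψ z| with hG
  have hGc : Continuous G := hψ.d1.continuous.abs.add hψ.d2.continuous.abs
  have hG0 : ∀ p, 0 ≤ G p := fun p => add_nonneg (abs_nonneg _) (abs_nonneg _)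
  -- pointwise
  have hpt : ∀ z, |ψ (z + ζ) - ψ z| ≤ ‖ζ‖ * ∫ s in Icc (0 : ℝ) 1, G (z + s • ζ) := by
    intro z
    have hd : ∀ s ∈ uIcc (0 : ℝ) 1, HasDerivAt (fun s : ℝ => ψ (z + s • ζ))
        (fderiv ℝ ψ (z + s • ζ) ζ) s := by
      intro s _
      have h1 : HasDerivAt (fun s : ℝ => z + s • ζ) ζ s := by
        simpa using ((hasDerivAt_id s).smul_const ζ).const_add z
      exact (hψ.hasFDerivAt (z + s • ζ)).comp_hasDerivAt s h1
    have hcont : Continuous (fun s : ℝ => fderiv ℝ ψ (z + s • ζ) ζ) := by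
      have : (fun s : ℝ => fderiv ℝ ψ (z + s • ζ) ζ) = fun s : ℝ =>
          d1 ψ (z + s • ζ) * ζ.1 + d2 ψ (z + s • ζ) * ζ.2 := by
        funext s; exact fderiv_apply_eq ψ _ ζ
      rw [this]
      have hl : Continuous (fun s : ℝ => z + s • ζ) := by fun_prop
      exact ((hψ.d1.continuous.comp hl).mul continuous_const).add
        ((hψ.d2.continuous.comp hl).mul continuous_const)
    have h2 := intervalIntegral.integral_eq_sub_of_hasDerivAt hd (hcont.intervalIntegrable 0 1)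
    simp only [one_smul, zero_smul, add_zero] at h2
    rw [← h2, intervalIntegral.integral_of_le zero_le_one, ← integral_Icc_eq_integral_Ioc]
    refine (abs_integral_le_integral_abs).trans ?_
    rw [← integral_const_mul]
    have hl : Continuous (fun s : ℝ => z + s • ζ) := by fun_prop
    refine integral_mono (hcont.abs.continuousOn.integrableOn_compact isCompact_Icc)
      ((continuous_const.mul (hGc.comp hl)).continuousOn.integrableOn_compact isCompact_Icc) ?_
    intro s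
    show |fderiv ℝ ψ (z + s • ζ) ζ| ≤ ‖ζ‖ * G (z + s • ζ)
    rw [fderiv_apply_eq]
    have n1 : |ζ.1| ≤ ‖ζ‖ := norm_fst_le ζ
    have n2 : |ζ.2| ≤ ‖ζ‖ := norm_snd_le ζ
    calc |d1 ψ (z + s • ζ) * ζ.1 + d2 ψ (z + s • ζ) * ζ.2|
        ≤ |d1 ψ (z + s • ζ)| * |ζ.1| + |d2 ψ (z + s • ζ)| * |ζ.2| := by
          rw [← abs_mul, ← abs_mul]; exact abs_add_le _ _
      _ ≤ |d1 ψ (z + s • ζ)| * ‖ζ‖ + |d2 ψ (z + s • ζ)| * ‖ζ‖ :=
          add_le_add (mul_le_mul_of_nonneg_left n1 (abs_nonneg _))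
            (mul_le_mul_of_nonneg_left n2 (abs_nonneg _))
      _ = ‖ζ‖ * G (z + s • ζ) := by simp only [hG]; ring
  have hFc : Continuous (fun q : (ℝ × ℝ) × ℝ => G (q.1 + q.2 • ζ)) := by
    refine hGc.comp ?_
    fun_prop
  have hFint : Integrable (Function.uncurry fun (z : ℝ × ℝ) (s : ℝ) => G (z + s • ζ))
      ((volume.restrict (closedBall (0 : ℝ × ℝ) r)).prod (volume.restrict (Icc (0 : ℝ) 1))) := by
    rw [Measure.prod_restrict]
    exact hFc.continuousOn.integrableOn_compact ((isCompact_closedBall _ _).prod isCompact_Icc)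
  have hswap := integral_integral_swap hFint
  have hI2 : Integrable (fun z => ∫ s in Icc (0 : ℝ) 1, G (z + s • ζ))
      (volume.restrict (closedBall (0 : ℝ × ℝ) r)) := hFint.integral_prod_left
  have hI3 : Integrable (fun s : ℝ => ∫ z in closedBall (0 : ℝ × ℝ) r, G (z + s • ζ))
      (volume.restrict (Icc (0 : ℝ) 1)) := hFint.integral_prod_right
  have hψt : Continuous (fun z => |ψ (z + ζ) - ψ z|) :=
    ((hψ.continuous.comp (continuous_id.add continuous_const)).sub hψ.continuous).abs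
  calc ∫ z in closedBall (0 : ℝ × ℝ) r, |ψ (z + ζ) - ψ z|
      ≤ ∫ z in closedBall (0 : ℝ × ℝ) r, ‖ζ‖ * ∫ s in Icc (0 : ℝ) 1, G (z + s • ζ) :=
        integral_mono (hψt.continuousOn.integrableOn_compact (isCompact_closedBall 0 r))
          (hI2.const_mul _) hpt
    _ = ‖ζ‖ * ∫ s in Icc (0 : ℝ) 1, ∫ z in closedBall (0 : ℝ × ℝ) r, G (z + s • ζ) := by
        rw [integral_const_mul, hswap]
    _ ≤ ‖ζ‖ * ∫ _s in Icc (0 : ℝ) 1, ∫ z in closedBall (0 : ℝ × ℝ) (r + ‖ζ‖), G z := by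
        refine mul_le_mul_of_nonneg_left ?_ (norm_nonneg _)
        refine setIntegral_mono_on hI3 (integrableOn_const (by simp)) measurableSet_Icc ?_
        intro s hs
        refine integral_translate_le hGc hG0 ?_
        rw [norm_smul, Real.norm_of_nonneg hs.1]
        have := mul_le_mul_of_nonneg_right hs.2 (norm_nonneg ζ)
        linarith
    _ = ‖ζ‖ * ∫ z in closedBall (0 : ℝ × ℝ) (r + ‖ζ‖), G z := by
        simp

theorem energy (C1 : ℝ) (hC1 : 0 ≤ C1) : ∃ Ce : ℝ, 1 ≤ Ce ∧ ∀ (H f ψ : ℝ × ℝ → ℝ) (L0 t : ℝ),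
    Continuous H → Smooth f → Smooth ψ → 0 < t → t ≤ 1 → 0 < L0 →
    (∀ p ∈ closedBall (0 : ℝ × ℝ) 2, ψ p - t * lap ψ p = f p) →
    (∀ p ∈ closedBall (0 : ℝ × ℝ) 2, -L0 ≤ ψ p ∧ ψ p ≤ 0) →
    (∀ p ∈ closedBall (0 : ℝ × ℝ) 2, H p ≤ f p) →
    (∀ p ∈ closedBall (0 : ℝ × ℝ) 2, H p ≤ ψ p + C1 * t * L0) →
    ∫ p in closedBall (0 : ℝ × ℝ) 2, (f p - H p) ≤ C1 * t * L0 →
    ∀ ζ : ℝ × ℝ, ‖ζ‖ ≤ 1 / 4 →
      ∫ z in closedBall (0 : ℝ × ℝ) 1, |H (z + ζ) - H z| ≤ Ce * (t + ‖ζ‖) * L0 := by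
  obtain ⟨χ, hχ, hχc, hχs, hχ0, hχ1, hχe, Kχ, hKχ0, hKχ⟩ := exists_cutoff
  set A : ℝ := volume.real (closedBall (0 : ℝ × ℝ) 2) with hA
  have hA0 : 0 ≤ A := measureReal_nonneg
  set K1 : ℝ := 2 * C1 + 2 * A * C1 + A * Kχ with hK1
  have hK10 : 0 ≤ K1 := by positivity
  set K2 : ℝ := K1 + A * Kχ with hK2
  have hK20 : 0 ≤ K2 := by positivity
  refine ⟨1 + 2 * C1 + 2 * K1 + A + K2, by linarith only [hC1, hA0, hK10, hK20], ?_⟩
  intro H f ψ L0 t hH hf hψ ht ht1 hL0 heq hψb hHf hHψ hint ζ hζ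
  have hAconst : ∀ c : ℝ, ∫ _p in closedBall (0 : ℝ × ℝ) 2, c = A * c := by
    intro c
    rw [setIntegral_const, smul_eq_mul]
  have cint : ∀ {g : ℝ × ℝ → ℝ}, Continuous g → IntegrableOn g (closedBall (0 : ℝ × ℝ) 2) :=
    fun hg => hg.continuousOn.integrableOn_compact (isCompact_closedBall 0 2)
  have cint' : ∀ {g : ℝ × ℝ → ℝ} (r : ℝ), Continuous g → IntegrableOn g (closedBall (0 : ℝ × ℝ) r) :=
    fun r hg => hg.continuousOn.integrableOn_compact (isCompact_closedBall 0 r)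
  have hLc := hψ.lap.continuous
  have hψc := hψ.continuous
  have hfc := hf.continuous
  have hχc' := hχ.continuous
  have hCt : 0 ≤ C1 * t * L0 := by positivity
  -- Step 1
  have s1 : ∫ p in closedBall (0 : ℝ × ℝ) 2, χ p * |f p - ψ p| ≤ K1 * t * L0 := by
    have hpt : ∀ p ∈ closedBall (0 : ℝ × ℝ) 2, χ p * |f p - ψ p| ≤
        2 * (f p - H p) + 2 * (C1 * t * L0) + t * (χ p * lap ψ p) := by
      intro p hp
      have h1 := heq p hp
      have h2 := hHf p hp
      have h3 := hHψ p hp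
      have h4 := hχ0 p
      have h5 := hχ1 p
      have h6 : |f p - ψ p| ≤ 2 * ((f p - H p) + C1 * t * L0) - (f p - ψ p) := by
        rw [abs_le]
        constructor <;> linarith
      have h7 : χ p * |f p - ψ p| ≤ χ p * (2 * ((f p - H p) + C1 * t * L0) - (f p - ψ p)) :=
        mul_le_mul_of_nonneg_left h6 h4
      have h8 : χ p * (2 * ((f p - H p) + C1 * t * L0)) ≤ 1 * (2 * ((f p - H p) + C1 * t * L0)) :=
        mul_le_mul_of_nonneg_right h5 (by linarith)
      have h9 : χ p * (f p - ψ p) = - (t * (χ p * lap ψ p)) := by rw [← h1]; ring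
      nlinarith only [h7, h8, h9]
    have k0 : Continuous (fun p => χ p * |f p - ψ p|) := hχc'.mul (hfc.sub hψc).abs
    have k1 : Continuous (fun p => 2 * (f p - H p)) := continuous_const.mul (hfc.sub hH)
    have k2 : Continuous (fun _ : ℝ × ℝ => 2 * (C1 * t * L0)) := continuous_const
    have k3 : Continuous (fun p => t * (χ p * lap ψ p)) := continuous_const.mul (hχc'.mul hLc)
    have k12 : Continuous (fun p => 2 * (f p - H p) + 2 * (C1 * t * L0)) := k1.add k2
    have k123 : Continuous (fun p => 2 * (f p - H p) + 2 * (C1 * t * L0) +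
        t * (χ p * lap ψ p)) := k12.add k3
    have h1 := setIntegral_mono_on (cint k0) (cint k123) measurableSet_closedBall hpt
    refine h1.trans ?_
    rw [integral_add (cint k12) (cint k3), integral_add (cint k1) (cint k2),
      hAconst, integral_const_mul, integral_const_mul, green_on hχ hχc hχs hψ]
    have h2 : ∫ p in closedBall (0 : ℝ × ℝ) 2, lap χ p * ψ p ≤ A * (Kχ * L0) := by
      rw [← hAconst]
      refine setIntegral_mono_on (cint (hχ.lap.continuous.mul hψc)) (cint continuous_const)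
        measurableSet_closedBall ?_
      intro p hp
      have h3 := hKχ p
      obtain ⟨h4, h5⟩ := hψb p hp
      have h6 : |ψ p| ≤ L0 := abs_le.2 ⟨h4, by linarith⟩
      calc lap χ p * ψ p ≤ |lap χ p| * |ψ p| := by rw [← abs_mul]; exact le_abs_self _
        _ ≤ Kχ * L0 := mul_le_mul h3 h6 (abs_nonneg _) hKχ0
    have h3 := mul_le_mul_of_nonneg_left h2 ht.le
    have h4 : K1 * t * L0 = 2 * (C1 * t * L0) + A * (2 * (C1 * t * L0)) + t * (A * (Kχ * L0)) := by
      rw [hK1]; ring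
    rw [h4]
    linarith
  -- Step 2
  have s2 : ∫ p in closedBall (0 : ℝ × ℝ) 2, χ p * (d1 ψ p ^ 2 + d2 ψ p ^ 2) ≤ K2 * L0 ^ 2 := by
    have hg := green_on hχ hχc hχs (g := fun x => ψ x * ψ x) (by
      show ContDiff ℝ _ _
      exact ContDiff.mul hψ hψ)
    have e1 : ∫ p in closedBall (0 : ℝ × ℝ) 2, χ p * lap (fun x => ψ x * ψ x) p =
        2 * (∫ p in closedBall (0 : ℝ × ℝ) 2, χ p * (d1 ψ p ^ 2 + d2 ψ p ^ 2)) +
        2 * ∫ p in closedBall (0 : ℝ × ℝ) 2, χ p * (ψ p * lap ψ p) := by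
      have k1 : Continuous (fun p => 2 * (χ p * (d1 ψ p ^ 2 + d2 ψ p ^ 2))) :=
        continuous_const.mul (hχc'.mul ((hψ.d1.continuous.pow 2).add (hψ.d2.continuous.pow 2)))
      have k2 : Continuous (fun p => 2 * (χ p * (ψ p * lap ψ p))) :=
        continuous_const.mul (hχc'.mul (hψc.mul hLc))
      rw [← integral_const_mul, ← integral_const_mul, ← integral_add (cint k1) (cint k2)]
      refine setIntegral_congr_fun measurableSet_closedBall fun p _ => ?_
      show χ p * lap (fun x => ψ x * ψ x) p = _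
      rw [lap_sq hψ]
      ring
    have h2 : ∫ p in closedBall (0 : ℝ × ℝ) 2, lap χ p * (ψ p * ψ p) ≤ A * (Kχ * L0 ^ 2) := by
      rw [← hAconst]
      refine setIntegral_mono_on (cint (hχ.lap.continuous.mul (hψc.mul hψc))) (cint continuous_const)
        measurableSet_closedBall ?_
      intro p hp
      have h3 := hKχ p
      obtain ⟨h4, h5⟩ := hψb p hp
      have h6 : |ψ p * ψ p| ≤ L0 ^ 2 := by
        rw [abs_mul, ← sq]
        exact pow_le_pow_left₀ (abs_nonneg _) (abs_le.2 ⟨h4, by linarith⟩) 2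
      calc lap χ p * (ψ p * ψ p) ≤ |lap χ p| * |ψ p * ψ p| := by
            rw [← abs_mul]; exact le_abs_self _
        _ ≤ Kχ * L0 ^ 2 := mul_le_mul h3 h6 (abs_nonneg _) hKχ0
    have h3 : - (L0 * (K1 * L0)) ≤ ∫ p in closedBall (0 : ℝ × ℝ) 2, χ p * (ψ p * lap ψ p) := by
      -- t * χ ψ lap ψ = -χ ψ (f - ψ) ≥ - L0 χ |f - ψ|
      have h4 : ∀ p ∈ closedBall (0 : ℝ × ℝ) 2,
          - (L0 / t) * (χ p * |f p - ψ p|) ≤ χ p * (ψ p * lap ψ p) := by
        intro p hp
        have h5 := heq p hp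
        obtain ⟨h6, h7⟩ := hψb p hp
        have h8 : lap ψ p = - (f p - ψ p) / t := by
          field_simp
          linarith only [h5]
        have h9 : |ψ p| ≤ L0 := abs_le.2 ⟨h6, by linarith⟩
        have h10 : - (L0 * |f p - ψ p|) ≤ ψ p * (- (f p - ψ p)) := by
          have : |ψ p * (-(f p - ψ p))| ≤ L0 * |f p - ψ p| := by
            rw [abs_mul, abs_neg]
            exact mul_le_mul_of_nonneg_right h9 (abs_nonneg _)
          exact (abs_le.1 this).1
        have h11 := mul_le_mul_of_nonneg_left h10 (div_nonneg (hχ0 p) ht.le)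
        rw [h8]
        calc - (L0 / t) * (χ p * |f p - ψ p|) = χ p / t * (-(L0 * |f p - ψ p|)) := by ring
          _ ≤ χ p / t * (ψ p * (- (f p - ψ p))) := h11
          _ = χ p * (ψ p * (-(f p - ψ p) / t)) := by ring
      have k1 : Continuous (fun p => - (L0 / t) * (χ p * |f p - ψ p|)) :=
        continuous_const.mul (hχc'.mul (hfc.sub hψc).abs)
      have k2 : Continuous (fun p => χ p * (ψ p * lap ψ p)) := hχc'.mul (hψc.mul hLc)
      have h5 := setIntegral_mono_on (cint k1) (cint k2) measurableSet_closedBall h4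
      rw [integral_const_mul] at h5
      refine le_trans ?_ h5
      have h6 := mul_le_mul_of_nonneg_left s1 (div_nonneg hL0.le ht.le)
      have h7 : L0 / t * (K1 * t * L0) = L0 * (K1 * L0) := by field_simp
      rw [h7] at h6
      linarith only [h6]
    rw [e1] at hg
    have h4 : (2 : ℝ) * (∫ p in closedBall (0 : ℝ × ℝ) 2, χ p * (d1 ψ p ^ 2 + d2 ψ p ^ 2)) ≤
        A * (Kχ * L0 ^ 2) + 2 * (L0 * (K1 * L0)) := by linarith
    have h5 : 0 ≤ A * (Kχ * L0 ^ 2) := by positivity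
    have h6 : K2 * L0 ^ 2 = L0 * (K1 * L0) + A * (Kχ * L0 ^ 2) := by rw [hK2]; ring
    rw [h6]
    linarith
  -- localisation
  have hsub : ∀ {r : ℝ}, r ≤ 3 / 2 → ∀ {g : ℝ × ℝ → ℝ}, Continuous g → (∀ p, 0 ≤ g p) →
      ∫ p in closedBall (0 : ℝ × ℝ) r, g p ≤ ∫ p in closedBall (0 : ℝ × ℝ) 2, χ p * g p := by
    intro r hr g hg hg0
    have e1 : ∫ p in closedBall (0 : ℝ × ℝ) r, g p = ∫ p in closedBall (0 : ℝ × ℝ) r, χ p * g p := by
      refine setIntegral_congr_fun measurableSet_closedBall fun p hp => ?_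
      show g p = χ p * g p
      rw [hχe p (closedBall_subset_closedBall hr hp), one_mul]
    rw [e1]
    exact setIntegral_mono_set (cint (hχc'.mul hg))
      (Filter.Eventually.of_forall fun p => mul_nonneg (hχ0 p) (hg0 p))
      (LE.le.eventuallyLE (closedBall_subset_closedBall (by linarith)))
  have hsub2 : ∀ {r : ℝ}, r ≤ 2 → ∀ {g : ℝ × ℝ → ℝ}, Continuous g → (∀ p, 0 ≤ g p) →
      ∫ p in closedBall (0 : ℝ × ℝ) r, g p ≤ ∫ p in closedBall (0 : ℝ × ℝ) 2, g p := by
    intro r hr g hg hg0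
    exact setIntegral_mono_set (cint hg) (Filter.Eventually.of_forall fun p => hg0 p)
      (LE.le.eventuallyLE (closedBall_subset_closedBall hr))
  have hHfi : ∫ p in closedBall (0 : ℝ × ℝ) 2, |H p - f p| ≤ C1 * t * L0 := by
    refine le_trans (le_of_eq ?_) hint
    refine setIntegral_congr_fun measurableSet_closedBall fun p hp => ?_
    show |H p - f p| = f p - H p
    rw [abs_sub_comm, abs_of_nonneg (sub_nonneg.2 (hHf p hp))]
  have cHf : Continuous fun p => |H p - f p| := (hH.sub hfc).abs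
  have cfψ : Continuous fun p => |f p - ψ p| := (hfc.sub hψc).abs
  have hζ1 : 1 + ‖ζ‖ ≤ 5 / 4 := by linarith
  have b1 : ∫ z in closedBall (0 : ℝ × ℝ) 1, |H (z + ζ) - f (z + ζ)| ≤ C1 * t * L0 :=
    (integral_translate_le cHf (fun p => abs_nonneg _) hζ1).trans
      ((hsub2 (by norm_num) cHf fun p => abs_nonneg _).trans hHfi)
  have b2 : ∫ z in closedBall (0 : ℝ × ℝ) 1, |f (z + ζ) - ψ (z + ζ)| ≤ K1 * t * L0 :=
    (integral_translate_le cfψ (fun p => abs_nonneg _) hζ1).trans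
      ((hsub (by norm_num) cfψ fun p => abs_nonneg _).trans s1)
  have b4 : ∫ z in closedBall (0 : ℝ × ℝ) 1, |f z - ψ z| ≤ K1 * t * L0 :=
    (hsub (by norm_num) cfψ fun p => abs_nonneg _).trans s1
  have b5 : ∫ z in closedBall (0 : ℝ × ℝ) 1, |H z - f z| ≤ C1 * t * L0 :=
    (hsub2 (by norm_num) cHf fun p => abs_nonneg _).trans hHfi
  have b3 : ∫ z in closedBall (0 : ℝ × ℝ) 1, |ψ (z + ζ) - ψ z| ≤ ‖ζ‖ * ((A + K2) * L0) := by
    refine (translate_diff_le hψ).trans ?_
    refine mul_le_mul_of_nonneg_left ?_ (norm_nonneg _)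
    have cG : Continuous fun z => |d1 ψ z| + |d2 ψ z| :=
      hψ.d1.continuous.abs.add hψ.d2.continuous.abs
    have cS : Continuous fun z => d1 ψ z ^ 2 + d2 ψ z ^ 2 :=
      (hψ.d1.continuous.pow 2).add (hψ.d2.continuous.pow 2)
    have h1 : ∫ z in closedBall (0 : ℝ × ℝ) (1 + ‖ζ‖), (|d1 ψ z| + |d2 ψ z|) ≤
        ∫ z in closedBall (0 : ℝ × ℝ) (1 + ‖ζ‖), (L0 + L0⁻¹ * (d1 ψ z ^ 2 + d2 ψ z ^ 2)) := by
      refine setIntegral_mono_on (cint' _ cG) (cint' _ (continuous_const.add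
        (continuous_const.mul cS))) measurableSet_closedBall ?_
      intro z _
      have h2 : ∀ a : ℝ, |a| ≤ L0 / 2 + L0⁻¹ * a ^ 2 := by
        intro a
        have h3 : 0 ≤ L0⁻¹ * (|a| - L0 / 2) ^ 2 := by positivity
        have h4 : L0⁻¹ * (|a| - L0 / 2) ^ 2 = L0⁻¹ * a ^ 2 - |a| + L0 / 4 := by
          have : |a| ^ 2 = a ^ 2 := sq_abs a
          have h5 : L0⁻¹ * L0 = 1 := inv_mul_cancel₀ hL0.ne'
          linear_combination L0⁻¹ * this - |a| * h5 + L0 / 4 * h5
        linarith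
      have h3 := h2 (d1 ψ z)
      have h4 := h2 (d2 ψ z)
      nlinarith only [h3, h4]
    refine h1.trans ?_
    have k1 : Continuous (fun _ : ℝ × ℝ => L0) := continuous_const
    have k2 : Continuous (fun z => L0⁻¹ * (d1 ψ z ^ 2 + d2 ψ z ^ 2)) := continuous_const.mul cS
    rw [integral_add (cint' _ k1) (cint' _ k2), integral_const_mul]
    have h2 : ∫ _z in closedBall (0 : ℝ × ℝ) (1 + ‖ζ‖), L0 ≤ A * L0 := by
      rw [← hAconst]
      exact hsub2 (by linarith only [hζ]) continuous_const fun _ => hL0.le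
    have h3 : ∫ z in closedBall (0 : ℝ × ℝ) (1 + ‖ζ‖), (d1 ψ z ^ 2 + d2 ψ z ^ 2) ≤ K2 * L0 ^ 2 :=
      (hsub (by linarith) cS fun p => by positivity).trans s2
    have h4 := mul_le_mul_of_nonneg_left h3 (inv_nonneg.2 hL0.le)
    have h5 : L0⁻¹ * (K2 * L0 ^ 2) = K2 * L0 := by field_simp
    rw [h5] at h4
    linarith only [h2, h4]
  -- final sum
  have ct : Continuous (fun z : ℝ × ℝ => z + ζ) := continuous_id.add continuous_const
  have c1 : Continuous fun z => |H (z + ζ) - f (z + ζ)| := cHf.comp ct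
  have c2 : Continuous fun z => |f (z + ζ) - ψ (z + ζ)| := cfψ.comp ct
  have c3 : Continuous fun z => |ψ (z + ζ) - ψ z| := ((hψc.comp ct).sub hψc).abs
  have hfin : ∫ z in closedBall (0 : ℝ × ℝ) 1, |H (z + ζ) - H z| ≤
      ∫ z in closedBall (0 : ℝ × ℝ) 1, (|H (z + ζ) - f (z + ζ)| + |f (z + ζ) - ψ (z + ζ)| +
        |ψ (z + ζ) - ψ z| + |f z - ψ z| + |H z - f z|) := by
    refine setIntegral_mono_on (cint' _ ((hH.comp ct).sub hH).abs)
      (cint' _ ((((c1.add c2).add c3).add cfψ).add cHf)) measurableSet_closedBall ?_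
    intro z _
    have e1 : H (z + ζ) - H z = (H (z + ζ) - f (z + ζ)) + (f (z + ζ) - ψ (z + ζ)) +
        (ψ (z + ζ) - ψ z) - (f z - ψ z) - (H z - f z) := by ring
    show |H (z + ζ) - H z| ≤ _
    rw [e1]
    refine (abs_sub _ _).trans ?_
    refine add_le_add ?_ le_rfl
    refine (abs_sub _ _).trans ?_
    refine add_le_add ?_ le_rfl
    refine (abs_add_le _ _).trans ?_
    exact add_le_add (abs_add_le _ _) le_rfl
  refine hfin.trans ?_
  have c12 : Continuous fun z => |H (z + ζ) - f (z + ζ)| + |f (z + ζ) - ψ (z + ζ)| := c1.add c2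
  have c123 : Continuous fun z => |H (z + ζ) - f (z + ζ)| + |f (z + ζ) - ψ (z + ζ)| +
    |ψ (z + ζ) - ψ z| := c12.add c3
  have c1234 : Continuous fun z => |H (z + ζ) - f (z + ζ)| + |f (z + ζ) - ψ (z + ζ)| +
    |ψ (z + ζ) - ψ z| + |f z - ψ z| := c123.add cfψ
  rw [integral_add (cint' _ c1234) (cint' _ cHf),
    integral_add (cint' _ c123) (cint' _ cfψ),
    integral_add (cint' _ c12) (cint' _ c3),
    integral_add (cint' _ c1) (cint' _ c2)]
  have h1 : 0 ≤ t * L0 := by positivity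
  have h2 : 0 ≤ ‖ζ‖ * L0 := by positivity
  have h3 : 0 ≤ (1 + A + K2) * (t * L0) := by positivity
  have h4 : 0 ≤ (1 + 2 * C1 + 2 * K1) * (‖ζ‖ * L0) := by positivity
  nlinarith only [b1, b2, b4, b5, b3, h3, h4]

end Pool.Agent.H24.Near
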