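import Pool.Agent.H24.Near.Defs

set_option autoImplicit false

/-!
# Basic properties of the maxima on squares and of the growth index
-/

namespace Pool.Agent.H24.Near

open MeasureTheory Set Metric
open scoped Pointwise

lemma closedBall_eq_image_add (z : ℝ × ℝ) (r : ℝ) :
    closedBall z r = (fun w => z + w) '' closedBall (0 : ℝ × ℝ) r := by
  ext p
  constructor
  · intro hp
    refine ⟨p - z, ?_, by simp⟩
    rw [mem_closedBall_zero_iff]
    rwa [mem_closedBall, dist_eq_norm] at hp
  · rintro ⟨w, hw, rfl⟩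
    rw [mem_closedBall_zero_iff] at hw
    rw [mem_closedBall, dist_eq_norm]
    simpa using hw

lemma continuous_M {u : ℝ × ℝ → ℝ} (hu : Continuous u) {r : ℝ} (hr : 0 ≤ r) :
    Continuous (fun z => M u z r) := by
  have h1 : (fun z => M u z r) =
      fun z => sSup ((fun w => |u (z + w)|) '' closedBall (0 : ℝ × ℝ) r) := by
    funext z
    unfold M
    rw [closedBall_eq_image_add z r, image_image]
  rw [h1]
  refine IsCompact.continuous_sSup (f := fun z w => |u (z + w)|) (isCompact_closedBall 0 r) ?_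
  exact (hu.comp (continuous_fst.add continuous_snd)).abs

lemma Idx_eq_image_add {u : ℝ × ℝ → ℝ} (B r : ℝ) (x : ℝ × ℝ) :
    Idx B u x r = sSup ((fun w => Real.log (M u x (B * r)) - Real.log (M u (x + w) r)) ''
      closedBall (0 : ℝ × ℝ) (B * r / 2)) := by
  unfold Idx
  rw [closedBall_eq_image_add x, image_image]

/-- The index is continuous where the maxima do not vanish. -/
lemma continuousOn_Idx {u : ℝ × ℝ → ℝ} (hu : Continuous u) {B r ρ : ℝ} (hB : 2 ≤ B) (hr : 0 < r)
    (c : ℝ × ℝ) (hpos : ∀ y ∈ closedBall c (ρ + B * r), 0 < M u y r) :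
    ContinuousOn (fun x => Idx B u x r) (closedBall c ρ) := by
  have hBr : 0 < B * r := by positivity
  have hrB : r ≤ B * r := by nlinarith
  -- a positive lower bound
  obtain ⟨ε, hε, hmin⟩ : ∃ ε : ℝ, 0 < ε ∧ ∀ y ∈ closedBall c (ρ + B * r), ε ≤ M u y r := by
    by_cases hne : (closedBall c (ρ + B * r)).Nonempty
    · obtain ⟨y0, hy0, h0⟩ := (isCompact_closedBall c (ρ + B * r)).exists_isMinOn hne
        (continuous_M hu hr.le).continuousOn
      exact ⟨M u y0 r, hpos y0 hy0, fun y hy => h0 hy⟩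
    · refine ⟨1, one_pos, fun y hy => absurd ⟨y, hy⟩ hne⟩
  have hM1 : Continuous (fun x => M u x (B * r)) := continuous_M hu hBr.le
  have hM2 : Continuous (fun x => M u x r) := continuous_M hu hr.le
  have hne : ∀ a : ℝ, max a ε ≠ 0 := fun a => (lt_of_lt_of_le hε (le_max_right _ _)).ne'
  have hF : Continuous (fun x => sSup ((fun w => Real.log (max (M u x (B * r)) ε) -
      Real.log (max (M u (x + w) r) ε)) '' closedBall (0 : ℝ × ℝ) (B * r / 2))) := by
    refine IsCompact.continuous_sSup (f := fun x w => Real.log (max (M u x (B * r)) ε) -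
      Real.log (max (M u (x + w) r) ε)) (isCompact_closedBall 0 _) ?_
    have g1 : Continuous (fun p : (ℝ × ℝ) × (ℝ × ℝ) => Real.log (max (M u p.1 (B * r)) ε)) :=
      ((hM1.comp continuous_fst).max continuous_const).log fun p => hne _
    have g2 : Continuous (fun p : (ℝ × ℝ) × (ℝ × ℝ) => Real.log (max (M u (p.1 + p.2) r) ε)) :=
      ((hM2.comp (continuous_fst.add continuous_snd)).max continuous_const).log fun p => hne _
    exact g1.sub g2
  refine hF.continuousOn.congr ?_
  intro x hx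
  show Idx B u x r = sSup ((fun w => Real.log (max (M u x (B * r)) ε) -
      Real.log (max (M u (x + w) r) ε)) '' closedBall (0 : ℝ × ℝ) (B * r / 2))
  rw [Idx_eq_image_add]
  rw [mem_closedBall] at hx
  have hx' : x ∈ closedBall c (ρ + B * r) := by
    rw [mem_closedBall]; linarith
  have e1 : max (M u x (B * r)) ε = M u x (B * r) :=
    max_eq_left ((hmin x hx').trans (M_mono hu hr.le (closedBall_subset_closedBall hrB)))
  rw [e1]
  congr 1
  refine image_congr fun w hw => ?_
  rw [mem_closedBall_zero_iff] at hw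
  have hxw : x + w ∈ closedBall c (ρ + B * r) := by
    rw [mem_closedBall]
    calc dist (x + w) c ≤ dist (x + w) x + dist x c := dist_triangle _ _ _
      _ ≤ B * r / 2 + ρ := add_le_add (by rw [dist_eq_norm]; simpa using hw) hx
      _ ≤ ρ + B * r := by linarith
  rw [max_eq_left (hmin _ hxw)]

lemma le_Idx {u : ℝ × ℝ → ℝ} (hu : Continuous u) {B r : ℝ} (hB : 2 ≤ B) (hr : 0 < r)
    {x y : ℝ × ℝ} (hpos : ∀ y ∈ closedBall x (B * r), 0 < M u y r)
    (hy : y ∈ closedBall x (B * r / 2)) :
    Real.log (M u x (B * r)) - Real.log (M u y r) ≤ Idx B u x r := by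
  have hBr : 0 < B * r := by positivity
  refine le_csSup ?_ ⟨y, hy, rfl⟩
  refine ((isCompact_closedBall x (B * r / 2)).image_of_continuousOn ?_).bddAbove
  refine continuousOn_const.sub (ContinuousOn.log (continuous_M hu hr.le).continuousOn ?_)
  intro z hz
  exact (hpos z (closedBall_subset_closedBall (by linarith) hz)).ne'

lemma Idx_le {u : ℝ × ℝ → ℝ} {B r : ℝ} (hB : 2 ≤ B) (hr : 0 < r) {x : ℝ × ℝ} {a : ℝ}
    (h : ∀ y ∈ closedBall x (B * r / 2),
      Real.log (M u x (B * r)) - Real.log (M u y r) ≤ a) : Idx B u x r ≤ a := by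
  have hBr : 0 < B * r := by positivity
  refine csSup_le ((nonempty_closedBall.mpr (by linarith)).image _) ?_
  rintro _ ⟨y, hy, rfl⟩
  exact h y hy

lemma Idx_nonneg {u : ℝ × ℝ → ℝ} (hu : Continuous u) {B r : ℝ} (hB : 2 ≤ B) (hr : 0 < r)
    {x : ℝ × ℝ} (hpos : ∀ y ∈ closedBall x (B * r), 0 < M u y r) : 0 ≤ Idx B u x r := by
  have hBr : 0 < B * r := by positivity
  have hrB : r ≤ B * r := by nlinarith
  refine le_trans ?_ (le_Idx hu hB hr hpos (mem_closedBall_self (by linarith)))
  rw [sub_nonneg]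
  exact Real.log_le_log (hpos x (mem_closedBall_self hBr.le))
    (M_mono hu hr.le (closedBall_subset_closedBall hrB))

lemma image_scale_closedBall (c : ℝ × ℝ) {r : ℝ} (hr : 0 < r) (z : ℝ × ℝ) (s : ℝ) :
    closedBall (c + r • z) (r * s) = (fun x => c + r • x) '' closedBall z s := by
  ext p
  constructor
  · intro hp
    refine ⟨r⁻¹ • (p - c), ?_, ?_⟩
    · rw [mem_closedBall, dist_eq_norm] at hp ⊢
      have h1 : r⁻¹ • (p - c) - z = r⁻¹ • (p - (c + r • z)) := by
        rw [smul_sub, smul_sub, smul_add, smul_smul, inv_mul_cancel₀ hr.ne', one_smul]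
        abel
      rw [h1, norm_smul, norm_inv, Real.norm_of_nonneg hr.le, inv_mul_le_iff₀ hr]
      exact hp
    · simp only [smul_smul, mul_inv_cancel₀ hr.ne', one_smul]
      abel
  · rintro ⟨x, hx, rfl⟩
    rw [mem_closedBall, dist_eq_norm] at hx ⊢
    have h1 : c + r • x - (c + r • z) = r • (x - z) := by
      rw [smul_sub]; abel
    show ‖c + r • x - (c + r • z)‖ ≤ r * s
    rw [h1, norm_smul, Real.norm_of_nonneg hr.le]
    exact mul_le_mul_of_nonneg_left hx hr.le

/-- Rescaling. -/
lemma M_scale {u : ℝ × ℝ → ℝ} (c : ℝ × ℝ) {r : ℝ} (hr : 0 < r) (z : ℝ × ℝ) (s : ℝ) :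
    M (fun x => u (c + r • x)) z s = M u (c + r • z) (r * s) := by
  unfold M
  rw [image_scale_closedBall c hr, image_image]

lemma Idx_scale {u : ℝ × ℝ → ℝ} (B : ℝ) (c : ℝ × ℝ) {r : ℝ} (hr : 0 < r) (x : ℝ × ℝ) (s : ℝ) :
    Idx B (fun x => u (c + r • x)) x s = Idx B u (c + r • x) (r * s) := by
  unfold Idx
  rw [show B * (r * s) / 2 = r * (B * s / 2) by ring, image_scale_closedBall c hr, image_image]
  simp only [M_scale c hr]
  rw [show B * (r * s) = r * (B * s) by ring]

lemma M_const_mul {u : ℝ × ℝ → ℝ} {a : ℝ} (ha : 0 ≤ a) (z : ℝ × ℝ) (s : ℝ) :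
    M (fun x => a * u x) z s = a * M u z s := by
  unfold M
  have h1 : (fun p => |a * u p|) '' closedBall z s = a • ((fun p => |u p|) '' closedBall z s) := by
    rw [← image_smul, image_image]
    refine image_congr fun p _ => ?_
    rw [abs_mul, abs_of_nonneg ha, smul_eq_mul]
  rw [h1, Real.sSup_smul_of_nonneg ha, smul_eq_mul]

lemma Idx_const_mul {u : ℝ × ℝ → ℝ} {B a r : ℝ} (ha : 0 < a) (hB : 2 ≤ B) (hr : 0 < r)
    (hu : Continuous u) {x : ℝ × ℝ} (hpos : ∀ y ∈ closedBall x (B * r), 0 < M u y r) :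
    Idx B (fun x => a * u x) x r = Idx B u x r := by
  have hBr : 0 < B * r := by positivity
  have hrB : r ≤ B * r := by nlinarith
  have hx : 0 < M u x (B * r) := lt_of_lt_of_le (hpos x (mem_closedBall_self hBr.le))
    (M_mono hu hr.le (closedBall_subset_closedBall hrB))
  unfold Idx
  congr 1
  refine image_congr fun y hy => ?_
  have hy' : 0 < M u y r := hpos y (closedBall_subset_closedBall (by linarith) hy)
  rw [M_const_mul ha.le, M_const_mul ha.le, Real.log_mul ha.ne' hx.ne', Real.log_mul ha.ne' hy'.ne']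
  ring

end Pool.Agent.H24.Near
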