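import Pool.Agent.H24.Near.Defs

set_option autoImplicit false

/-!
# Smooth functions above the infimum on small squares
-/

namespace Pool.Agent.H24.Near

open MeasureTheory Set Metric

namespace Moll

/-- The fixed kernel. -/
noncomputable def bump : ContDiffBump (0 : ℝ × ℝ) := ⟨1 / 2, 1, by norm_num, by norm_num⟩

noncomputable def k (z : ℝ × ℝ) : ℝ := bump.normed (volume : Measure (ℝ × ℝ)) z

lemma smooth_k : Smooth k := ContDiffBump.contDiff_normed bump

lemma k_nonneg (z : ℝ × ℝ) : 0 ≤ k z := bump.nonneg_normed z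

lemma integral_k : ∫ z, k z = 1 := bump.integral_normed

lemma k_eq_zero {z : ℝ × ℝ} (hz : 1 ≤ ‖z‖) : k z = 0 := by
  by_contra h
  have h1 : z ∈ Function.support (bump.normed (volume : Measure (ℝ × ℝ))) := h
  rw [bump.support_normed_eq, mem_ball_zero_iff] at h1
  exact absurd h1 (not_lt.mpr hz)

lemma compact_k : HasCompactSupport k := bump.hasCompactSupport_normed

/-- The kernel at the scale `d`. -/
noncomputable def kd (d : ℝ) (z : ℝ × ℝ) : ℝ := (d ^ 2)⁻¹ * k (0 + d⁻¹ • z)

lemma smooth_kd (d : ℝ) : Smooth (kd d) := contDiff_const.mul (smooth_k.scale 0 d⁻¹)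

lemma kd_nonneg {d : ℝ} (z : ℝ × ℝ) : 0 ≤ kd d z :=
  mul_nonneg (inv_nonneg.2 (sq_nonneg d)) (k_nonneg _)

lemma kd_eq_zero {d : ℝ} (hd : 0 < d) {z : ℝ × ℝ} (hz : d ≤ ‖z‖) : kd d z = 0 := by
  have h1 : 1 ≤ ‖(0 : ℝ × ℝ) + d⁻¹ • z‖ := by
    rw [zero_add, norm_smul, norm_inv, Real.norm_of_nonneg hd.le, inv_mul_eq_div,
      le_div_iff₀ hd, one_mul]
    exact hz
  unfold kd
  rw [k_eq_zero h1, mul_zero]

lemma scale_integral {d : ℝ} (_ : 0 < d) (g : ℝ × ℝ → ℝ) :
    ∫ z, g (0 + d⁻¹ • z) = d ^ 2 * ∫ z, g z := by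
  have h1 := Measure.integral_comp_smul (volume : Measure (ℝ × ℝ)) g d⁻¹
  have h2 : Module.finrank ℝ (ℝ × ℝ) = 2 := by simp
  rw [h2] at h1
  simp only [zero_add]
  rw [h1, inv_pow, inv_inv, abs_of_nonneg (sq_nonneg d), smul_eq_mul]

lemma integral_kd {d : ℝ} (hd : 0 < d) : ∫ z, kd d z = 1 := by
  unfold kd
  rw [integral_const_mul, scale_integral hd, integral_k, mul_one,
    inv_mul_cancel₀ (by positivity)]

lemma der_kd (d : ℝ) (w : List Bool) (z : ℝ × ℝ) :
    der w (kd d) z = (d ^ 2)⁻¹ * (d⁻¹) ^ w.length * der w k (0 + d⁻¹ • z) := by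
  induction w generalizing z with
  | nil => simp [der, kd]
  | cons b w ih =>
    have h1 : der w (kd d) = fun z => (d ^ 2)⁻¹ * (d⁻¹) ^ w.length * der w k (0 + d⁻¹ • z) :=
      funext ih
    have h2 : Smooth (der w k) := smooth_k.der w
    cases b with
    | false =>
      change d1 (der w (kd d)) z = (d ^ 2)⁻¹ * (d⁻¹) ^ (w.length + 1) *
        d1 (der w k) (0 + d⁻¹ • z)
      rw [h1, d1_const_mul _ ((h2.scale 0 d⁻¹).differentiable z), d1_scale h2.differentiable]
      ring
    | true =>
      change d2 (der w (kd d)) z = (d ^ 2)⁻¹ * (d⁻¹) ^ (w.length + 1) *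
        d2 (der w k) (0 + d⁻¹ • z)
      rw [h1, d2_const_mul _ ((h2.scale 0 d⁻¹).differentiable z), d2_scale h2.differentiable]
      ring

lemma compact_kd {d : ℝ} (hd : 0 < d) : HasCompactSupport (kd d) := by
  apply HasCompactSupport.of_support_subset_isCompact (isCompact_closedBall (0 : ℝ × ℝ) d)
  intro z hz
  rw [mem_closedBall_zero_iff]
  by_contra h
  exact hz (kd_eq_zero hd (not_le.mp h).le)

lemma compact_d1 {f : ℝ × ℝ → ℝ} (hf : HasCompactSupport f) : HasCompactSupport (d1 f) :=
  (hf.fderiv (𝕜 := ℝ)).comp_left (g := fun L : ℝ × ℝ →L[ℝ] ℝ => L (1, 0)) rfl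

lemma compact_d2 {f : ℝ × ℝ → ℝ} (hf : HasCompactSupport f) : HasCompactSupport (d2 f) :=
  (hf.fderiv (𝕜 := ℝ)).comp_left (g := fun L : ℝ × ℝ →L[ℝ] ℝ => L (0, 1)) rfl

lemma compact_der {f : ℝ × ℝ → ℝ} (hf : HasCompactSupport f) :
    ∀ w : List Bool, HasCompactSupport (der w f)
  | [] => hf
  | false :: w => compact_d1 (compact_der hf w)
  | true :: w => compact_d2 (compact_der hf w)

/-- The convolution. -/
noncomputable def cv (G κ : ℝ × ℝ → ℝ) (p : ℝ × ℝ) : ℝ := ∫ t, G t * κ (p - t)

lemma cv_eq (G κ : ℝ × ℝ → ℝ) :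
    cv G κ = convolution G κ (ContinuousLinearMap.mul ℝ ℝ) volume := rfl

lemma smooth_cv {G κ : ℝ × ℝ → ℝ} (hG : Continuous G) (hκ : Smooth κ)
    (hc : HasCompactSupport κ) : Smooth (cv G κ) := by
  rw [cv_eq]
  exact hc.contDiff_convolution_right _ hG.locallyIntegrable hκ

lemma fderiv_cv {G κ : ℝ × ℝ → ℝ} (hG : Continuous G) (hκ : Smooth κ)
    (hc : HasCompactSupport κ) (p v : ℝ × ℝ) :
    fderiv ℝ (cv G κ) p v = ∫ t, G t * fderiv ℝ κ (p - t) v := by
  have hκ1 : ContDiff ℝ 1 κ := ContDiff.of_le hκ (by exact_mod_cast le_top)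
  have h1 := hc.hasFDerivAt_convolution_right (ContinuousLinearMap.mul ℝ ℝ)
    hG.locallyIntegrable hκ1 p (μ := volume)
  rw [cv_eq, h1.fderiv, convolution_precompR_apply _ hG.locallyIntegrable (hc.fderiv ℝ)
    (hκ1.continuous_fderiv one_ne_zero)]
  rfl

lemma der_cv {G κ : ℝ × ℝ → ℝ} (hG : Continuous G) (hκ : Smooth κ)
    (hc : HasCompactSupport κ) (w : List Bool) : der w (cv G κ) = cv G (der w κ) := by
  induction w with
  | nil => rfl
  | cons b w ih =>
    cases b with
    | false =>
      funext p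
      change d1 (der w (cv G κ)) p = cv G (d1 (der w κ)) p
      rw [ih]
      exact fderiv_cv hG (hκ.der w) (compact_der hc w) p (1, 0)
    | true =>
      funext p
      change d2 (der w (cv G κ)) p = cv G (d2 (der w κ)) p
      rw [ih]
      exact fderiv_cv hG (hκ.der w) (compact_der hc w) p (0, 1)

lemma cv_swap (G κ : ℝ × ℝ → ℝ) (p : ℝ × ℝ) : cv G κ p = ∫ t, κ t * G (p - t) := by
  unfold cv
  rw [← integral_sub_left_eq_self (fun t => G t * κ (p - t)) volume p]
  refine integral_congr_ae (Filter.Eventually.of_forall fun t => ?_)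
  simp only [sub_sub_cancel]
  ring

lemma integrable_kd_mul {G : ℝ × ℝ → ℝ} (hG : Continuous G) {d : ℝ} (hd : 0 < d)
    (p : ℝ × ℝ) : Integrable fun t => kd d t * G (p - t) := by
  apply Continuous.integrable_of_hasCompactSupport
  · exact (smooth_kd d).continuous.mul (hG.comp (continuous_const.sub continuous_id))
  · exact (compact_kd hd).mul_right

lemma integrable_kd {d : ℝ} (hd : 0 < d) : Integrable (kd d) :=
  (smooth_kd d).continuous.integrable_of_hasCompactSupport (compact_kd hd)

lemma integral_kd_const {d : ℝ} (hd : 0 < d) (a : ℝ) : ∫ t, kd d t * a = a := by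
  rw [integral_mul_const, integral_kd hd, one_mul]

end Moll

open Moll

theorem mollify : ∃ Cm : ℝ, 1 ≤ Cm ∧ ∀ (G : ℝ × ℝ → ℝ) (L0 d : ℝ), Continuous G → 0 ≤ L0 →
    0 < d → d ≤ 1 → (∀ p, -L0 ≤ G p ∧ G p ≤ 0) →
    ∃ f : ℝ × ℝ → ℝ, Smooth f ∧ (∀ p, -L0 ≤ f p ∧ f p ≤ 0) ∧
      (∀ p a, (∀ p' ∈ closedBall p d, a ≤ G p') → a ≤ f p) ∧
      (∀ w : List Bool, w.length ≤ 3 → ∀ p, |der w f p| ≤ Cm * L0 / d ^ w.length) ∧
      ∀ R : ℝ, d ≤ R → ∫ p in closedBall (0 : ℝ × ℝ) R, f p ≤
        ∫ p in closedBall (0 : ℝ × ℝ) (R - d), G p := by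
  classical
  have hfin : {w : List Bool | w.length ≤ 3}.Finite := List.finite_length_le Bool 3
  refine ⟨1 + ∑ w ∈ hfin.toFinset, ∫ z, |der w k z|, ?_, ?_⟩
  · have : 0 ≤ ∑ w ∈ hfin.toFinset, ∫ z, |der w k z| :=
      Finset.sum_nonneg fun w _ => integral_nonneg fun z => abs_nonneg _
    linarith
  intro G L0 d hG hL0 hd hd1 hGb
  have hup : ∀ p a, (∀ p' ∈ closedBall p d, a ≤ G p') → a ≤ cv G (kd d) p := by
    intro p a ha
    rw [cv_swap]
    calc a = ∫ t, kd d t * a := (integral_kd_const hd a).symm
      _ ≤ ∫ t, kd d t * G (p - t) := by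
        apply integral_mono
        · exact (integrable_kd hd).mul_const a
        · exact integrable_kd_mul hG hd p
        · intro t
          by_cases ht : d ≤ ‖t‖
          · simp only [kd_eq_zero hd ht, zero_mul]
            exact le_rfl
          · apply mul_le_mul_of_nonneg_left _ (kd_nonneg t)
            apply ha
            rw [mem_closedBall, dist_eq_norm, sub_sub_cancel_left, norm_neg]
            exact (not_le.mp ht).le
  refine ⟨cv G (kd d), smooth_cv hG (smooth_kd d) (compact_kd hd), fun p => ⟨?_, ?_⟩, hup, ?_, ?_⟩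
  · exact hup p (-L0) fun p' _ => (hGb p').1
  · rw [cv_swap]
    apply integral_nonpos
    intro t
    exact mul_nonpos_of_nonneg_of_nonpos (kd_nonneg t) (hGb _).2
  · intro w hw p
    rw [der_cv hG (smooth_kd d) (compact_kd hd) w]
    have hint : Integrable (der w (kd d)) :=
      ((smooth_kd d).der w).continuous.integrable_of_hasCompactSupport
        (compact_der (compact_kd hd) w)
    have h1 : |cv G (der w (kd d)) p| ≤ ∫ t, L0 * |der w (kd d) (p - t)| := by
      unfold cv
      refine le_trans (abs_integral_le_integral_abs) ?_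
      apply integral_mono_of_nonneg
      · exact Filter.Eventually.of_forall fun t => abs_nonneg _
      · exact (hint.comp_sub_left p).abs.const_mul L0
      · refine Filter.Eventually.of_forall fun t => ?_
        change |G t * der w (kd d) (p - t)| ≤ L0 * |der w (kd d) (p - t)|
        rw [abs_mul]
        apply mul_le_mul_of_nonneg_right _ (abs_nonneg _)
        rw [abs_le]
        exact ⟨(hGb t).1, le_trans (hGb t).2 hL0⟩
    refine le_trans h1 ?_
    rw [integral_const_mul, integral_sub_left_eq_self (fun t => |der w (kd d) t|) volume p]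
    have h2 : ∫ t, |der w (kd d) t| = (d⁻¹) ^ w.length * ∫ z, |der w k z| := by
      have h3 : ∀ t, |der w (kd d) t| =
          ((d ^ 2)⁻¹ * (d⁻¹) ^ w.length) * |der w k (0 + d⁻¹ • t)| := by
        intro t
        rw [der_kd, abs_mul, abs_of_nonneg (by positivity)]
      rw [funext h3, integral_const_mul, scale_integral hd (fun z => |der w k z|)]
      field_simp
    rw [h2]
    have h4 : ∫ z, |der w k z| ≤ 1 + ∑ w ∈ hfin.toFinset, ∫ z, |der w k z| := by
      have h5 : ∫ z, |der w k z| ≤ ∑ w ∈ hfin.toFinset, ∫ z, |der w k z| :=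
        Finset.single_le_sum (f := fun w => ∫ z, |der w k z|)
          (fun w _ => integral_nonneg fun z => abs_nonneg _) (hfin.mem_toFinset.2 hw)
      linarith
    calc L0 * ((d⁻¹) ^ w.length * ∫ z, |der w k z|)
        = (∫ z, |der w k z|) * (L0 * (d⁻¹) ^ w.length) := by ring
      _ ≤ (1 + ∑ w ∈ hfin.toFinset, ∫ z, |der w k z|) * (L0 * (d⁻¹) ^ w.length) :=
          mul_le_mul_of_nonneg_right h4 (by positivity)
      _ = (1 + ∑ w ∈ hfin.toFinset, ∫ z, |der w k z|) * L0 / d ^ w.length := by
          rw [inv_pow]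
          ring
  · intro R hR
    have hzero : ∀ p : ℝ × ℝ, ∀ t, t ∉ closedBall (0 : ℝ × ℝ) d → kd d t * G (p - t) = 0 := by
      intro p t ht
      rw [mem_closedBall_zero_iff, not_le] at ht
      rw [kd_eq_zero hd ht.le, zero_mul]
    have h1 : ∀ p, cv G (kd d) p = ∫ t in closedBall (0 : ℝ × ℝ) d, kd d t * G (p - t) := by
      intro p
      rw [cv_swap, setIntegral_eq_integral_of_forall_compl_eq_zero (hzero p)]
    simp_rw [h1]
    rw [integral_integral_swap]
    · have h2 : ∀ t ∈ closedBall (0 : ℝ × ℝ) d,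
          ∫ p in closedBall (0 : ℝ × ℝ) R, kd d t * G (p - t) ≤
            kd d t * ∫ p in closedBall (0 : ℝ × ℝ) (R - d), G p := by
        intro t ht
        rw [integral_const_mul]
        apply mul_le_mul_of_nonneg_left _ (kd_nonneg t)
        have h3 : ∫ p in closedBall (0 : ℝ × ℝ) R, G (p - t) =
            ∫ p in closedBall (-t) R, G p := by
          have h4 := (measurePreserving_sub_right (volume : Measure (ℝ × ℝ)) t
            ).setIntegral_preimage_emb (measurableEmbedding_subRight t) G (closedBall (-t) R)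
          rw [← h4]
          congr 2
          ext p
          simp only [mem_closedBall, mem_preimage, dist_eq_norm, sub_neg_eq_add, sub_add_cancel,
            sub_zero]
        rw [h3]
        have hsub : closedBall (0 : ℝ × ℝ) (R - d) ⊆ closedBall (-t) R := by
          intro p hp
          rw [mem_closedBall_zero_iff] at hp ht
          rw [mem_closedBall, dist_eq_norm, sub_neg_eq_add]
          calc ‖p + t‖ ≤ ‖p‖ + ‖t‖ := norm_add_le _ _
            _ ≤ (R - d) + d := add_le_add hp ht
            _ = R := by ring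
        have h5 : ∫ p in closedBall (-t) R, -G p ≥
            ∫ p in closedBall (0 : ℝ × ℝ) (R - d), -G p := by
          apply setIntegral_mono_set
          · exact (hG.neg.continuousOn).integrableOn_compact (isCompact_closedBall _ _)
          · exact Filter.Eventually.of_forall fun p => neg_nonneg.2 (hGb p).2
          · exact Filter.Eventually.of_forall hsub
        rw [integral_neg, integral_neg] at h5
        linarith
      calc ∫ t in closedBall (0 : ℝ × ℝ) d, ∫ p in closedBall (0 : ℝ × ℝ) R, kd d t * G (p - t)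
          ≤ ∫ t in closedBall (0 : ℝ × ℝ) d,
              kd d t * ∫ p in closedBall (0 : ℝ × ℝ) (R - d), G p := by
            apply setIntegral_mono_on _ _ measurableSet_closedBall h2
            · refine ContinuousOn.integrableOn_compact (isCompact_closedBall _ _) ?_
              have hc : Continuous fun t : ℝ × ℝ =>
                  ∫ p in closedBall (0 : ℝ × ℝ) R, kd d t * G (p - t) := by
                apply continuous_parametric_integral_of_continuous
                · exact ((smooth_kd d).continuous.comp continuous_fst).mul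
                    (hG.comp (continuous_snd.sub continuous_fst))
                · exact isCompact_closedBall _ _
              exact hc.continuousOn
            · exact ((integrable_kd hd).mul_const _).integrableOn
        _ = ∫ p in closedBall (0 : ℝ × ℝ) (R - d), G p := by
            rw [integral_mul_const, setIntegral_eq_integral_of_forall_compl_eq_zero,
              integral_kd hd, one_mul]
            intro t ht
            rw [mem_closedBall_zero_iff, not_le] at ht
            exact kd_eq_zero hd ht.le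
    · rw [Measure.prod_restrict]
      refine ContinuousOn.integrableOn_compact
        ((isCompact_closedBall _ _).prod (isCompact_closedBall _ _)) ?_
      apply Continuous.continuousOn
      exact ((smooth_kd d).continuous.comp continuous_snd).mul
        (hG.comp (continuous_fst.sub continuous_snd))

end Pool.Agent.H24.Near
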