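import Pool.Agent.H24.Near.Step

set_option autoImplicit false

/-!
# The average of the index at the wavelength scale
-/

namespace Pool.Agent.H24.Near

open MeasureTheory Set Metric

/-- The conclusion of `step` for given constants. -/
def StepProp (B CB A K : ℝ) : Prop := ∀ (m Λ : ℝ) (q u : ℝ × ℝ → ℝ), K ≤ m → 0 ≤ Λ →
    K ^ 2 * Λ ≤ m ^ 2 →
      Sol q u Λ (closedBall 0 B) → (∀ p ∈ closedBall (0 : ℝ × ℝ) B, |u p| ≤ 1) →
      (∀ y ∈ closedBall (0 : ℝ × ℝ) (B / 2), Real.exp (-m) ≤ M u y 1) →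
      (∀ y ∈ closedBall (0 : ℝ × ℝ) 1, 0 < M u y (1 / A)) ∧
      ∫ x in closedBall (0 : ℝ × ℝ) (1 / 2), Idx B u x (1 / A) ≤ CB * (Real.log A / A) * m

lemma Sol.const_mul {q u : ℝ × ℝ → ℝ} {Λ : ℝ} {S : Set (ℝ × ℝ)} (h : Sol q u Λ S) (a : ℝ) :
    Sol q (fun x => a * u x) Λ S where
  smooth_q := h.smooth_q
  smooth_u := contDiff_const.mul h.smooth_u
  eq := by
    intro p hp
    have e1 : d1 (fun x => a * u x) = fun x => a * d1 u x := by
      funext x; exact d1_const_mul a (h.smooth_u.differentiable x)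
    have e2 : d2 (fun x => a * u x) = fun x => a * d2 u x := by
      funext x; exact d2_const_mul a (h.smooth_u.differentiable x)
    have : lap (fun x => a * u x) p = a * lap u p := by
      unfold lap
      rw [e1, e2, d1_const_mul a (h.smooth_u.d1.differentiable p),
        d2_const_mul a (h.smooth_u.d2.differentiable p)]
      ring
    rw [this]
    linear_combination a * h.eq p hp
  bq := h.bq
  bq1 := h.bq1
  bq2 := h.bq2

lemma setIntegral_closedBall_scale (g : ℝ × ℝ → ℝ) (c : ℝ × ℝ) {r ρ : ℝ} (hr : 0 < r) :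
    ∫ x in closedBall c (r * ρ), g x =
      r ^ 2 * ∫ X in closedBall (0 : ℝ × ℝ) ρ, g (c + r • X) := by
  rw [← integral_indicator measurableSet_closedBall, ← integral_indicator measurableSet_closedBall]
  have h1 : (fun X => (closedBall (0 : ℝ × ℝ) ρ).indicator (fun X => g (c + r • X)) X) =
      fun X => (fun y => (closedBall c (r * ρ)).indicator g (c + y)) (r • X) := by
    funext X
    change _ = (closedBall c (r * ρ)).indicator g (c + r • X)
    by_cases hX : X ∈ closedBall (0 : ℝ × ℝ) ρ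
    · rw [indicator_of_mem hX, indicator_of_mem]
      rw [mem_closedBall, dist_eq_norm] at hX ⊢
      rw [add_sub_cancel_left, norm_smul, Real.norm_of_nonneg hr.le]
      rw [sub_zero] at hX
      exact mul_le_mul_of_nonneg_left hX hr.le
    · rw [indicator_of_notMem hX, indicator_of_notMem]
      rw [mem_closedBall, dist_eq_norm] at hX ⊢
      rw [add_sub_cancel_left, norm_smul, Real.norm_of_nonneg hr.le]
      rw [sub_zero] at hX
      intro h
      exact hX (le_of_mul_le_mul_left h hr)
  rw [h1, Measure.integral_comp_smul volume (fun y => (closedBall c (r * ρ)).indicator g (c + y)) r,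
    integral_add_left_eq_self (fun y => (closedBall c (r * ρ)).indicator g y) c]
  have hfr : Module.finrank ℝ (ℝ × ℝ) = 2 := by simp
  rw [hfr, smul_eq_mul, abs_of_nonneg (by positivity), ← mul_assoc,
    mul_inv_cancel₀ (by positivity), one_mul]

lemma volume_closedBall_real (c : ℝ × ℝ) {ρ : ℝ} (hρ : 0 ≤ ρ) :
    volume.real (closedBall c ρ) = (2 * ρ) ^ 2 := by
  have h : closedBall c ρ = closedBall c.1 ρ ×ˢ closedBall c.2 ρ := by
    rw [closedBall_prod_same]
  rw [h, Measure.real, Measure.volume_eq_prod, Measure.prod_prod, Real.volume_closedBall,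
    Real.volume_closedBall, ← ENNReal.ofReal_mul (by positivity),
    ENNReal.toReal_ofReal (by positivity)]
  ring

/-- The step at the scale `r` around an arbitrary centre. -/
lemma local_step {B CB A K : ℝ} (hB : 32 ≤ B) (hA : 4 * B ≤ A) (hK : 1 ≤ K)
    (hst : StepProp B CB A K)
    {W N r : ℝ} (hW : 0 ≤ W) (hN : 1 ≤ N) (hr : 0 < r) (hr1 : r ≤ 1)
    {q u : ℝ × ℝ → ℝ} {x₀ : ℝ × ℝ} {S : Set (ℝ × ℝ)} (hS : closedBall x₀ (B * r) ⊆ S)
    (hsol : Sol q u (W * N ^ 2) S) (hpos : ∀ y ∈ closedBall x₀ (B * r), 0 < M u y r) :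
    (∀ y ∈ closedBall x₀ r, 0 < M u y (r / A)) ∧
      ∫ x in closedBall x₀ (r / 2), Idx B u x (r / A) ≤
        r ^ 2 * (CB * (Real.log A / A) *
          max (Idx B u x₀ r) (K * (1 + Real.sqrt W * r * N))) := by
  have hu := hsol.smooth_u.continuous
  have hBr : 0 < B * r := by positivity
  have hx₀ : x₀ ∈ closedBall x₀ (B * r) := mem_closedBall_self hBr.le
  have ha : 0 < M u x₀ (B * r) := by
    refine lt_of_lt_of_le (hpos x₀ hx₀) (M_mono hu hr.le (closedBall_subset_closedBall ?_))
    nlinarith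
  set a := M u x₀ (B * r) with hadef
  set m := max (Idx B u x₀ r) (K * (1 + Real.sqrt W * r * N)) with hm
  set v : ℝ × ℝ → ℝ := fun X => a⁻¹ * u (x₀ + r • X) with hv
  have hmem : ∀ {ρ : ℝ} {p : ℝ × ℝ}, p ∈ closedBall (0 : ℝ × ℝ) ρ →
      x₀ + r • p ∈ closedBall x₀ (r * ρ) := by
    intro ρ p hp
    rw [mem_closedBall, dist_eq_norm] at hp ⊢
    rw [add_sub_cancel_left, norm_smul, Real.norm_of_nonneg hr.le]
    rw [sub_zero] at hp
    exact mul_le_mul_of_nonneg_left hp hr.le
  have hsol' : Sol (fun x => r ^ 2 * q (x₀ + r • x)) v (r ^ 2 * (W * N ^ 2)) (closedBall 0 B) := by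
    refine (hsol.scale x₀ hr.le hr1 ?_).const_mul a⁻¹
    intro p hp
    apply hS
    rw [mul_comm]
    exact hmem hp
  have hsq : 0 ≤ Real.sqrt W * r * N := by positivity
  have hKm : K ≤ m := by
    refine le_trans ?_ (le_max_right _ _)
    nlinarith
  have hm2 : K ^ 2 * (r ^ 2 * (W * N ^ 2)) ≤ m ^ 2 := by
    have h1 : K * (Real.sqrt W * r * N) ≤ m := by
      refine le_trans ?_ (le_max_right _ _)
      nlinarith
    have h2 : (K * (Real.sqrt W * r * N)) ^ 2 ≤ m ^ 2 := by
      apply pow_le_pow_left₀ (by positivity) h1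
    have h3 : (K * (Real.sqrt W * r * N)) ^ 2 = K ^ 2 * (r ^ 2 * ((Real.sqrt W) ^ 2 * N ^ 2)) := by
      ring
    rw [h3, Real.sq_sqrt hW] at h2
    exact h2
  have hMv : ∀ y s, M v y s = a⁻¹ * M u (x₀ + r • y) (r * s) := by
    intro y s
    rw [hv, M_const_mul (u := fun X => u (x₀ + r • X)) (by positivity), M_scale x₀ hr]
  have hb : ∀ p ∈ closedBall (0 : ℝ × ℝ) B, |v p| ≤ 1 := by
    intro p hp
    have h1 := hmem hp
    rw [mul_comm] at h1
    have h2 := le_M hu h1
    rw [← hadef] at h2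
    simp only [hv]
    rw [abs_mul, abs_of_nonneg (by positivity : 0 ≤ a⁻¹), inv_mul_le_iff₀ ha, mul_one]
    exact h2
  have hlow : ∀ y ∈ closedBall (0 : ℝ × ℝ) (B / 2), Real.exp (-m) ≤ M v y 1 := by
    intro y hy
    have h1 := hmem hy
    have h1' : x₀ + r • y ∈ closedBall x₀ (B * r / 2) := by
      convert h1 using 2; ring
    have h2 := le_Idx hu (by linarith : 2 ≤ B) hr hpos h1'
    have h3 : 0 < M u (x₀ + r • y) r := hpos _ (closedBall_subset_closedBall (by linarith) h1')
    rw [hMv, mul_one]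
    have h4 : Real.log a - Real.log (M u (x₀ + r • y) r) ≤ m := h2.trans (le_max_left _ _)
    have h5 : -m ≤ Real.log (a⁻¹ * M u (x₀ + r • y) r) := by
      rw [Real.log_mul (by positivity) h3.ne', Real.log_inv]
      linarith
    rwa [Real.le_log_iff_exp_le (by positivity)] at h5
  obtain ⟨hA1, hA2⟩ := hst m (r ^ 2 * (W * N ^ 2)) _ v hKm (by positivity) hm2 hsol' hb hlow
  have hApos : 0 < A := by linarith
  have hpos' : ∀ y ∈ closedBall x₀ r, 0 < M u y (r / A) := by
    intro y hy
    have hy' : r⁻¹ • (y - x₀) ∈ closedBall (0 : ℝ × ℝ) 1 := by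
      rw [mem_closedBall, dist_eq_norm] at hy
      rw [mem_closedBall, dist_eq_norm, sub_zero, norm_smul, norm_inv, Real.norm_of_nonneg hr.le,
        inv_mul_le_iff₀ hr, mul_one]
      exact hy
    have h1 := hA1 _ hy'
    rw [hMv] at h1
    have h2 : x₀ + r • (r⁻¹ • (y - x₀)) = y := by
      rw [smul_smul, mul_inv_cancel₀ hr.ne', one_smul]; abel
    rw [h2, mul_one_div] at h1
    exact (mul_pos_iff_of_pos_left (by positivity)).mp h1
  refine ⟨hpos', ?_⟩
  have e1 : closedBall x₀ (r / 2) = closedBall x₀ (r * (1 / 2)) := by congr 1; ring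
  rw [e1, setIntegral_closedBall_scale _ x₀ hr]
  refine mul_le_mul_of_nonneg_left ?_ (by positivity)
  refine le_trans (le_of_eq ?_) hA2
  apply setIntegral_congr_fun measurableSet_closedBall
  intro X hX
  have hX1 : x₀ + r • X ∈ closedBall x₀ (r * (1 / 2)) := hmem hX
  have hcont : Continuous (fun X => u (x₀ + r • X)) := (hsol.smooth_u.scale x₀ r).continuous
  have h6 : Idx B (fun X => u (x₀ + r • X)) X (1 / A) = Idx B u (x₀ + r • X) (r / A) := by
    rw [Idx_scale B x₀ hr, mul_one_div]
  change Idx B u (x₀ + r • X) (r / A) = Idx B v X (1 / A)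
  rw [← h6, hv]
  symm
  apply Idx_const_mul (by positivity) (by linarith) (by positivity) hcont
  intro y hy
  rw [M_scale x₀ hr, mul_one_div]
  apply hpos'
  have h7 : y ∈ closedBall (0 : ℝ × ℝ) 1 := by
    rw [mem_closedBall] at hX hy ⊢
    have h8 : B * (1 / A) ≤ 1 / 4 := by
      rw [mul_one_div, div_le_div_iff₀ hApos (by norm_num)]
      linarith
    linarith [dist_triangle y X 0]
  have h9 := hmem h7
  rwa [mul_one] at h9

/-- Averaging over small squares. -/
lemma average_le {g : ℝ × ℝ → ℝ} {ρ r ρ' : ℝ} (hr : 0 < r) (hρ' : ρ' + r / 2 ≤ ρ)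
    (hg : ContinuousOn g (closedBall 0 (ρ + r / 2)))
    (hg0 : ∀ x ∈ closedBall (0 : ℝ × ℝ) (ρ + r / 2), 0 ≤ g x)
    {F : ℝ × ℝ → ℝ} (hF : IntegrableOn F (closedBall 0 ρ))
    (h : ∀ x₀ ∈ closedBall (0 : ℝ × ℝ) ρ, ∫ x in closedBall x₀ (r / 2), g x ≤ r ^ 2 * F x₀) :
    ∫ x in closedBall (0 : ℝ × ℝ) ρ', g x ≤ ∫ x in closedBall (0 : ℝ × ℝ) ρ, F x := by
  have hr2 : 0 ≤ r / 2 := by positivity
  have hmem : ∀ {x₀ y : ℝ × ℝ}, x₀ ∈ closedBall (0 : ℝ × ℝ) ρ → y ∈ closedBall (0 : ℝ × ℝ) (r / 2) →
      x₀ + y ∈ closedBall (0 : ℝ × ℝ) (ρ + r / 2) := by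
    intro x₀ y hx₀ hy
    rw [mem_closedBall, dist_eq_norm, sub_zero] at hx₀ hy ⊢
    exact (norm_add_le _ _).trans (add_le_add hx₀ hy)
  -- the inner integrals
  have hin : ∀ x₀ : ℝ × ℝ, ∫ x in closedBall x₀ (r / 2), g x =
      ∫ y in closedBall (0 : ℝ × ℝ) (r / 2), g (x₀ + y) := by
    intro x₀
    have := setIntegral_closedBall_scale g x₀ (r := 1) (ρ := r / 2) one_pos
    simpa using this
  have hcomp : IsCompact (closedBall (0 : ℝ × ℝ) ρ ×ˢ closedBall (0 : ℝ × ℝ) (r / 2)) :=
    (isCompact_closedBall _ _).prod (isCompact_closedBall _ _)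
  have hcont : ContinuousOn (fun z : (ℝ × ℝ) × (ℝ × ℝ) => g (z.1 + z.2))
      (closedBall (0 : ℝ × ℝ) ρ ×ˢ closedBall (0 : ℝ × ℝ) (r / 2)) := by
    refine hg.comp (by fun_prop) ?_
    rintro ⟨x₀, y⟩ ⟨h1, h2⟩
    exact hmem h1 h2
  have hint : Integrable (Function.uncurry fun (x₀ y : ℝ × ℝ) => g (x₀ + y))
      ((volume.restrict (closedBall (0 : ℝ × ℝ) ρ)).prod
        (volume.restrict (closedBall (0 : ℝ × ℝ) (r / 2)))) := by
    rw [Measure.prod_restrict]
    exact hcont.integrableOn_compact hcomp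
  have hswap := integral_integral_swap hint
  -- the upper bound
  have hup : ∫ x₀ in closedBall (0 : ℝ × ℝ) ρ, ∫ y in closedBall (0 : ℝ × ℝ) (r / 2), g (x₀ + y) ≤
      ∫ x₀ in closedBall (0 : ℝ × ℝ) ρ, r ^ 2 * F x₀ := by
    apply setIntegral_mono_on hint.integral_prod_left (hF.const_mul _) measurableSet_closedBall
    intro x₀ hx₀
    change ∫ y in closedBall (0 : ℝ × ℝ) (r / 2), g (x₀ + y) ≤ _
    rw [← hin]
    exact h x₀ hx₀
  have hlow : ∀ y ∈ closedBall (0 : ℝ × ℝ) (r / 2), ∫ x in closedBall (0 : ℝ × ℝ) ρ', g x ≤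
      ∫ x₀ in closedBall (0 : ℝ × ℝ) ρ, g (x₀ + y) := by
    intro y hy
    have h1 : ∫ x₀ in closedBall (0 : ℝ × ℝ) ρ, g (x₀ + y) = ∫ x in closedBall y ρ, g x := by
      have := setIntegral_closedBall_scale g y (r := 1) (ρ := ρ) one_pos
      simp only [one_mul, one_pow, one_smul] at this
      rw [this]
      simp only [add_comm]
    rw [h1]
    have hsub : closedBall y ρ ⊆ closedBall (0 : ℝ × ℝ) (ρ + r / 2) := by
      intro x hx
      rw [mem_closedBall] at hx hy ⊢
      linarith [dist_triangle x y 0]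
    apply setIntegral_mono_set
    · exact (hg.mono hsub).integrableOn_compact (isCompact_closedBall _ _)
    · filter_upwards [ae_restrict_mem measurableSet_closedBall] with x hx
      exact hg0 x (hsub hx)
    · refine Filter.Eventually.of_forall fun x (hx : x ∈ closedBall (0 : ℝ × ℝ) ρ') => ?_
      change x ∈ closedBall y ρ
      rw [mem_closedBall] at hx hy ⊢
      rw [dist_comm] at hy
      linarith [dist_triangle x 0 y]
  have hlow2 : ∫ _y in closedBall (0 : ℝ × ℝ) (r / 2), ∫ x in closedBall (0 : ℝ × ℝ) ρ', g x ≤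
      ∫ y in closedBall (0 : ℝ × ℝ) (r / 2), ∫ x₀ in closedBall (0 : ℝ × ℝ) ρ, g (x₀ + y) := by
    apply setIntegral_mono_on (integrableOn_const (by
      exact (measure_closedBall_lt_top).ne)) hint.integral_prod_right measurableSet_closedBall hlow
  rw [setIntegral_const, volume_closedBall_real _ hr2, smul_eq_mul, ← hswap] at hlow2
  have h3 := hlow2.trans hup
  rw [integral_const_mul, show (2 * (r / 2)) ^ 2 = r ^ 2 by ring] at h3
  exact le_of_mul_le_mul_left h3 (by positivity)

/-- One step of the recursion. -/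
lemma scale_step {B CB A K : ℝ} (hB : 32 ≤ B) (hCB : 1 ≤ CB) (hA : 4 * B ≤ A) (hK : 1 ≤ K)
    (hst : StepProp B CB A K) {W N R r : ℝ} (hW : 0 ≤ W) (hN : 1 ≤ N) (hR : 0 < R)
    (hr : 0 < r) (hr1 : r ≤ 1) (hrN : 1 ≤ r * N) {q u : ℝ × ℝ → ℝ}
    (hsol : Sol q u (W * N ^ 2) (closedBall 0 (R + 2 + 2 * B)))
    (hpos : ∀ y ∈ closedBall (0 : ℝ × ℝ) (R + 2 + B * r), 0 < M u y r) :
    (∀ y ∈ closedBall (0 : ℝ × ℝ) (R + 2 + B * (r / A)), 0 < M u y (r / A)) ∧
      ∫ x in closedBall (0 : ℝ × ℝ) (R + r / A), Idx B u x (r / A) ≤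
        CB * (Real.log A / A) * ((∫ x in closedBall (0 : ℝ × ℝ) (R + r), Idx B u x r) +
          (2 * (R + 1)) ^ 2 * (K * (1 + Real.sqrt W)) * (r * N)) := by
  have hu := hsol.smooth_u.continuous
  have hApos : 0 < A := by linarith
  have hA1 : 1 ≤ A := by linarith
  have hrA : 0 < r / A := by positivity
  have hBrA : B * (r / A) ≤ r / 4 := by
    rw [← mul_div_assoc, div_le_div_iff₀ hApos (by norm_num)]
    nlinarith
  have hrA4 : r / A ≤ r / 4 := div_le_div_of_nonneg_left hr.le (by norm_num) (by linarith)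
  have hloc : ∀ x₀ ∈ closedBall (0 : ℝ × ℝ) (R + 2),
      (∀ y ∈ closedBall x₀ r, 0 < M u y (r / A)) ∧
      ∫ x in closedBall x₀ (r / 2), Idx B u x (r / A) ≤
        r ^ 2 * (CB * (Real.log A / A) *
          max (Idx B u x₀ r) (K * (1 + Real.sqrt W * r * N))) := by
    intro x₀ hx₀
    apply local_step hB hA hK hst hW hN hr hr1 ?_ hsol
    · intro y hy
      apply hpos
      rw [mem_closedBall] at hx₀ hy ⊢
      linarith [dist_triangle y x₀ 0]
    · intro y hy
      rw [mem_closedBall] at hx₀ hy ⊢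
      nlinarith [dist_triangle y x₀ 0]
  have hpos' : ∀ y ∈ closedBall (0 : ℝ × ℝ) (R + 2 + r), 0 < M u y (r / A) := by
    intro y hy
    -- the point of the smaller square closest to `y`
    have hR2 : 0 < R + 2 := by linarith
    have hRr : 0 < R + 2 + r := by linarith
    set x₀ : ℝ × ℝ := ((R + 2) / (R + 2 + r)) • y with hx₀
    rw [mem_closedBall, dist_eq_norm, sub_zero] at hy
    have h1 : x₀ ∈ closedBall (0 : ℝ × ℝ) (R + 2) := by
      rw [mem_closedBall, dist_eq_norm, sub_zero, hx₀, norm_smul,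
        Real.norm_of_nonneg (by positivity), div_mul_eq_mul_div, div_le_iff₀ hRr]
      exact mul_le_mul_of_nonneg_left hy hR2.le
    refine (hloc x₀ h1).1 y ?_
    have h2 : y - x₀ = (r / (R + 2 + r)) • y := by
      have h3 : y - x₀ = (1 - (R + 2) / (R + 2 + r)) • y := by
        rw [hx₀, sub_smul, one_smul]
      rw [h3]
      congr 1
      field_simp
      ring
    rw [mem_closedBall, dist_eq_norm, h2, norm_smul, Real.norm_of_nonneg (by positivity),
      div_mul_eq_mul_div, div_le_iff₀ hRr]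
    exact mul_le_mul_of_nonneg_left hy hr.le
  refine ⟨fun y hy => hpos' y (closedBall_subset_closedBall (by linarith) hy), ?_⟩
  have hcontr : ContinuousOn (fun x => Idx B u x r) (closedBall (0 : ℝ × ℝ) (R + r)) := by
    apply continuousOn_Idx hu (by linarith) hr
    intro y hy
    exact hpos y (closedBall_subset_closedBall (by linarith) hy)
  have hcontA : ContinuousOn (fun x => Idx B u x (r / A))
      (closedBall (0 : ℝ × ℝ) (R + r + r / 2)) := by
    apply continuousOn_Idx hu (by linarith) hrA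
    intro y hy
    exact hpos' y (closedBall_subset_closedBall (by linarith) hy)
  have hIntr : IntegrableOn (fun x => Idx B u x r) (closedBall (0 : ℝ × ℝ) (R + r)) :=
    hcontr.integrableOn_compact (isCompact_closedBall _ _)
  have hIntc : IntegrableOn (fun _ : ℝ × ℝ => K * (1 + Real.sqrt W) * (r * N))
      (closedBall (0 : ℝ × ℝ) (R + r)) :=
    integrableOn_const measure_closedBall_lt_top.ne
  have hnn : ∀ x ∈ closedBall (0 : ℝ × ℝ) (R + r), 0 ≤ Idx B u x r := by
    intro x hx
    apply Idx_nonneg hu (by linarith) hr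
    intro y hy
    apply hpos
    rw [mem_closedBall] at hx hy ⊢
    linarith [dist_triangle y x 0]
  have hlogA : 0 ≤ Real.log A := Real.log_nonneg hA1
  have hcoef : 0 ≤ CB * (Real.log A / A) := by positivity
  have hmain := average_le (g := fun x => Idx B u x (r / A)) (ρ := R + r) (ρ' := R + r / A)
    (F := fun x => CB * (Real.log A / A) * (Idx B u x r + K * (1 + Real.sqrt W) * (r * N)))
    hr (by linarith) hcontA ?_ ((hIntr.add hIntc).const_mul _) ?_
  · refine hmain.trans ?_
    rw [integral_const_mul, integral_add hIntr hIntc, setIntegral_const,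
      volume_closedBall_real _ (by linarith), smul_eq_mul]
    refine mul_le_mul_of_nonneg_left ?_ hcoef
    refine add_le_add le_rfl ?_
    have h5 : 0 ≤ K * (1 + Real.sqrt W) * (r * N) := by positivity
    have h6 : (2 * (R + r)) ^ 2 ≤ (2 * (R + 1)) ^ 2 := by
      apply pow_le_pow_left₀ (by positivity)
      linarith
    calc (2 * (R + r)) ^ 2 * (K * (1 + Real.sqrt W) * (r * N))
        ≤ (2 * (R + 1)) ^ 2 * (K * (1 + Real.sqrt W) * (r * N)) :=
          mul_le_mul_of_nonneg_right h6 h5
      _ = _ := by ring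
  · intro x hx
    apply Idx_nonneg hu (by linarith) hrA
    intro y hy
    apply hpos'
    rw [mem_closedBall] at hx hy ⊢
    linarith [dist_triangle y x 0]
  · intro x₀ hx₀
    refine ((hloc x₀ (closedBall_subset_closedBall (by linarith) hx₀)).2).trans ?_
    refine mul_le_mul_of_nonneg_left ?_ (by positivity)
    refine mul_le_mul_of_nonneg_left ?_ hcoef
    apply max_le
    · have : 0 ≤ K * (1 + Real.sqrt W) * (r * N) := by positivity
      linarith
    · have h7 := hnn x₀ hx₀
      have h8 : K * (1 + Real.sqrt W * r * N) ≤ K * (1 + Real.sqrt W) * (r * N) := by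
        rw [mul_assoc K]
        apply mul_le_mul_of_nonneg_left _ (by linarith)
        nlinarith
      linarith

theorem local_average (B : ℝ) (hB : 32 ≤ B) (δ : ℝ) (hδ : 0 < δ) (R : ℝ) (hR : 0 < R) (W : ℝ)
    (hW : 0 ≤ W) : ∃ A : ℝ, 1 ≤ A ∧ ∀ C1 : ℝ, ∃ C : ℝ, ∀ (N : ℝ) (q u : ℝ × ℝ → ℝ), 1 ≤ N →
      Sol q u (W * N ^ 2) (closedBall 0 (R + 2 + 2 * B)) →
      (∀ p ∈ closedBall (0 : ℝ × ℝ) (R + 2 + 2 * B), |u p| ≤ 1) →
      (∀ y ∈ closedBall (0 : ℝ × ℝ) (R + 2 + B), Real.exp (-(C1 * N)) ≤ M u y (1 / A)) →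
      (∀ y ∈ closedBall (0 : ℝ × ℝ) (R + 1), 0 < M u y (1 / N)) ∧
      ∫ x in closedBall (0 : ℝ × ℝ) R, Idx B u x (1 / N) ≤ C * N ^ δ := by
  obtain ⟨CB, hCB, A0, hA0, hstep⟩ := step B hB
  -- the choice of `A`
  obtain ⟨A, hA1, hA2, hA3⟩ : ∃ A : ℝ, A0 ≤ A ∧ 4 * B ≤ A ∧ 2 * (CB * Real.log A) ≤ A ^ δ := by
    have h1 : ∀ᶠ x : ℝ in Filter.atTop, ‖Real.log x‖ ≤ (2 * CB)⁻¹ * ‖x ^ δ‖ :=
      (isLittleO_log_rpow_atTop hδ).bound (by positivity)
    obtain ⟨A, h2, h3, h4⟩ := ((h1.and ((Filter.eventually_ge_atTop A0).and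
      (Filter.eventually_ge_atTop (4 * B))))).exists
    refine ⟨A, h3, h4, ?_⟩
    have hA0' : 0 < A := by linarith
    have hlog : 0 ≤ Real.log A := Real.log_nonneg (by linarith)
    rw [Real.norm_of_nonneg hlog, Real.norm_of_nonneg (by positivity), ← div_eq_inv_mul,
      le_div_iff₀ (by positivity)] at h2
    linarith
  obtain ⟨K, hK, hst⟩ := hstep A hA1
  have hApos : 0 < A := by linarith
  have hA1' : 1 < A := by linarith
  have hlogA : 1 ≤ Real.log A := by
    rw [Real.le_log_iff_exp_le hApos]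
    linarith [Real.exp_one_lt_d9]
  refine ⟨A, hA1'.le, fun C1 => ?_⟩
  set V : ℝ := (2 * (R + 1)) ^ 2 with hV
  set D : ℝ := V * (K * (1 + Real.sqrt W)) with hD
  set C1' : ℝ := max C1 0 with hC1'
  have hC1'0 : 0 ≤ C1' := le_max_right _ _
  set E : ℝ := A * V * C1' + D with hE
  have hV0 : 0 < V := by positivity
  have hD0 : 0 < D := by positivity
  have hE0 : 0 < E := by positivity
  refine ⟨E, fun N q u hN hsol hu1 hlow => ?_⟩
  have hu := hsol.smooth_u.continuous
  have hN0 : 0 < N := by linarith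
  obtain ⟨J, hJ1, hJ2⟩ := exists_nat_pow_near hN hA1'
  set r : ℕ → ℝ := fun j => A ^ J / N / A ^ j with hrdef
  have hr0 : ∀ j, 0 < r j := fun j => by positivity
  have hr0le : r 0 ≤ 1 := by
    simp only [hrdef, pow_zero, div_one]
    rw [div_le_one hN0]; exact hJ1
  have hrsucc : ∀ j, r (j + 1) = r j / A := by
    intro j
    simp only [hrdef]
    rw [pow_succ, div_mul_eq_div_div]
  have hrle : ∀ j, r j ≤ 1 := by
    intro j
    induction j with
    | zero => exact hr0le
    | succ j ih =>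
      rw [hrsucc, div_le_one hApos]
      linarith
  have hrN : ∀ j, r j * N = A ^ J / A ^ j := by
    intro j
    simp only [hrdef]
    field_simp
  have hrN1 : ∀ j, j ≤ J → 1 ≤ r j * N := by
    intro j hj
    rw [hrN, one_le_div (by positivity)]
    exact pow_le_pow_right₀ hA1'.le hj
  have hrJ : r J = 1 / N := by
    simp only [hrdef]
    field_simp
  have hAr0 : 1 ≤ A * r 0 := by
    simp only [hrdef, pow_zero, div_one]
    rw [mul_div_assoc', le_div_iff₀ hN0, one_mul, ← pow_succ']
    exact hJ2.le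
  have hAr0' : 1 / A ≤ r 0 := by
    rw [div_le_iff₀ hApos]; linarith
  -- the induction
  have hind : ∀ j, j ≤ J → (∀ y ∈ closedBall (0 : ℝ × ℝ) (R + 2 + B * r j), 0 < M u y (r j)) ∧
      (∫ x in closedBall (0 : ℝ × ℝ) (R + r j), Idx B u x (r j)) + D * (r j * N) ≤
        (2 * (CB * Real.log A)) ^ j * E * (r j * N) := by
    intro j
    induction j with
    | zero =>
      intro _
      have hp : ∀ y ∈ closedBall (0 : ℝ × ℝ) (R + 2 + B), 0 < M u y (r 0) ∧
          -(C1 * N) ≤ Real.log (M u y (r 0)) := by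
        intro y hy
        have h1 : Real.exp (-(C1 * N)) ≤ M u y (r 0) :=
          (hlow y hy).trans (M_mono hu (by positivity) (closedBall_subset_closedBall hAr0'))
        have h2 := (Real.exp_pos _).trans_le h1
        exact ⟨h2, by rwa [Real.le_log_iff_exp_le h2]⟩
      have hBr : B * r 0 ≤ B := by nlinarith [hr0 0]
      refine ⟨fun y hy => (hp y (closedBall_subset_closedBall (by linarith) hy)).1, ?_⟩
      have hb : ∀ x ∈ closedBall (0 : ℝ × ℝ) (R + r 0), Idx B u x (r 0) ≤ C1' * N := by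
        intro x hx
        apply Idx_le (by linarith) (hr0 0)
        intro y hy
        have h1 := (hp y (by
          rw [mem_closedBall] at hx hy ⊢
          linarith [dist_triangle y x 0])).2
        have h2 : M u x (B * r 0) ≤ 1 := by
          apply M_le (by have := hr0 0; positivity)
          intro p hp
          apply hu1
          rw [mem_closedBall] at hx hp ⊢
          linarith [dist_triangle p x 0]
        have h3 : Real.log (M u x (B * r 0)) ≤ 0 := Real.log_nonpos M_nonneg h2
        have h4 : C1 * N ≤ C1' * N := mul_le_mul_of_nonneg_right (le_max_left _ _) hN0.le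
        linarith
      have h5 : ∫ x in closedBall (0 : ℝ × ℝ) (R + r 0), Idx B u x (r 0) ≤ V * (C1' * N) := by
        have hcontr : ContinuousOn (fun x => Idx B u x (r 0))
            (closedBall (0 : ℝ × ℝ) (R + r 0)) := by
          apply continuousOn_Idx hu (by linarith) (hr0 0)
          intro y hy
          exact (hp y (closedBall_subset_closedBall (by linarith) hy)).1
        calc ∫ x in closedBall (0 : ℝ × ℝ) (R + r 0), Idx B u x (r 0)
            ≤ ∫ _x in closedBall (0 : ℝ × ℝ) (R + r 0), C1' * N := by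
              apply setIntegral_mono_on (hcontr.integrableOn_compact (isCompact_closedBall _ _))
                (integrableOn_const measure_closedBall_lt_top.ne) measurableSet_closedBall hb
          _ ≤ V * (C1' * N) := by
              rw [setIntegral_const, volume_closedBall_real _ (by linarith [hr0 0]), smul_eq_mul]
              apply mul_le_mul_of_nonneg_right _ (by positivity)
              apply pow_le_pow_left₀ (by linarith [hr0 0])
              linarith
      rw [pow_zero, one_mul]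
      have h6 : V * (C1' * N) ≤ A * V * C1' * (r 0 * N) := by
        have : V * (C1' * N) * 1 ≤ V * (C1' * N) * (A * r 0) :=
          mul_le_mul_of_nonneg_left hAr0 (by positivity)
        nlinarith
      rw [hE]
      linarith
    | succ j ih =>
      intro hj
      obtain ⟨ih1, ih2⟩ := ih (by omega)
      obtain ⟨h1, h2⟩ := scale_step hB hCB hA2 hK hst hW hN hR (hr0 j) (hrle j)
        (hrN1 j (by omega)) hsol ih1
      rw [← hrsucc j] at h1 h2
      refine ⟨h1, ?_⟩
      rw [← hV, ← hD] at h2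
      set a := ∫ x in closedBall (0 : ℝ × ℝ) (R + r j), Idx B u x (r j) with ha
      have ha0 : 0 ≤ a := by
        apply setIntegral_nonneg measurableSet_closedBall
        intro x hx
        apply Idx_nonneg hu (by linarith) (hr0 j)
        intro y hy
        apply ih1
        rw [mem_closedBall] at hx hy ⊢
        linarith [dist_triangle y x 0, hrle j]
      set γ := CB * Real.log A with hγ
      have hγ1 : 1 ≤ γ := by nlinarith
      have e1 : CB * (Real.log A / A) = γ / A := by rw [hγ]; ring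
      rw [e1] at h2
      have e2 : r (j + 1) * N = (r j * N) / A := by rw [hrsucc]; ring
      rw [e2]
      have hDr : 0 ≤ D * (r j * N) := by have := hr0 j; positivity
      have h3 : (∫ x in closedBall (0 : ℝ × ℝ) (R + r (j + 1)), Idx B u x (r (j + 1))) * A ≤
          γ * (a + D * (r j * N)) := by
        calc _ ≤ γ / A * (a + D * (r j * N)) * A := mul_le_mul_of_nonneg_right h2 hApos.le
          _ = _ := by field_simp
      have h4 : D * (r j * N) ≤ γ * (a + D * (r j * N)) := by
        have h4a : 1 * (a + D * (r j * N)) ≤ γ * (a + D * (r j * N)) :=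
          mul_le_mul_of_nonneg_right hγ1 (by linarith)
        linarith
      have h5 : 2 * γ * (a + D * (r j * N)) ≤ 2 * γ * ((2 * γ) ^ j * E * (r j * N)) :=
        mul_le_mul_of_nonneg_left ih2 (by positivity)
      have h6 : ((∫ x in closedBall (0 : ℝ × ℝ) (R + r (j + 1)), Idx B u x (r (j + 1))) +
          D * (r j * N / A)) * A ≤ ((2 * γ) ^ (j + 1) * E * (r j * N / A)) * A := by
        have e3 : D * (r j * N / A) * A = D * (r j * N) := by field_simp
        have e4 : ((2 * γ) ^ (j + 1) * E * (r j * N / A)) * A =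
            2 * γ * ((2 * γ) ^ j * E * (r j * N)) := by
          rw [pow_succ]; field_simp
        rw [add_mul, e3, e4]
        linarith
      exact le_of_mul_le_mul_right h6 hApos
  obtain ⟨h1, h2⟩ := hind J le_rfl
  rw [hrJ] at h1 h2
  have hN1 : 0 < 1 / N := by positivity
  refine ⟨fun y hy => h1 y (closedBall_subset_closedBall (by
    have : 0 ≤ B * (1 / N) := by positivity
    linarith) hy), ?_⟩
  have e1 : 1 / N * N = 1 := by field_simp
  rw [e1, mul_one, mul_one] at h2
  have hcontr : ContinuousOn (fun x => Idx B u x (1 / N))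
      (closedBall (0 : ℝ × ℝ) (R + 1 / N)) := by
    apply continuousOn_Idx hu (by linarith) hN1
    intro y hy
    apply h1 y (closedBall_subset_closedBall _ hy)
    have := hrle J
    rw [hrJ] at this
    linarith
  have h3 : ∫ x in closedBall (0 : ℝ × ℝ) R, Idx B u x (1 / N) ≤
      ∫ x in closedBall (0 : ℝ × ℝ) (R + 1 / N), Idx B u x (1 / N) := by
    apply setIntegral_mono_set
    · exact hcontr.integrableOn_compact (isCompact_closedBall _ _)
    · filter_upwards [ae_restrict_mem measurableSet_closedBall] with x hx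
      apply Idx_nonneg hu (by linarith) hN1
      intro y hy
      apply h1
      have := hrle J
      rw [hrJ] at this
      rw [mem_closedBall] at hx hy ⊢
      linarith [dist_triangle y x 0]
    · refine Filter.Eventually.of_forall fun x (hx : x ∈ closedBall (0 : ℝ × ℝ) R) => ?_
      exact closedBall_subset_closedBall (by linarith) hx
  have h4 : (2 * (CB * Real.log A)) ^ J ≤ N ^ δ := by
    calc (2 * (CB * Real.log A)) ^ J ≤ (A ^ δ) ^ J := by
          apply pow_le_pow_left₀ (by positivity) hA3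
      _ = (A ^ J) ^ δ := by
          rw [← Real.rpow_natCast, ← Real.rpow_mul hApos.le, mul_comm, Real.rpow_mul hApos.le,
            Real.rpow_natCast]
      _ ≤ N ^ δ := Real.rpow_le_rpow (by positivity) hJ1 hδ.le
  calc ∫ x in closedBall (0 : ℝ × ℝ) R, Idx B u x (1 / N)
      ≤ (2 * (CB * Real.log A)) ^ J * E := by linarith
    _ ≤ N ^ δ * E := mul_le_mul_of_nonneg_right h4 hE0.le
    _ = E * N ^ δ := mul_comm _ _

end Pool.Agent.H24.Near
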