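import Pool.Agent.H24.Near.Defs

set_option autoImplicit false

/-!
# The resolvent of the Laplacian of the plane
-/

namespace Pool.Agent.H24.Near

open MeasureTheory Set Metric ProbabilityTheory

/-! ### Bounded derivatives -/

lemma res_bdd {g : ℝ × ℝ → ℝ} (hg : Smooth g) (hc : HasCompactSupport g) :
    ∃ C, 0 ≤ C ∧ ∀ p, |g p| ≤ C := by
  obtain ⟨C, hC⟩ := hc.exists_bound_of_continuous hg.continuous
  exact ⟨max C 0, le_max_right _ _, fun p => (hC p).trans (le_max_left _ _)⟩

lemma res_c1 {g : ℝ × ℝ → ℝ} (hc : HasCompactSupport g) : HasCompactSupport (d1 g) :=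
  hc.fderiv_apply ℝ (1, 0)

lemma res_c2 {g : ℝ × ℝ → ℝ} (hc : HasCompactSupport g) : HasCompactSupport (d2 g) :=
  hc.fderiv_apply ℝ (0, 1)

lemma res_cder {g : ℝ × ℝ → ℝ} (hc : HasCompactSupport g) : ∀ w, HasCompactSupport (der w g)
  | [] => hc
  | false :: w => res_c1 (res_cder hc w)
  | true :: w => res_c2 (res_cder hc w)

lemma res_clap {g : ℝ × ℝ → ℝ} (hc : HasCompactSupport g) : HasCompactSupport (lap g) :=
  (res_c1 (res_c1 hc)).add (res_c2 (res_c2 hc))

/-! ### Averages of translates -/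

/-- The average of the translates with respect to `ν`. -/
noncomputable def resT (ν : Measure (ℝ × ℝ)) (g : ℝ × ℝ → ℝ) (p : ℝ × ℝ) : ℝ :=
  ∫ y, g (p - y) ∂ν

variable (ν : Measure (ℝ × ℝ)) [IsProbabilityMeasure ν]

lemma res_integrable {g : ℝ × ℝ → ℝ} (hg : Smooth g) (hc : HasCompactSupport g) (p : ℝ × ℝ) :
    Integrable (fun y => g (p - y)) ν := by
  obtain ⟨C, _, hC⟩ := res_bdd hg hc
  refine Integrable.of_bound (C := C) ?_ (Filter.Eventually.of_forall fun y => hC _)
  exact (hg.continuous.comp (continuous_const.sub continuous_id)).aestronglyMeasurable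

lemma res_smooth {g : ℝ × ℝ → ℝ} (hg : Smooth g) (hc : HasCompactSupport g) :
    Smooth (resT ν g) := by
  have h1 : LocallyIntegrable (fun _ : ℝ × ℝ => (1 : ℝ)) ν :=
    (integrable_const (1 : ℝ)).locallyIntegrable
  have h2 := hc.contDiff_convolution_right (ContinuousLinearMap.lsmul ℝ ℝ) (n := (⊤ : ℕ∞)) h1 hg
  have h3 : convolution (fun _ : ℝ × ℝ => (1 : ℝ)) g (ContinuousLinearMap.lsmul ℝ ℝ) ν =
      resT ν g := by
    funext p
    rw [convolution_def, resT]
    simp
  rw [h3] at h2
  exact h2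

lemma res_fderiv {g : ℝ × ℝ → ℝ} (hg : Smooth g) (hc : HasCompactSupport g) (p v : ℝ × ℝ) :
    fderiv ℝ (resT ν g) p v = ∫ y, fderiv ℝ g (p - y) v ∂ν := by
  have hcf : HasCompactSupport (fderiv ℝ g) := hc.fderiv ℝ
  have hfc : Continuous (fderiv ℝ g) := ContDiff.continuous_fderiv hg (by simp)
  obtain ⟨C, hC⟩ := hcf.exists_bound_of_continuous hfc
  have hint : ∀ q : ℝ × ℝ, Integrable (fun y => fderiv ℝ g (q - y)) ν := by
    intro q
    refine Integrable.of_bound (C := C) ?_ (Filter.Eventually.of_forall fun y => hC _)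
    exact (hfc.comp (continuous_const.sub continuous_id)).aestronglyMeasurable
  have h1 : HasFDerivAt (fun q => ∫ y, g (q - y) ∂ν) (∫ y, fderiv ℝ g (p - y) ∂ν) p := by
    apply hasFDerivAt_integral_of_dominated_of_fderiv_le (bound := fun _ => C)
      (F := fun q y => g (q - y)) (F' := fun q y => fderiv ℝ g (q - y))
      (s := Set.univ) Filter.univ_mem
    · exact Filter.Eventually.of_forall fun q => (res_integrable ν hg hc q).aestronglyMeasurable
    · exact res_integrable ν hg hc p
    · exact (hint p).aestronglyMeasurable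
    · exact Filter.Eventually.of_forall fun y q _ => hC _
    · exact integrable_const _
    · refine Filter.Eventually.of_forall fun y q _ => ?_
      have h2 := (hg.differentiable (q - y)).hasFDerivAt.comp q
        ((hasFDerivAt_id q).sub_const y)
      exact h2
  have h2 : fderiv ℝ (resT ν g) p = ∫ y, fderiv ℝ g (p - y) ∂ν := h1.fderiv
  rw [h2, ContinuousLinearMap.integral_apply (hint p)]

lemma res_d1 {g : ℝ × ℝ → ℝ} (hg : Smooth g) (hc : HasCompactSupport g) :
    d1 (resT ν g) = resT ν (d1 g) := by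
  funext p
  exact res_fderiv ν hg hc p (1, 0)

lemma res_d2 {g : ℝ × ℝ → ℝ} (hg : Smooth g) (hc : HasCompactSupport g) :
    d2 (resT ν g) = resT ν (d2 g) := by
  funext p
  exact res_fderiv ν hg hc p (0, 1)

lemma res_der {g : ℝ × ℝ → ℝ} (hg : Smooth g) (hc : HasCompactSupport g) :
    ∀ w, der w (resT ν g) = resT ν (der w g)
  | [] => rfl
  | false :: w => by
    show d1 (der w (resT ν g)) = resT ν (d1 (der w g))
    rw [res_der hg hc w, res_d1 ν (hg.der w) (res_cder hc w)]
  | true :: w => by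
    show d2 (der w (resT ν g)) = resT ν (d2 (der w g))
    rw [res_der hg hc w, res_d2 ν (hg.der w) (res_cder hc w)]

lemma res_lap {g : ℝ × ℝ → ℝ} (hg : Smooth g) (hc : HasCompactSupport g) (p : ℝ × ℝ) :
    lap (resT ν g) p = resT ν (lap g) p := by
  unfold lap
  rw [res_d1 ν hg hc, res_d2 ν hg hc, res_d1 ν hg.d1 (res_c1 hc), res_d2 ν hg.d2 (res_c2 hc)]
  unfold resT
  rw [← integral_add (res_integrable ν hg.d1.d1 (res_c1 (res_c1 hc)) p)
    (res_integrable ν hg.d2.d2 (res_c2 (res_c2 hc)) p)]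

lemma res_bounds {g : ℝ × ℝ → ℝ} (hg : Smooth g) (hc : HasCompactSupport g) {a b : ℝ}
    (h : ∀ p, a ≤ g p ∧ g p ≤ b) (p : ℝ × ℝ) : a ≤ resT ν g p ∧ resT ν g p ≤ b := by
  have hi := res_integrable ν hg hc p
  constructor
  · calc a = ∫ _, a ∂ν := by simp
      _ ≤ _ := integral_mono (integrable_const _) hi fun y => (h _).1
  · calc resT ν g p ≤ ∫ _, b ∂ν := integral_mono hi (integrable_const _) fun y => (h _).2
      _ = b := by simp

/-! ### Gaussian integration by parts -/

/-- the standard Gaussian on the line -/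
noncomputable abbrev resG : Measure ℝ := gaussianReal 0 1

lemma res_pdf_deriv (x : ℝ) :
    HasDerivAt (fun x => -gaussianPDFReal 0 1 x) (x * gaussianPDFReal 0 1 x) x := by
  have h1 : (fun x => -gaussianPDFReal 0 1 x) =
      fun x => -((Real.sqrt (2 * Real.pi * 1))⁻¹ * Real.exp (-(x - 0) ^ 2 / (2 * 1))) := by
    funext y
    simp [gaussianPDFReal]
  rw [h1]
  have h2 : HasDerivAt (fun x : ℝ => -(x - 0) ^ 2 / (2 * 1)) (-x) x := by
    have := ((hasDerivAt_id x).sub_const 0).pow 2
    have h3 := this.neg.div_const (2 * 1 : ℝ)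
    refine h3.congr_deriv ?_
    norm_num
    ring
  have h4 := (h2.exp.const_mul (Real.sqrt (2 * Real.pi * 1))⁻¹).neg
  refine h4.congr_deriv ?_
  simp only [gaussianPDFReal, NNReal.coe_one]
  ring

lemma res_int_id : Integrable (fun x : ℝ => x) resG := by
  have := memLp_id_gaussianReal (μ := 0) (v := 1) 1
  have h2 : MemLp (fun x : ℝ => x) 1 resG := by
    exact_mod_cast this
  exact memLp_one_iff_integrable.mp h2

lemma res_integrable_iff {h : ℝ → ℝ} :
    Integrable h resG ↔ Integrable (fun x => gaussianPDFReal 0 1 x * h x) := by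
  have h1 : resG = volume.withDensity (gaussianPDF 0 1) := gaussianReal_of_var_ne_zero 0 one_ne_zero
  rw [h1, integrable_withDensity_iff_integrable_smul' (measurable_gaussianPDF 0 1)
    (Filter.Eventually.of_forall fun x => gaussianPDF_lt_top)]
  simp only [toReal_gaussianPDF, smul_eq_mul]

lemma res_stein {G G' : ℝ → ℝ} {C : ℝ} (hG : ∀ x, HasDerivAt G (G' x) x)
    (hC : ∀ x, |G x| ≤ C) (hC' : ∀ x, |G' x| ≤ C) (hG'c : Continuous G') :
    ∫ x, G x * x ∂resG = ∫ x, G' x ∂resG := by
  have hGc : Continuous G := continuous_iff_continuousAt.mpr fun x => (hG x).continuousAt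
  have i1 : Integrable (fun x => G x * x) resG := by
    refine Integrable.bdd_mul (c := C) res_int_id hGc.aestronglyMeasurable
      (Filter.Eventually.of_forall fun x => hC x)
  have i2 : Integrable G' resG :=
    Integrable.of_bound (C := C) hG'c.aestronglyMeasurable
      (Filter.Eventually.of_forall fun x => hC' x)
  have i3 : Integrable G resG :=
    Integrable.of_bound (C := C) hGc.aestronglyMeasurable
      (Filter.Eventually.of_forall fun x => hC x)
  rw [res_integrable_iff] at i1 i2 i3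
  rw [integral_gaussianReal_eq_integral_smul one_ne_zero,
    integral_gaussianReal_eq_integral_smul one_ne_zero]
  have h := integral_mul_deriv_eq_deriv_mul_of_integrable (u := G)
    (v := fun x => -gaussianPDFReal 0 1 x) (u' := G') (v' := fun x => x * gaussianPDFReal 0 1 x)
    (fun x _ => hG x) (fun x _ => res_pdf_deriv x) ?_ ?_ ?_
  · have e1 : ∫ x, gaussianPDFReal 0 1 x • (G x * x) = ∫ x, G x * (x * gaussianPDFReal 0 1 x) := by
      congr 1
      funext x
      rw [smul_eq_mul]
      ring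
    have e2 : -∫ x, G' x * (-gaussianPDFReal 0 1 x) = ∫ x, gaussianPDFReal 0 1 x • G' x := by
      rw [← integral_neg]
      congr 1
      funext x
      rw [smul_eq_mul]
      ring
    rw [e1, h, e2]
  · refine i1.congr (Filter.Eventually.of_forall fun x => ?_)
    simp only [Pi.mul_apply]
    ring
  · refine i2.neg.congr (Filter.Eventually.of_forall fun x => ?_)
    simp only [Pi.mul_apply, Pi.neg_apply]
    ring
  · refine i3.neg.congr (Filter.Eventually.of_forall fun x => ?_)
    simp only [Pi.mul_apply, Pi.neg_apply]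
    ring

/-- the standard Gaussian on the plane -/
noncomputable abbrev resG2 : Measure (ℝ × ℝ) := resG.prod resG

lemma res_int_g {g : ℝ × ℝ → ℝ} (hg : Smooth g) (hc : HasCompactSupport g) (p : ℝ × ℝ) (r : ℝ) :
    Integrable (fun z : ℝ × ℝ => g (p - r • z)) resG2 := by
  obtain ⟨C, _, hC⟩ := res_bdd hg hc
  refine Integrable.of_bound (C := C) ?_ (Filter.Eventually.of_forall fun y => hC _)
  exact (hg.continuous.comp (by fun_prop)).aestronglyMeasurable

lemma res_int_fst : Integrable (fun z : ℝ × ℝ => z.1) resG2 := by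
  have := res_int_id.mul_prod (integrable_const (1 : ℝ) (μ := resG))
  simpa using this

lemma res_int_snd : Integrable (fun z : ℝ × ℝ => z.2) resG2 := by
  have := (integrable_const (1 : ℝ) (μ := resG)).mul_prod res_int_id
  simpa using this

lemma res_int_g1 {g : ℝ × ℝ → ℝ} (hg : Smooth g) (hc : HasCompactSupport g) (p : ℝ × ℝ) (r : ℝ) :
    Integrable (fun z : ℝ × ℝ => g (p - r • z) * z.1) resG2 := by
  obtain ⟨C, _, hC⟩ := res_bdd hg hc
  refine Integrable.bdd_mul (c := C) res_int_fst ?_ (Filter.Eventually.of_forall fun y => hC _)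
  exact (hg.continuous.comp (by fun_prop)).aestronglyMeasurable

lemma res_int_g2 {g : ℝ × ℝ → ℝ} (hg : Smooth g) (hc : HasCompactSupport g) (p : ℝ × ℝ) (r : ℝ) :
    Integrable (fun z : ℝ × ℝ => g (p - r • z) * z.2) resG2 := by
  obtain ⟨C, _, hC⟩ := res_bdd hg hc
  refine Integrable.bdd_mul (c := C) res_int_snd ?_ (Filter.Eventually.of_forall fun y => hC _)
  exact (hg.continuous.comp (by fun_prop)).aestronglyMeasurable

lemma res_ibp1 {g : ℝ × ℝ → ℝ} (hg : Smooth g) (hc : HasCompactSupport g) (p : ℝ × ℝ) (r : ℝ) :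
    ∫ z, g (p - r • z) * z.1 ∂resG2 = ∫ z, -(r * d1 g (p - r • z)) ∂resG2 := by
  obtain ⟨C, _, hC⟩ := res_bdd hg hc
  obtain ⟨C', hC'0, hC'⟩ := res_bdd hg.d1 (res_c1 hc)
  have hn : Integrable (fun z : ℝ × ℝ => -(r * d1 g (p - r • z))) resG2 :=
    ((res_int_g hg.d1 (res_c1 hc) p r).const_mul r).neg
  rw [integral_prod_symm _ (res_int_g1 hg hc p r), integral_prod_symm _ hn]
  congr 1
  funext y
  have h1 : ∀ x : ℝ, HasDerivAt (fun x : ℝ => g (p - r • ((x, y) : ℝ × ℝ)))
      (-(r * d1 g (p - r • ((x, y) : ℝ × ℝ)))) x := by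
    intro x
    have h2 : HasDerivAt (fun x : ℝ => p - r • ((x, y) : ℝ × ℝ)) (-(r • ((1, 0) : ℝ × ℝ))) x :=
      (((hasDerivAt_id x).prodMk (hasDerivAt_const x y)).const_smul r).const_sub p
    have h3 := (hg.hasFDerivAt (p - r • ((x, y) : ℝ × ℝ))).comp_hasDerivAt x h2
    refine h3.congr_deriv ?_
    rw [map_neg, map_smul]
    rfl
  refine res_stein (C := max C (|r| * C')) h1 (fun x => (hC _).trans (le_max_left _ _)) ?_ ?_
  · intro x
    rw [abs_neg, abs_mul]
    exact (mul_le_mul_of_nonneg_left (hC' _) (abs_nonneg r)).trans (le_max_right _ _)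
  · have := hg.d1.continuous
    exact (continuous_const.mul (this.comp (by fun_prop))).neg

lemma res_ibp2 {g : ℝ × ℝ → ℝ} (hg : Smooth g) (hc : HasCompactSupport g) (p : ℝ × ℝ) (r : ℝ) :
    ∫ z, g (p - r • z) * z.2 ∂resG2 = ∫ z, -(r * d2 g (p - r • z)) ∂resG2 := by
  obtain ⟨C, _, hC⟩ := res_bdd hg hc
  obtain ⟨C', hC'0, hC'⟩ := res_bdd hg.d2 (res_c2 hc)
  have hn : Integrable (fun z : ℝ × ℝ => -(r * d2 g (p - r • z))) resG2 :=
    ((res_int_g hg.d2 (res_c2 hc) p r).const_mul r).neg
  rw [integral_prod _ (res_int_g2 hg hc p r), integral_prod _ hn]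
  congr 1
  funext y
  have h1 : ∀ x : ℝ, HasDerivAt (fun x : ℝ => g (p - r • ((y, x) : ℝ × ℝ)))
      (-(r * d2 g (p - r • ((y, x) : ℝ × ℝ)))) x := by
    intro x
    have h2 : HasDerivAt (fun x : ℝ => p - r • ((y, x) : ℝ × ℝ)) (-(r • ((0, 1) : ℝ × ℝ))) x :=
      (((hasDerivAt_const x y).prodMk (hasDerivAt_id x)).const_smul r).const_sub p
    have h3 := (hg.hasFDerivAt (p - r • ((y, x) : ℝ × ℝ))).comp_hasDerivAt x h2
    refine h3.congr_deriv ?_
    rw [map_neg, map_smul]
    rfl
  refine res_stein (C := max C (|r| * C')) h1 (fun x => (hC _).trans (le_max_left _ _)) ?_ ?_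
  · intro x
    rw [abs_neg, abs_mul]
    exact (mul_le_mul_of_nonneg_left (hC' _) (abs_nonneg r)).trans (le_max_right _ _)
  · have := hg.d2.continuous
    exact (continuous_const.mul (this.comp (by fun_prop))).neg

/-- the Gaussian average at scale `r` -/
noncomputable def resV (g : ℝ × ℝ → ℝ) (p : ℝ × ℝ) (r : ℝ) : ℝ := ∫ z, g (p - r • z) ∂resG2

lemma res_V_deriv {g : ℝ × ℝ → ℝ} (hg : Smooth g) (hc : HasCompactSupport g) (p : ℝ × ℝ) (r : ℝ) :
    HasDerivAt (resV g p) (r * resV (lap g) p r) r := by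
  obtain ⟨C1, hC10, hC1⟩ := res_bdd hg.d1 (res_c1 hc)
  obtain ⟨C2, hC20, hC2⟩ := res_bdd hg.d2 (res_c2 hc)
  have hF' : ∀ (r : ℝ) (z : ℝ × ℝ), HasDerivAt (fun r : ℝ => g (p - r • z))
      (-(d1 g (p - r • z) * z.1 + d2 g (p - r • z) * z.2)) r := by
    intro r z
    have h2 : HasDerivAt (fun r : ℝ => p - r • z) (-((1 : ℝ) • z)) r :=
      ((hasDerivAt_id r).smul_const z).const_sub p
    have h3 := (hg.hasFDerivAt (p - r • z)).comp_hasDerivAt r h2
    refine h3.congr_deriv ?_
    rw [one_smul, map_neg, fderiv_apply_eq]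
  have h1 := (hasDerivAt_integral_of_dominated_loc_of_deriv_le (μ := resG2) (x₀ := r)
    (s := Set.univ) (F := fun r z => g (p - r • z))
    (F' := fun r z => -(d1 g (p - r • z) * z.1 + d2 g (p - r • z) * z.2))
    (bound := fun z => C1 * |z.1| + C2 * |z.2|) Filter.univ_mem
    (Filter.Eventually.of_forall fun r => (res_int_g hg hc p r).aestronglyMeasurable)
    (res_int_g hg hc p r)
    ((res_int_g1 hg.d1 (res_c1 hc) p r).add (res_int_g2 hg.d2 (res_c2 hc) p r)).neg.aestronglyMeasurable
    (Filter.Eventually.of_forall fun z r _ => by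
      rw [norm_neg]
      refine (norm_add_le _ _).trans ?_
      rw [norm_mul, norm_mul]
      exact add_le_add (mul_le_mul_of_nonneg_right (hC1 _) (abs_nonneg _))
        (mul_le_mul_of_nonneg_right (hC2 _) (abs_nonneg _)))
    ((res_int_fst.abs.const_mul C1).add (res_int_snd.abs.const_mul C2))
    (Filter.Eventually.of_forall fun z r _ => hF' r z)).2
  refine h1.congr_deriv ?_
  rw [integral_neg, integral_add (res_int_g1 hg.d1 (res_c1 hc) p r)
    (res_int_g2 hg.d2 (res_c2 hc) p r), res_ibp1 hg.d1 (res_c1 hc), res_ibp2 hg.d2 (res_c2 hc),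
    integral_neg, integral_neg, integral_const_mul, integral_const_mul]
  unfold resV lap
  rw [integral_add (res_int_g hg.d1.d1 (res_c1 (res_c1 hc)) p r)
    (res_int_g hg.d2.d2 (res_c2 (res_c2 hc)) p r)]
  ring

/-! ### The measure -/

/-- the density of the radius -/
noncomputable def resρ (t r : ℝ) : ℝ := r / t * Real.exp (-r ^ 2 / (2 * t))

lemma res_ρ_deriv {t : ℝ} (ht : 0 < t) (r : ℝ) :
    HasDerivAt (fun r => -Real.exp (-r ^ 2 / (2 * t))) (resρ t r) r := by
  have h1 : HasDerivAt (fun r : ℝ => -r ^ 2 / (2 * t)) (-r / t) r := by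
    have h3 := ((hasDerivAt_pow 2 r).neg).div_const (2 * t)
    refine h3.congr_deriv ?_
    field_simp
    norm_num
  refine h1.exp.neg.congr_deriv ?_
  unfold resρ
  ring

lemma res_exp_tendsto {t : ℝ} (ht : 0 < t) :
    Filter.Tendsto (fun r : ℝ => Real.exp (-r ^ 2 / (2 * t))) Filter.atTop (nhds 0) := by
  apply Real.tendsto_exp_atBot.comp
  have h1 : Filter.Tendsto (fun r : ℝ => r ^ 2 / (2 * t)) Filter.atTop Filter.atTop :=
    (Filter.tendsto_pow_atTop two_ne_zero).atTop_div_const (by positivity)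
  have h2 := Filter.tendsto_neg_atTop_atBot.comp h1
  refine h2.congr fun r => ?_
  simp only [Function.comp]
  ring

lemma res_ρ_integrable {t : ℝ} (ht : 0 < t) : IntegrableOn (resρ t) (Ioi 0) := by
  refine integrableOn_Ioi_deriv_of_nonneg (g := fun r => -Real.exp (-r ^ 2 / (2 * t))) (l := 0) ?_
    (fun r _ => res_ρ_deriv ht r) (fun r hr => ?_) ?_
  · exact (res_ρ_deriv ht 0).continuousAt.continuousWithinAt
  · have : (0 : ℝ) < r := hr
    unfold resρ
    positivity
  · simpa using (res_exp_tendsto ht).neg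

/-- the law of the radius -/
noncomputable def resμ (t : ℝ) : Measure ℝ :=
  (volume.restrict (Ioi 0)).withDensity fun r => ENNReal.ofReal (resρ t r)

lemma res_ρ_nonneg {t : ℝ} (ht : 0 < t) : ∀ᵐ r ∂volume.restrict (Ioi (0 : ℝ)), 0 ≤ resρ t r := by
  filter_upwards [ae_restrict_mem measurableSet_Ioi] with r hr
  have : (0 : ℝ) < r := hr
  unfold resρ
  positivity

lemma res_μ_prob {t : ℝ} (ht : 0 < t) : IsProbabilityMeasure (resμ t) := by
  constructor
  unfold resμ
  rw [withDensity_apply _ MeasurableSet.univ, Measure.restrict_univ,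
    ← ofReal_integral_eq_lintegral_ofReal (res_ρ_integrable ht) (res_ρ_nonneg ht),
    integral_Ioi_of_hasDerivAt_of_tendsto (f := fun r => -Real.exp (-r ^ 2 / (2 * t))) (m := 0)
      (res_ρ_deriv ht 0).continuousAt.continuousWithinAt (fun r _ => res_ρ_deriv ht r)
      (res_ρ_integrable ht) (by simpa using (res_exp_tendsto ht).neg)]
  simp

/-- the resolvent kernel -/
noncomputable def resν (t : ℝ) : Measure (ℝ × ℝ) :=
  ((resμ t).prod resG2).map fun x => x.1 • x.2

lemma res_ν_prob {t : ℝ} (ht : 0 < t) : IsProbabilityMeasure (resν t) := by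
  have := res_μ_prob ht
  exact Measure.isProbabilityMeasure_map (by fun_prop)

lemma res_T_eq {t : ℝ} (ht : 0 < t) {g : ℝ × ℝ → ℝ} (hg : Smooth g) (hc : HasCompactSupport g)
    (p : ℝ × ℝ) : resT (resν t) g p = ∫ r in Ioi (0 : ℝ), resρ t r * resV g p r := by
  have := res_μ_prob ht
  have := res_ν_prob ht
  unfold resT resν
  have hm : AEStronglyMeasurable (fun y : ℝ × ℝ => g (p - y))
      (((resμ t).prod resG2).map fun x => x.1 • x.2) :=
    (hg.continuous.comp (continuous_const.sub continuous_id)).aestronglyMeasurable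
  rw [integral_map (by fun_prop) hm]
  have hint : Integrable (fun x : ℝ × (ℝ × ℝ) => g (p - x.1 • x.2)) ((resμ t).prod resG2) := by
    obtain ⟨C, _, hC⟩ := res_bdd hg hc
    refine Integrable.of_bound (C := C) ?_ (Filter.Eventually.of_forall fun y => hC _)
    exact (hg.continuous.comp (by fun_prop)).aestronglyMeasurable
  rw [integral_prod _ hint]
  unfold resμ
  rw [integral_withDensity_eq_integral_toReal_smul (by unfold resρ; fun_prop)
    (Filter.Eventually.of_forall fun _ => ENNReal.ofReal_lt_top)]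
  apply integral_congr_ae
  filter_upwards [res_ρ_nonneg ht] with r hr
  rw [ENNReal.toReal_ofReal hr, smul_eq_mul]
  rfl

theorem resolvent {t : ℝ} (ht : 0 < t) {f : ℝ × ℝ → ℝ} (hf : Smooth f)
    (hc : HasCompactSupport f) :
    ∃ ψ : ℝ × ℝ → ℝ, Smooth ψ ∧ (∀ p, ψ p - t * lap ψ p = f p) ∧
      ∀ (w : List Bool) (a b : ℝ), a ≤ 0 → 0 ≤ b → (∀ p, a ≤ der w f p ∧ der w f p ≤ b) →
        ∀ p, a ≤ der w ψ p ∧ der w ψ p ≤ b := by
  have := res_ν_prob ht
  refine ⟨resT (resν t) f, res_smooth _ hf hc, ?_, ?_⟩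
  · intro p
    rw [res_lap _ hf hc, res_T_eq ht hf hc, res_T_eq ht hf.lap (res_clap hc)]
    have hVc : ∀ {g : ℝ × ℝ → ℝ}, Smooth g → HasCompactSupport g → Continuous (resV g p) :=
      fun hg hgc => continuous_iff_continuousAt.mpr fun r => (res_V_deriv hg hgc p r).continuousAt
    have hVi : ∀ {g : ℝ × ℝ → ℝ}, Smooth g → HasCompactSupport g →
        IntegrableOn (fun r => resρ t r * resV g p r) (Ioi 0) := by
      intro g hg hgc
      obtain ⟨C, _, hC⟩ := res_bdd hg hgc
      have h1 := Integrable.bdd_mul (c := C) (res_ρ_integrable ht)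
        ((hVc hg hgc).aestronglyMeasurable) (Filter.Eventually.of_forall fun r => by
          refine (norm_integral_le_of_norm_le_const
            (Filter.Eventually.of_forall fun z => hC _)).trans ?_
          simp)
      refine h1.congr (Filter.Eventually.of_forall fun r => ?_)
      simp only
      ring
    rw [← integral_const_mul, ← integral_sub (hVi hf hc) ((hVi hf.lap (res_clap hc)).const_mul t)]
    have hd : ∀ r ∈ Ioi (0 : ℝ), HasDerivAt (fun r => -Real.exp (-r ^ 2 / (2 * t)) * resV f p r)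
        (resρ t r * resV f p r - t * (resρ t r * resV (lap f) p r)) r := by
      intro r _
      have h1 := (res_ρ_deriv ht r).mul (res_V_deriv hf hc p r)
      refine h1.congr_deriv ?_
      have h2 : resρ t r * t = Real.exp (-r ^ 2 / (2 * t)) * r := by
        unfold resρ
        field_simp
      linear_combination resV (lap f) p r * h2
    rw [integral_Ioi_of_hasDerivAt_of_tendsto (m := 0) ?_ hd
      ((hVi hf hc).sub ((hVi hf.lap (res_clap hc)).const_mul t)) ?_]
    · simp [resV]
    · have h1 := (res_ρ_deriv ht 0).mul (res_V_deriv hf hc p 0)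
      exact h1.continuousAt.continuousWithinAt
    · obtain ⟨C, _, hC⟩ := res_bdd hf hc
      have h1 : Filter.Tendsto (fun r : ℝ => -Real.exp (-r ^ 2 / (2 * t))) Filter.atTop (nhds 0) := by
        simpa using (res_exp_tendsto ht).neg
      refine h1.zero_mul_isBoundedUnder_le ⟨C, ?_⟩
      rw [Filter.eventually_map]
      refine Filter.Eventually.of_forall fun r => ?_
      refine (norm_integral_le_of_norm_le_const
        (Filter.Eventually.of_forall fun z => hC _)).trans ?_
      simp
  · intro w a b _ _ h p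
    rw [res_der _ hf hc]
    exact res_bounds _ (hf.der w) (res_cder hc w) h p

end Pool.Agent.H24.Near
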