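import Pool.Agent.H24.Near.ThreeBall
import Pool.Agent.H24.Near.Resolvent
import Pool.Agent.H24.Near.Mollify
import Pool.Agent.H24.Near.Energy
import Pool.Agent.H24.Near.Index

set_option autoImplicit false

/-!
# From one scale to a smaller scale
-/

namespace Pool.Agent.H24.Near

open MeasureTheory Set Metric

namespace StepX

/-! ### Derivatives -/

lemma der_add {f g : ℝ × ℝ → ℝ} (hf : Smooth f) (hg : Smooth g) :
    ∀ w : List Bool, der w (fun x => f x + g x) = fun x => der w f x + der w g x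
  | [] => rfl
  | false :: w => by
    funext p
    show d1 (der w (fun x => f x + g x)) p = d1 (der w f) p + d1 (der w g) p
    rw [der_add hf hg w]
    exact d1_add ((hf.der w).differentiable p) ((hg.der w).differentiable p)
  | true :: w => by
    funext p
    show d2 (der w (fun x => f x + g x)) p = d2 (der w f) p + d2 (der w g) p
    rw [der_add hf hg w]
    exact d2_add ((hf.der w).differentiable p) ((hg.der w).differentiable p)

lemma der_const_mul {f : ℝ × ℝ → ℝ} (hf : Smooth f) (c : ℝ) :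
    ∀ w : List Bool, der w (fun x => c * f x) = fun x => c * der w f x
  | [] => rfl
  | false :: w => by
    funext p
    show d1 (der w (fun x => c * f x)) p = c * d1 (der w f) p
    rw [der_const_mul hf c w]
    exact d1_const_mul c ((hf.der w).differentiable p)
  | true :: w => by
    funext p
    show d2 (der w (fun x => c * f x)) p = c * d2 (der w f) p
    rw [der_const_mul hf c w]
    exact d2_const_mul c ((hf.der w).differentiable p)

lemma abs_der_const_le (c : ℝ) :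
    ∀ (w : List Bool) (p : ℝ × ℝ), |der w (fun _ => c) p| ≤ |c| := by
  have h : ∀ w : List Bool, ∃ a : ℝ, |a| ≤ |c| ∧ der w (fun _ : ℝ × ℝ => c) = fun _ => a := by
    intro w
    induction w with
    | nil => exact ⟨c, le_rfl, rfl⟩
    | cons b w ih =>
      obtain ⟨a, ha, hw⟩ := ih
      refine ⟨0, by simp, ?_⟩
      funext p
      cases b
      · show d1 (der w (fun _ : ℝ × ℝ => c)) p = 0
        rw [hw]; exact d1_const a p
      · show d2 (der w (fun _ : ℝ × ℝ => c)) p = 0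
        rw [hw]; exact d2_const a p
  intro w p
  obtain ⟨a, ha, hw⟩ := h w
  rw [hw]
  exact ha

noncomputable def sm (f g : ℝ × ℝ → ℝ) (l : List (List Bool × List Bool))
    (p : ℝ × ℝ) : ℝ := (l.map fun x => der x.1 f p * der x.2 g p).sum

lemma sm_cons (f g : ℝ × ℝ → ℝ) (x : List Bool × List Bool)
    (l : List (List Bool × List Bool)) :
    sm f g (x :: l) = fun p => der x.1 f p * der x.2 g p + sm f g l p := by
  funext p; simp [sm]

lemma sm_append (f g : ℝ × ℝ → ℝ) (l l' : List (List Bool × List Bool)) (p : ℝ × ℝ) :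
    sm f g (l ++ l') p = sm f g l p + sm f g l' p := by
  simp [sm]

lemma smooth_sm {f g : ℝ × ℝ → ℝ} (hf : Smooth f) (hg : Smooth g)
    (l : List (List Bool × List Bool)) : Smooth (sm f g l) := by
  induction l with
  | nil =>
    have : sm f g [] = fun _ => 0 := by funext p; simp [sm]
    rw [this]
    exact contDiff_const
  | cons x l ih =>
    rw [sm_cons]
    exact ((hf.der x.1).mul (hg.der x.2)).add ih

lemma d1_sm {f g : ℝ × ℝ → ℝ} (hf : Smooth f) (hg : Smooth g)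
    (l : List (List Bool × List Bool)) (p : ℝ × ℝ) :
    d1 (sm f g l) p = sm f g ((l.map fun x => (false :: x.1, x.2)) ++
      (l.map fun x => (x.1, false :: x.2))) p := by
  induction l with
  | nil =>
    have : sm f g [] = fun _ => 0 := by funext p; simp [sm]
    rw [this, d1_const]
    simp [sm]
  | cons x l ih =>
    have hs : Smooth (fun p => der x.1 f p * der x.2 g p) := (hf.der x.1).mul (hg.der x.2)
    rw [sm_cons, d1_add (hs.differentiable p) ((smooth_sm hf hg l).differentiable p), ih,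
      d1_mul ((hf.der x.1).differentiable p) ((hg.der x.2).differentiable p)]
    simp only [sm_append, List.map_cons, sm_cons, der]
    ring

lemma d2_sm {f g : ℝ × ℝ → ℝ} (hf : Smooth f) (hg : Smooth g)
    (l : List (List Bool × List Bool)) (p : ℝ × ℝ) :
    d2 (sm f g l) p = sm f g ((l.map fun x => (true :: x.1, x.2)) ++
      (l.map fun x => (x.1, true :: x.2))) p := by
  induction l with
  | nil =>
    have : sm f g [] = fun _ => 0 := by funext p; simp [sm]
    rw [this, d2_const]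
    simp [sm]
  | cons x l ih =>
    have hs : Smooth (fun p => der x.1 f p * der x.2 g p) := (hf.der x.1).mul (hg.der x.2)
    rw [sm_cons, d2_add (hs.differentiable p) ((smooth_sm hf hg l).differentiable p), ih,
      d2_mul ((hf.der x.1).differentiable p) ((hg.der x.2).differentiable p)]
    simp only [sm_append, List.map_cons, sm_cons, der]
    ring

/-- derivatives of a product -/
lemma leibniz {f g : ℝ × ℝ → ℝ} (hf : Smooth f) (hg : Smooth g) :
    ∀ w : List Bool, ∃ l : List (List Bool × List Bool), l.length = 2 ^ w.length ∧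
      (∀ x ∈ l, x.1.length ≤ w.length ∧ x.2.length ≤ w.length) ∧
      der w (fun x => f x * g x) = sm f g l := by
  intro w
  induction w with
  | nil => exact ⟨[([], [])], rfl, by simp, by funext p; simp [der, sm]⟩
  | cons b w ih =>
    obtain ⟨l, hl, hlen, hw⟩ := ih
    cases b
    · refine ⟨(l.map fun x => (false :: x.1, x.2)) ++ (l.map fun x => (x.1, false :: x.2)),
        ?_, ?_, ?_⟩
      · simp only [List.length_append, List.length_map, hl, List.length_cons]
        ring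
      · intro x hx
        simp only [List.mem_append, List.mem_map] at hx
        rcases hx with ⟨y, hy, rfl⟩ | ⟨y, hy, rfl⟩
        · have := hlen y hy
          simp only [List.length_cons]
          omega
        · have := hlen y hy
          simp only [List.length_cons]
          omega
      · funext p
        show d1 (der w (fun x => f x * g x)) p = _
        rw [hw]
        exact d1_sm hf hg l p
    · refine ⟨(l.map fun x => (true :: x.1, x.2)) ++ (l.map fun x => (x.1, true :: x.2)),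
        ?_, ?_, ?_⟩
      · simp only [List.length_append, List.length_map, hl, List.length_cons]
        ring
      · intro x hx
        simp only [List.mem_append, List.mem_map] at hx
        rcases hx with ⟨y, hy, rfl⟩ | ⟨y, hy, rfl⟩
        · have := hlen y hy
          simp only [List.length_cons]
          omega
        · have := hlen y hy
          simp only [List.length_cons]
          omega
      · funext p
        show d2 (der w (fun x => f x * g x)) p = _
        rw [hw]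
        exact d2_sm hf hg l p

lemma abs_der_mul_le {f g : ℝ × ℝ → ℝ} (hf : Smooth f) (hg : Smooth g) {a b : ℝ}
    {p : ℝ × ℝ} (ha : ∀ w : List Bool, w.length ≤ 3 → |der w f p| ≤ a)
    (hb : ∀ w : List Bool, w.length ≤ 3 → |der w g p| ≤ b) (w : List Bool) (hw : w.length ≤ 3) :
    |der w (fun x => f x * g x) p| ≤ 8 * (a * b) := by
  obtain ⟨l, hl, hlen, he⟩ := leibniz hf hg w
  have ha0 : 0 ≤ a := (abs_nonneg _).trans (ha [] (by simp))
  have hb0 : 0 ≤ b := (abs_nonneg _).trans (hb [] (by simp))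
  rw [he]
  have h1 : ∀ l' : List (List Bool × List Bool), (∀ x ∈ l', x.1.length ≤ 3 ∧ x.2.length ≤ 3) →
      |sm f g l' p| ≤ l'.length * (a * b) := by
    intro l' hl'
    induction l' with
    | nil => simp [sm]
    | cons x l' ih =>
      simp only [sm_cons, List.length_cons]
      have h2 := ih fun y hy => hl' y (List.mem_cons_of_mem _ hy)
      have h3 := hl' x List.mem_cons_self
      have h4 : |der x.1 f p * der x.2 g p| ≤ a * b := by
        rw [abs_mul]
        exact mul_le_mul (ha _ h3.1) (hb _ h3.2) (abs_nonneg _) ha0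
      push_cast
      calc |der x.1 f p * der x.2 g p + sm f g l' p|
          ≤ |der x.1 f p * der x.2 g p| + |sm f g l' p| :=
            abs_add_le _ _
        _ ≤ a * b + l'.length * (a * b) := add_le_add h4 h2
        _ = (l'.length + 1) * (a * b) := by ring
  have h5 := h1 l fun x hx => ⟨(hlen x hx).1.trans hw, (hlen x hx).2.trans hw⟩
  refine h5.trans ?_
  apply mul_le_mul_of_nonneg_right _ (mul_nonneg ha0 hb0)
  rw [hl]
  have h6 : (2 : ℕ) ^ w.length ≤ 2 ^ 3 := Nat.pow_le_pow_right (by norm_num) hw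
  have h7 : ((2 ^ w.length : ℕ) : ℝ) ≤ ((2 ^ 3 : ℕ) : ℝ) := by exact_mod_cast h6
  refine h7.trans ?_
  norm_num

/-- a cutoff function -/
lemma exists_cutoff {a b : ℝ} (ha : 0 < a) (hab : a < b) :
    ∃ χ : ℝ × ℝ → ℝ, Smooth χ ∧ HasCompactSupport χ ∧ (∀ p, 0 ≤ χ p ∧ χ p ≤ 1) ∧
      (∀ p ∈ closedBall (0 : ℝ × ℝ) a, χ p = 1) ∧
      (∀ p, p ∉ closedBall (0 : ℝ × ℝ) b → χ p = 0) := by
  let χ : ContDiffBump (0 : ℝ × ℝ) := ⟨a, b, ha, hab⟩
  refine ⟨χ, χ.contDiff, χ.hasCompactSupport, fun p => ⟨χ.nonneg, χ.le_one⟩,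
    fun p hp => χ.one_of_mem_closedBall hp, fun p hp => χ.zero_of_le_dist ?_⟩
  rw [mem_closedBall, not_le] at hp
  exact hp.le

/-- bounded derivatives -/
lemma exists_bound {χ : ℝ × ℝ → ℝ} (h : Smooth χ) (hc : HasCompactSupport χ) :
    ∃ C : ℝ, 1 ≤ C ∧ ∀ w : List Bool, w.length ≤ 3 → ∀ p, |der w χ p| ≤ C := by
  have h1 : ∀ w : List Bool, HasCompactSupport (der w χ) := by
    intro w
    induction w with
    | nil => exact hc
    | cons b w ih =>
      cases b
      · exact ih.fderiv_apply ℝ (1, 0)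
      · exact ih.fderiv_apply ℝ (0, 1)
  have h2 : ∀ w : List Bool, ∃ C : ℝ, ∀ p, |der w χ p| ≤ C := by
    intro w
    obtain ⟨C, hC⟩ := (h.der w).continuous.bounded_above_of_compact_support (h1 w)
    exact ⟨C, fun p => by simpa using hC p⟩
  choose C hC using h2
  obtain ⟨K, hK⟩ := ((List.finite_length_le Bool 3).image C).bddAbove
  refine ⟨max 1 K, le_max_left _ _, fun w hw p => (hC w p).trans ?_⟩
  exact (hK ⟨w, hw, rfl⟩).trans (le_max_right _ _)

/-! ### Truncated logarithm -/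

noncomputable def Th (m L0 a : ℝ) : ℝ :=
  (1 / m) * Real.log (max (Real.exp (-(m * L0))) (min 1 a))

lemma Th_mono {m L0 a b : ℝ} (hm : 0 < m) (h : a ≤ b) : Th m L0 a ≤ Th m L0 b := by
  unfold Th
  apply mul_le_mul_of_nonneg_left _ (by positivity)
  apply Real.log_le_log
  · exact lt_max_of_lt_left (Real.exp_pos _)
  · exact max_le_max le_rfl (min_le_min le_rfl h)

lemma Th_cont (m L0 : ℝ) : Continuous (Th m L0) := by
  unfold Th
  apply continuous_const.mul
  apply Continuous.log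
  · fun_prop
  · intro x
    exact (lt_max_of_lt_left (Real.exp_pos _)).ne'

lemma Th_nonpos {m L0 : ℝ} (hm : 0 < m) (hL : 0 ≤ L0) (a : ℝ) : Th m L0 a ≤ 0 := by
  unfold Th
  apply mul_nonpos_of_nonneg_of_nonpos (by positivity)
  apply Real.log_nonpos
  · exact (lt_max_of_lt_left (Real.exp_pos _)).le
  · apply max_le _ (min_le_left _ _)
    apply Real.exp_le_one_iff.mpr
    have := mul_nonneg hm.le hL
    linarith

lemma Th_ge {m L0 : ℝ} (hm : 0 < m) (a : ℝ) : -L0 ≤ Th m L0 a := by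
  unfold Th
  have h1 : -(m * L0) ≤ Real.log (max (Real.exp (-(m * L0))) (min 1 a)) := by
    rw [Real.le_log_iff_exp_le (lt_max_of_lt_left (Real.exp_pos _))]
    exact le_max_left _ _
  have h2 : (1 / m) * (-(m * L0)) = -L0 := by field_simp
  rw [← h2]
  exact mul_le_mul_of_nonneg_left h1 (by positivity)

lemma Th_eq {m L0 a : ℝ} (h1 : Real.exp (-(m * L0)) ≤ a) (h2 : a ≤ 1) :
    Th m L0 a = (1 / m) * Real.log a := by
  unfold Th
  rw [min_eq_right h2, max_eq_right h1]

/-! ### Measure theory -/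

lemma area2 (z : ℝ × ℝ) {r : ℝ} (hr : 0 ≤ r) :
    (volume : Measure (ℝ × ℝ)).real (closedBall z r) = (2 * r) ^ 2 := by
  rw [← closedBall_prod_same, Measure.real, Measure.volume_eq_prod, Measure.prod_prod,
    Real.volume_closedBall, Real.volume_closedBall, ← ENNReal.ofReal_mul (by positivity),
    ENNReal.toReal_ofReal (by positivity)]
  ring

lemma area4 (z : (ℝ × ℝ) × (ℝ × ℝ)) {r : ℝ} (hr : 0 ≤ r) :
    (volume : Measure ((ℝ × ℝ) × (ℝ × ℝ))).real (closedBall z r) = (2 * r) ^ 4 := by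
  have h1 := area2 z.1 hr
  have h2 := area2 z.2 hr
  rw [← closedBall_prod_same, Measure.real, Measure.volume_eq_prod, Measure.prod_prod,
    ENNReal.toReal_mul]
  rw [Measure.real] at h1 h2
  rw [h1, h2]
  ring

lemma shift2 (x : ℝ × ℝ) (ρ : ℝ) (F : ℝ × ℝ → ℝ) :
    ∫ z in closedBall x ρ, F z = ∫ w in closedBall (0 : ℝ × ℝ) ρ, F (x + w) := by
  have h := (measurePreserving_add_left (volume : Measure (ℝ × ℝ)) x).setIntegral_preimage_emb
    (measurableEmbedding_addLeft x) F (closedBall x ρ)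
  rw [← h]
  congr 2
  ext w
  simp [mem_closedBall, dist_eq_norm]

lemma shift4 (x : (ℝ × ℝ) × (ℝ × ℝ)) (ρ : ℝ) (F : (ℝ × ℝ) × (ℝ × ℝ) → ℝ) :
    ∫ z in closedBall x ρ, F z =
      ∫ w in closedBall (0 : (ℝ × ℝ) × (ℝ × ℝ)) ρ, F (x + w) := by
  have : (volume : Measure ((ℝ × ℝ) × (ℝ × ℝ))).IsAddLeftInvariant := by
    rw [Measure.volume_eq_prod]
    infer_instance
  have h := (measurePreserving_add_left (volume : Measure ((ℝ × ℝ) × (ℝ × ℝ)))
    x).setIntegral_preimage_emb (measurableEmbedding_addLeft x) F (closedBall x ρ)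
  rw [← h]
  congr 2
  ext w
  simp [mem_closedBall, dist_eq_norm]

lemma index_avg {H : ℝ × ℝ → ℝ} (hH : Continuous H) {x zs y : ℝ × ℝ} {s ρ a : ℝ}
    (hs : 0 ≤ s) (h1 : dist zs x + s ≤ ρ) (h2 : dist y x + s ≤ ρ)
    (h : ∀ z ∈ closedBall zs s, ∀ z' ∈ closedBall y s, a ≤ H z - H z') :
    (2 * s) ^ 4 * a ≤ ∫ p in closedBall ((x, x) : (ℝ × ℝ) × (ℝ × ℝ)) ρ, |H p.2 - H p.1| := by
  have hc : Continuous fun p : (ℝ × ℝ) × (ℝ × ℝ) => |H p.2 - H p.1| := by fun_prop
  have e1 : ∫ p in closedBall ((zs, y) : (ℝ × ℝ) × (ℝ × ℝ)) s, a = (2 * s) ^ 4 * a := by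
    rw [setIntegral_const, area4 _ hs, smul_eq_mul]
  rw [← e1]
  have hi1 : IntegrableOn (fun p : (ℝ × ℝ) × (ℝ × ℝ) => |H p.2 - H p.1|)
      (closedBall ((zs, y) : (ℝ × ℝ) × (ℝ × ℝ)) s) :=
    hc.continuousOn.integrableOn_compact (isCompact_closedBall _ _)
  have hi2 : IntegrableOn (fun p : (ℝ × ℝ) × (ℝ × ℝ) => |H p.2 - H p.1|)
      (closedBall ((x, x) : (ℝ × ℝ) × (ℝ × ℝ)) ρ) :=
    hc.continuousOn.integrableOn_compact (isCompact_closedBall _ _)
  calc ∫ p in closedBall ((zs, y) : (ℝ × ℝ) × (ℝ × ℝ)) s, a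
      ≤ ∫ p in closedBall ((zs, y) : (ℝ × ℝ) × (ℝ × ℝ)) s, |H p.2 - H p.1| := by
        apply setIntegral_mono_on
        · exact integrableOn_const (isCompact_closedBall _ _).measure_lt_top.ne
        · exact hi1
        · exact isClosed_closedBall.measurableSet
        · intro p hp
          rw [← closedBall_prod_same] at hp
          have := h p.1 hp.1 p.2 hp.2
          exact this.trans ((le_abs_self _).trans (by rw [abs_sub_comm]))
    _ ≤ ∫ p in closedBall ((x, x) : (ℝ × ℝ) × (ℝ × ℝ)) ρ, |H p.2 - H p.1| := by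
        apply setIntegral_mono_set hi2
        · exact Filter.Eventually.of_forall fun _ => abs_nonneg _
        · apply LE.le.eventuallyLE
          rw [← closedBall_prod_same zs y s, ← closedBall_prod_same x x ρ]
          apply Set.prod_mono
          · exact closedBall_subset_closedBall' (by linarith)
          · exact closedBall_subset_closedBall' (by linarith)

lemma index_total {H : ℝ × ℝ → ℝ} (hH : Continuous H) {ρ E : ℝ} (hρ : 0 ≤ ρ)
    (hρ1 : ρ ≤ 1 / 2)
    (h : ∀ ζ : ℝ × ℝ, ‖ζ‖ ≤ 2 * ρ → ∫ z in closedBall (0 : ℝ × ℝ) 1, |H (z + ζ) - H z| ≤ E) :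
    IntegrableOn (fun x : ℝ × ℝ => ∫ p in closedBall ((x, x) : (ℝ × ℝ) × (ℝ × ℝ)) ρ,
      |H p.2 - H p.1|) (closedBall (0 : ℝ × ℝ) (1 / 2)) ∧
    ∫ x in closedBall (0 : ℝ × ℝ) (1 / 2),
      ∫ p in closedBall ((x, x) : (ℝ × ℝ) × (ℝ × ℝ)) ρ, |H p.2 - H p.1| ≤ (2 * ρ) ^ 4 * E := by
  have hF : Continuous fun y : (ℝ × ℝ) × ((ℝ × ℝ) × (ℝ × ℝ)) =>
      |H (y.1 + y.2.2) - H (y.1 + y.2.1)| := by fun_prop
  have e1 : (fun x : ℝ × ℝ => ∫ p in closedBall ((x, x) : (ℝ × ℝ) × (ℝ × ℝ)) ρ,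
      |H p.2 - H p.1|) = fun x => ∫ w in closedBall (0 : (ℝ × ℝ) × (ℝ × ℝ)) ρ,
        |H (x + w.2) - H (x + w.1)| := by
    funext x
    rw [shift4]
    rfl
  have hint : Integrable (Function.uncurry fun (x : ℝ × ℝ) (w : (ℝ × ℝ) × (ℝ × ℝ)) =>
      |H (x + w.2) - H (x + w.1)|)
      (((volume : Measure (ℝ × ℝ)).restrict (closedBall (0 : ℝ × ℝ) (1 / 2))).prod
        ((volume : Measure ((ℝ × ℝ) × (ℝ × ℝ))).restrict
          (closedBall (0 : (ℝ × ℝ) × (ℝ × ℝ)) ρ))) := by
    rw [Measure.prod_restrict]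
    have : IntegrableOn (fun y : (ℝ × ℝ) × ((ℝ × ℝ) × (ℝ × ℝ)) =>
      |H (y.1 + y.2.2) - H (y.1 + y.2.1)|) (closedBall (0 : ℝ × ℝ) (1 / 2) ×ˢ
        closedBall (0 : (ℝ × ℝ) × (ℝ × ℝ)) ρ) volume :=
      hF.continuousOn.integrableOn_compact ((isCompact_closedBall _ _).prod
        (isCompact_closedBall _ _))
    exact this
  constructor
  · rw [e1]
    exact hint.integral_prod_left
  · rw [show (∫ x in closedBall (0 : ℝ × ℝ) (1 / 2),
      ∫ p in closedBall ((x, x) : (ℝ × ℝ) × (ℝ × ℝ)) ρ, |H p.2 - H p.1|) =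
      ∫ x in closedBall (0 : ℝ × ℝ) (1 / 2), ∫ w in closedBall (0 : (ℝ × ℝ) × (ℝ × ℝ)) ρ,
        |H (x + w.2) - H (x + w.1)| from by rw [e1]]
    rw [integral_integral_swap hint]
    have h2 : ∀ w ∈ closedBall (0 : (ℝ × ℝ) × (ℝ × ℝ)) ρ,
        ‖∫ x in closedBall (0 : ℝ × ℝ) (1 / 2), |H (x + w.2) - H (x + w.1)|‖ ≤ E := by
      intro w hw
      have hw1 : ‖w.1‖ ≤ ρ := (norm_fst_le w).trans (by simpa using hw)
      have hw2 : ‖w.2‖ ≤ ρ := (norm_snd_le w).trans (by simpa using hw)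
      rw [Real.norm_of_nonneg (integral_nonneg fun _ => abs_nonneg _)]
      have e2 : ∫ x in closedBall (0 : ℝ × ℝ) (1 / 2), |H (x + w.2) - H (x + w.1)| =
          ∫ z in closedBall w.1 (1 / 2), |H (z + (w.2 - w.1)) - H z| := by
        rw [shift2 w.1]
        congr 1
        funext x
        have a1 : x + w.2 = w.1 + x + (w.2 - w.1) := by abel
        have a2 : x + w.1 = w.1 + x := add_comm _ _
        rw [a1, a2]
      rw [e2]
      have hc : Continuous fun z : ℝ × ℝ => |H (z + (w.2 - w.1)) - H z| := by fun_prop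
      refine le_trans ?_ (h (w.2 - w.1) ?_)
      · apply setIntegral_mono_set (hc.continuousOn.integrableOn_compact (isCompact_closedBall _ _))
        · exact Filter.Eventually.of_forall fun _ => abs_nonneg _
        · apply LE.le.eventuallyLE
          apply closedBall_subset_closedBall'
          rw [dist_zero_right]
          linarith
      · calc ‖w.2 - w.1‖ ≤ ‖w.2‖ + ‖w.1‖ := norm_sub_le _ _
          _ ≤ 2 * ρ := by linarith
    have h3 := norm_setIntegral_le_of_norm_le_const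
      (μ := (volume : Measure ((ℝ × ℝ) × (ℝ × ℝ))))
      (isCompact_closedBall (0 : (ℝ × ℝ) × (ℝ × ℝ)) ρ).measure_lt_top h2
    rw [area4 _ hρ] at h3
    calc _ ≤ ‖∫ w in closedBall (0 : (ℝ × ℝ) × (ℝ × ℝ)) ρ,
          ∫ x in closedBall (0 : ℝ × ℝ) (1 / 2), |H (x + w.2) - H (x + w.1)|‖ := Real.le_norm_self _
      _ ≤ E * (2 * ρ) ^ 4 := h3
      _ = (2 * ρ) ^ 4 * E := mul_comm _ _

lemma sol_mono {q u : ℝ × ℝ → ℝ} {Λ : ℝ} {S T : Set (ℝ × ℝ)} (h : Sol q u Λ S)
    (hT : T ⊆ S) : Sol q u Λ T where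
  smooth_q := h.smooth_q
  smooth_u := h.smooth_u
  eq := fun p hp => h.eq p (hT hp)
  bq := fun p hp => h.bq p (hT hp)
  bq1 := fun p hp => h.bq1 p (hT hp)
  bq2 := fun p hp => h.bq2 p (hT hp)

/-- pigeonhole -/
lemma pigeon {n : ℕ} (hn : 0 < n) {a : ℕ → ℝ} {X : ℝ} (h : a n - a 0 ≤ X) :
    ∃ k < n, a (k + 1) - a k ≤ X / n := by
  by_contra hcon
  push Not at hcon
  have hn' : (0 : ℝ) < n := by exact_mod_cast hn
  have h1 : ∑ k ∈ Finset.range n, X / (n : ℝ) < ∑ k ∈ Finset.range n, (a (k + 1) - a k) := by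
    apply Finset.sum_lt_sum_of_nonempty
    · exact ⟨0, Finset.mem_range.mpr hn⟩
    · intro k hk
      exact hcon k (Finset.mem_range.mp hk)
  rw [Finset.sum_range_sub, Finset.sum_const, Finset.card_range, nsmul_eq_mul,
    mul_div_cancel₀ _ hn'.ne'] at h1
  linarith

/-! ### The potential -/

lemma potential : ∃ C : ℝ, 1 ≤ C ∧ ∀ (t d L0 : ℝ) (H Hp : ℝ × ℝ → ℝ), 0 < t → 0 < d →
    d ≤ 1 → 0 ≤ L0 → Continuous Hp → (∀ p, -L0 ≤ Hp p ∧ Hp p ≤ 0) →
    (∀ p, ∀ p' ∈ closedBall p d, H p ≤ Hp p') →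
    ∃ f ψ : ℝ × ℝ → ℝ, Smooth f ∧ Smooth ψ ∧ (∀ p, ψ p - t * lap ψ p = f p) ∧
      (∀ p, -L0 ≤ ψ p ∧ ψ p ≤ 0) ∧ (∀ p, H p ≤ f p) ∧
      (∀ w : List Bool, w.length ≤ 3 → ∀ p, |der w ψ p| ≤ C * L0 / d ^ 3) ∧
      ∫ p in closedBall (0 : ℝ × ℝ) 2, f p ≤ ∫ p in closedBall (0 : ℝ × ℝ) (2 - d), Hp p := by
  obtain ⟨Cm, hCm, hmol⟩ := mollify
  obtain ⟨χ, hχ, hχc, hχ1, hχa, -⟩ := exists_cutoff (a := 11 / 4) (b := 3) (by norm_num)
    (by norm_num)
  obtain ⟨C1, hC1, hχb⟩ := exists_bound hχ hχc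
  refine ⟨8 * (C1 * Cm), by nlinarith, ?_⟩
  intro t d L0 H Hp ht hd hd1 hL0 hHp hb hle
  obtain ⟨f0, hf0, hf0b, hf0a, hf0d, hf0i⟩ := hmol Hp L0 d hHp hL0 hd hd1 hb
  have hfs : Smooth (fun p => χ p * f0 p) := hχ.mul hf0
  obtain ⟨ψ, hψ, hψe, hψb⟩ := resolvent ht hfs hχc.mul_right
  have hX : 0 ≤ 8 * (C1 * Cm) * L0 / d ^ 3 := by positivity
  have hder : ∀ w : List Bool, w.length ≤ 3 → ∀ p,
      |der w (fun p => χ p * f0 p) p| ≤ 8 * (C1 * Cm) * L0 / d ^ 3 := by
    intro w hw p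
    have h := abs_der_mul_le hχ hf0 (a := C1) (b := Cm * L0 / d ^ 3) (p := p)
      (fun w hw => hχb w hw p) (fun w hw => (hf0d w hw p).trans ?_) w hw
    · refine h.trans (le_of_eq ?_)
      ring
    · apply div_le_div_of_nonneg_left (by positivity) (by positivity)
      exact pow_le_pow_of_le_one hd.le hd1 hw
  have hfb : ∀ p, -L0 ≤ χ p * f0 p ∧ χ p * f0 p ≤ 0 := by
    intro p
    have h1 := hχ1 p
    have h2 := hf0b p
    constructor
    · nlinarith [mul_nonneg (sub_nonneg.mpr h1.2) (neg_nonneg.mpr h2.2)]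
    · exact mul_nonpos_of_nonneg_of_nonpos h1.1 h2.2
  refine ⟨_, ψ, hfs, hψ, hψe, ?_, ?_, ?_, ?_⟩
  · exact hψb [] (-L0) 0 (by linarith) le_rfl hfb
  · intro p
    have h0 : H p ≤ f0 p := hf0a p (H p) (hle p)
    have h1 := hχ1 p
    have h2 := hf0b p
    show H p ≤ χ p * f0 p
    nlinarith [mul_nonneg (sub_nonneg.mpr h1.2) (neg_nonneg.mpr h2.2)]
  · intro w hw p
    exact abs_le.mpr (hψb w _ _ (neg_nonpos.mpr hX) hX (fun p => abs_le.mp (hder w hw p)) p)
  · calc ∫ p in closedBall (0 : ℝ × ℝ) 2, χ p * f0 p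
        = ∫ p in closedBall (0 : ℝ × ℝ) 2, f0 p := by
          apply setIntegral_congr_fun isClosed_closedBall.measurableSet
          intro p hp
          show χ p * f0 p = f0 p
          rw [hχa p (closedBall_subset_closedBall (by norm_num) hp), one_mul]
      _ ≤ _ := hf0i 2 (by linarith)

/-! ### The comparison -/

lemma barrier : ∃ Cb : ℝ, 1 ≤ Cb ∧ ∀ (X L0 t : ℝ), 0 ≤ X → 1 ≤ L0 → 0 < t →
    ∃ K : ℝ, 1 ≤ K ∧ ∀ (m Λ : ℝ) (q u f ψ H : ℝ × ℝ → ℝ) (σ : ℝ), K ≤ m → 0 ≤ Λ →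
      K ^ 2 * Λ ≤ m ^ 2 → Sol q u Λ (closedBall 0 4) →
      (∀ p ∈ closedBall (0 : ℝ × ℝ) 4, |u p| ≤ 1) → 0 ≤ σ → σ ≤ 1 → Smooth ψ →
      (∀ w : List Bool, w.length ≤ 3 → ∀ p, |der w ψ p| ≤ X) →
      (∀ p, -L0 ≤ ψ p) → (∀ p, ψ p - t * lap ψ p = f p) → (∀ p, H p ≤ f p) →
      (∀ z ∈ closedBall (0 : ℝ × ℝ) 3, 0 < M u z σ ∧ H z = (1 / m) * Real.log (M u z σ)) →
      ∀ z ∈ closedBall (0 : ℝ × ℝ) 2, H z ≤ ψ z + (4 * Cb + 21) * t * L0 := by
  obtain ⟨χ, hχ, hχc, hχ1, hχa, hχ0⟩ := exists_cutoff (a := 2) (b := 5 / 2) (by norm_num)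
    (by norm_num)
  obtain ⟨C2, hC2, hχb⟩ := exists_bound hχ hχc
  obtain ⟨Cb, hCb⟩ : ∃ Cb, Cb = 1 + C2 := ⟨_, rfl⟩
  have hCb1 : 1 ≤ Cb := by linarith
  refine ⟨Cb, hCb1, ?_⟩
  intro X L0 t hX hL0 ht
  have hL0' : 0 < L0 := by linarith
  obtain ⟨μ, hμ⟩ : ∃ μ, μ = (4 * Cb + 21) * t * L0 := ⟨_, rfl⟩
  have hμ0 : 0 < μ := by rw [hμ]; positivity
  obtain ⟨K, hK, hcomp⟩ := comparison (X + (L0 + 1) * Cb) 1 (1 / 8) μ (11 / 4)
    (by nlinarith) one_pos (by norm_num) hμ0 (by norm_num)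
  refine ⟨K, hK, ?_⟩
  intro m Λ q u f ψ H σ hKm hΛ hKΛ hsol hu1 hσ hσ1 hψ hψb hψL hψe hHf hHz
  have hm : 0 < m := by linarith
  -- the barrier
  obtain ⟨β, hβ⟩ : ∃ β : ℝ × ℝ → ℝ, β = fun p => 1 + (-1) * χ p := ⟨_, rfl⟩
  have hχm : Smooth (fun p => (-1) * χ p) := contDiff_const.mul hχ
  have h1s : Smooth (fun _ : ℝ × ℝ => (1 : ℝ)) := contDiff_const
  have hβs : Smooth β := by rw [hβ]; exact h1s.add hχm
  have hβ0 : ∀ p, 0 ≤ β p := by
    intro p
    rw [hβ]
    have := (hχ1 p).2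
    show 0 ≤ 1 + (-1) * χ p
    linarith
  have hβd : ∀ w : List Bool, w.length ≤ 3 → ∀ p, |der w β p| ≤ Cb := by
    intro w hw p
    rw [hβ, der_add h1s hχm w, der_const_mul hχ (-1) w]
    calc |der w (fun _ => (1 : ℝ)) p + (-1) * der w χ p|
        ≤ |der w (fun _ => (1 : ℝ)) p| + |(-1) * der w χ p| := abs_add_le _ _
      _ ≤ |(1 : ℝ)| + |der w χ p| := by
          apply add_le_add (abs_der_const_le 1 w p)
          rw [abs_mul, abs_neg, abs_one, one_mul]
      _ ≤ Cb := by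
          rw [abs_one, hCb]
          linarith [hχb w hw p]
  have hLβ : Smooth (fun p => (L0 + 1) * β p) := contDiff_const.mul hβs
  obtain ⟨Ψ, hΨ⟩ : ∃ Ψ : ℝ × ℝ → ℝ, Ψ = fun p => ψ p + (L0 + 1) * β p := ⟨_, rfl⟩
  have hΨs : Smooth Ψ := by rw [hΨ]; exact hψ.add hLβ
  have hΨd : ∀ w : List Bool, ∀ p, der w Ψ p = der w ψ p + (L0 + 1) * der w β p := by
    intro w p
    rw [hΨ, der_add hψ hLβ w, der_const_mul hβs (L0 + 1) w]
  have hlap : ∀ p, lap Ψ p = lap ψ p + (L0 + 1) * lap β p := by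
    intro p
    have e1 := hΨd [false, false] p
    have e2 := hΨd [true, true] p
    simp only [der] at e1 e2
    unfold lap
    rw [e1, e2]
    ring
  have hlapβ : ∀ p, lap β p ≤ 2 * Cb := by
    intro p
    have e1 := hβd [false, false] (by simp) p
    have e2 := hβd [true, true] (by simp) p
    simp only [der] at e1 e2
    have e3 := (abs_le.mp e1).2
    have e4 := (abs_le.mp e2).2
    unfold lap
    linarith
  -- the comparison for translates
  have key : ∀ ξ : ℝ × ℝ, ‖ξ‖ ≤ σ → ∀ z ∈ closedBall (0 : ℝ × ℝ) (11 / 4),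
      |u (ξ + z)| ≤ Real.exp (m * (Ψ z + μ)) := by
    intro ξ hξ
    have hmem : ∀ p ∈ closedBall (0 : ℝ × ℝ) (11 / 4), ξ + (1 : ℝ) • p ∈ closedBall (0 : ℝ × ℝ) 4 := by
      intro p hp
      rw [one_smul]
      rw [mem_closedBall_zero_iff] at hp ⊢
      calc ‖ξ + p‖ ≤ ‖ξ‖ + ‖p‖ := norm_add_le _ _
        _ ≤ 4 := by linarith
    have hs1 := hsol.scale ξ (r := 1) zero_le_one le_rfl hmem
    simp only [one_pow, one_mul, one_smul] at hs1
    apply hcomp m Λ (fun x => q (ξ + x)) (fun x => u (ξ + x)) Ψ 0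
      (closedBall (0 : ℝ × ℝ) (11 / 4)) (closedBall (0 : ℝ × ℝ) (21 / 8)) hKm hΛ hKΛ
      (isCompact_closedBall _ _) subset_rfl (closedBall_subset_closedBall (by norm_num))
    · intro z hz
      apply closedBall_subset_closedBall'
      rw [mem_closedBall] at hz
      linarith
    · exact hs1
    · exact hΨs
    · intro w _ hw z _
      rw [hΨd w z]
      calc |der w ψ z + (L0 + 1) * der w β z|
          ≤ |der w ψ z| + |(L0 + 1) * der w β z| := abs_add_le _ _
        _ ≤ X + (L0 + 1) * Cb := by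
          apply add_le_add (hψb w hw z)
          rw [abs_mul, abs_of_nonneg (by linarith : 0 ≤ L0 + 1)]
          exact mul_le_mul_of_nonneg_left (hβd w hw z) (by linarith)
    · intro z hz hz'
      have h1 : |u (ξ + z)| ≤ 1 := by
        apply hu1
        have := hmem z hz
        rwa [one_smul] at this
      have h2 : β z = 1 := by
        rw [hβ]
        show 1 + (-1) * χ z = 1
        rw [hχ0 z fun h => hz' (closedBall_subset_closedBall (by norm_num) h)]
        ring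
      have h3 : 1 ≤ Ψ z := by
        rw [hΨ]
        show 1 ≤ ψ z + (L0 + 1) * β z
        rw [h2]
        linarith [hψL z]
      refine h1.trans ?_
      exact Real.one_le_exp (by nlinarith)
    · intro z hz hz'
      have hz3 : z ∈ closedBall (0 : ℝ × ℝ) 3 := closedBall_subset_closedBall (by norm_num) hz
      obtain ⟨hMp, hHe⟩ := hHz z hz3
      have h1 : |u (ξ + z)| ≤ M u z σ := by
        apply le_M hsol.smooth_u.continuous
        rw [mem_closedBall, dist_eq_norm]
        simpa using hξ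
      have h2 : m * (Ψ z + μ) < Real.log (M u z σ) := by
        rw [Real.lt_log_iff_exp_lt hMp]
        exact lt_of_lt_of_le hz' h1
      have h3 : Real.log (M u z σ) = m * H z := by
        rw [hHe]
        field_simp
      rw [h3] at h2
      have h4 : Ψ z + μ < H z := lt_of_mul_lt_mul_left h2 hm.le
      have h5 : ψ z ≤ Ψ z := by
        rw [hΨ]
        show ψ z ≤ ψ z + (L0 + 1) * β z
        have := mul_nonneg (by linarith : 0 ≤ L0 + 1) (hβ0 z)
        linarith
      have h6 := hψe z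
      have h7 := hHf z
      have h8 : t * (lap ψ z + (4 * Cb + 21) * L0) < 0 := by
        have : t * (lap ψ z + (4 * Cb + 21) * L0) = t * lap ψ z + μ := by rw [hμ]; ring
        rw [this]
        linarith
      have h9 : lap ψ z + (4 * Cb + 21) * L0 < 0 := by
        by_contra hcon
        rw [not_lt] at hcon
        have := mul_nonneg ht.le hcon
        linarith
      rw [hlap z]
      have h10 : (L0 + 1) * lap β z ≤ (L0 + 1) * (2 * Cb) :=
        mul_le_mul_of_nonneg_left (hlapβ z) (by linarith)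
      nlinarith
  intro z hz
  have hz3 : z ∈ closedBall (0 : ℝ × ℝ) 3 := closedBall_subset_closedBall (by norm_num) hz
  obtain ⟨hMp, hHe⟩ := hHz z hz3
  obtain ⟨p, hp, hpM⟩ := exists_M (u := u) hsol.smooth_u.continuous (z := z) hσ
  have h1 := key (p - z) (by rwa [mem_closedBall, dist_eq_norm] at hp) z
    (closedBall_subset_closedBall (by norm_num) hz)
  rw [sub_add_cancel, hpM] at h1
  have h2 : β z = 0 := by
    rw [hβ]
    show 1 + (-1) * χ z = 0
    rw [hχa z hz]
    ring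
  have h3 : Ψ z = ψ z := by
    rw [hΨ]
    show ψ z + (L0 + 1) * β z = ψ z
    rw [h2]
    ring
  rw [h3] at h1
  have h4 : Real.log (M u z σ) ≤ m * (ψ z + μ) := by
    rw [Real.log_le_iff_le_exp hMp]
    exact h1
  rw [hHe, ← hμ]
  rw [one_div, ← div_eq_inv_mul, div_le_iff₀ hm]
  linarith

/-! ### The function `H` -/

lemma step_core : ∃ Ce : ℝ, 1 ≤ Ce ∧ ∀ A : ℝ, 4 ≤ A → ∃ K : ℝ, 1 ≤ K ∧
    ∀ (B m Λ : ℝ) (q u : ℝ × ℝ → ℝ), 32 ≤ B → K ≤ m → 0 ≤ Λ → K ^ 2 * Λ ≤ m ^ 2 →
      Sol q u Λ (closedBall 0 B) → (∀ p ∈ closedBall (0 : ℝ × ℝ) B, |u p| ≤ 1) →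
      (∀ y ∈ closedBall (0 : ℝ × ℝ) (B / 2), Real.exp (-m) ≤ M u y 1) →
      ∃ (H : ℝ × ℝ → ℝ) (σ : ℝ), Continuous H ∧ 1 / (4 * A) ≤ σ ∧ σ ≤ 1 / (2 * A) ∧
        (∀ z ∈ closedBall (0 : ℝ × ℝ) 3, ∀ r, 1 / (4 * A) ≤ r → 0 < M u z r) ∧
        (∀ z ∈ closedBall (0 : ℝ × ℝ) 3, H z = (1 / m) * Real.log (M u z σ)) ∧
        ∀ ζ : ℝ × ℝ, ‖ζ‖ ≤ 1 / 4 → ∫ z in closedBall (0 : ℝ × ℝ) 1, |H (z + ζ) - H z| ≤
          Ce * (1 / A + ‖ζ‖) * (2 * Real.log (64 * A)) := by
  obtain ⟨Cp, hCp, hpot⟩ := potential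
  obtain ⟨Cb, hCb, hbar⟩ := barrier
  obtain ⟨Ce, hCe, hen⟩ := energy (4 * Cb + 21) (by linarith)
  refine ⟨Ce, hCe, ?_⟩
  intro A hA
  have hA0 : 0 < A := by linarith
  -- the parameters
  obtain ⟨t, ht⟩ : ∃ t, t = 1 / A := ⟨_, rfl⟩
  have ht0 : 0 < t := by rw [ht]; positivity
  have htA : t * A = 1 := by rw [ht]; field_simp
  have ht1 : t ≤ 1 / 4 := by rw [ht]; exact one_div_le_one_div_of_le (by norm_num) hA
  obtain ⟨s, hs⟩ : ∃ s, s = 1 / (4 * A) := ⟨_, rfl⟩
  have hst : s = t / 4 := by rw [hs, ht]; field_simp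
  have hs0 : 0 < s := by rw [hs]; positivity
  have hs1 : s ≤ 1 / 16 := by rw [hst]; linarith
  obtain ⟨L0, hL0⟩ : ∃ L0, L0 = 2 * Real.log (64 * A) := ⟨_, rfl⟩
  have hL1 : 1 ≤ L0 := by
    have h1 : 1 ≤ Real.log (64 * A) := by
      rw [Real.le_log_iff_exp_le (by positivity)]
      have := Real.exp_one_lt_d9
      linarith
    linarith
  have hL0' : 0 < L0 := by linarith
  have h16 : 16 / s = 64 * A := by rw [hs]; field_simp; norm_num
  obtain ⟨n, hn⟩ : ∃ n : ℕ, n = ⌈A⌉₊ := ⟨_, rfl⟩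
  have hnA : A ≤ n := by rw [hn]; exact Nat.le_ceil A
  have hn0 : 0 < n := by
    have : (0 : ℝ) < n := by linarith
    exact_mod_cast this
  have hn0' : (0 : ℝ) < n := by exact_mod_cast hn0
  obtain ⟨d, hd⟩ : ∃ d, d = s / n := ⟨_, rfl⟩
  have hd0 : 0 < d := by rw [hd]; positivity
  have hdn : n * d = s := by rw [hd]; field_simp
  have hd1 : d ≤ s * t := by
    rw [hd, ht, mul_one_div]
    exact div_le_div_of_nonneg_left hs0.le hA0 hnA
  have hd2 : d ≤ t / 16 := by
    have : s * t ≤ 1 / 16 * t := mul_le_mul_of_nonneg_right hs1 ht0.le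
    linarith only [this, hd1]
  obtain ⟨X, hX⟩ : ∃ X, X = Cp * L0 / d ^ 3 := ⟨_, rfl⟩
  have hX0 : 0 ≤ X := by rw [hX]; positivity
  obtain ⟨K1, hK1, h3b⟩ := three_ball s hs0 (by linarith)
  obtain ⟨K2, hK2, hcmp⟩ := hbar X L0 t hX0 hL1 ht0
  refine ⟨max K1 K2, hK1.trans (le_max_left _ _), ?_⟩
  intro B m Λ q u hB hKm hΛ hKΛ hsol hu1 hlow
  have hm1 : K1 ≤ m := (le_max_left _ _).trans hKm
  have hm2 : K2 ≤ m := (le_max_right _ _).trans hKm
  have hm : 0 < m := by linarith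
  have hΛ1 : K1 ^ 2 * Λ ≤ m ^ 2 := by
    refine le_trans ?_ hKΛ
    apply mul_le_mul_of_nonneg_right _ hΛ
    exact pow_le_pow_left₀ (by linarith) (le_max_left _ _) 2
  have hΛ2 : K2 ^ 2 * Λ ≤ m ^ 2 := by
    refine le_trans ?_ hKΛ
    apply mul_le_mul_of_nonneg_right _ hΛ
    exact pow_le_pow_left₀ (by linarith) (le_max_right _ _) 2
  have huc : Continuous u := hsol.smooth_u.continuous
  -- lower bound of the maxima
  have hMlow : ∀ z ∈ closedBall (0 : ℝ × ℝ) 3, ∀ r, s ≤ r →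
      Real.exp (-(m * L0)) ≤ M u z r := by
    intro z hz r hr
    rw [mem_closedBall, dist_zero_right] at hz
    have hsub : closedBall z 8 ⊆ closedBall (0 : ℝ × ℝ) B := by
      apply closedBall_subset_closedBall'
      rw [dist_zero_right]
      linarith
    obtain ⟨y, hy, hyM⟩ := exists_M (u := u) huc (z := z) zero_le_one
    have h1 := h3b m Λ q u z y hm1 hΛ hΛ1 (sol_mono hsol hsub) (fun p hp => hu1 p (hsub hp))
      (closedBall_subset_closedBall (by norm_num) hy) (by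
        rw [hyM]
        apply hlow
        rw [mem_closedBall, dist_zero_right]
        linarith)
    rw [h16, ← hL0] at h1
    exact h1.trans (M_mono huc hs0.le (closedBall_subset_closedBall hr))
  have hMup : ∀ z ∈ closedBall (0 : ℝ × ℝ) 3, ∀ r, 0 ≤ r → r ≤ 1 → M u z r ≤ 1 := by
    intro z hz r hr hr1
    rw [mem_closedBall, dist_zero_right] at hz
    apply M_le hr
    intro p hp
    apply hu1
    rw [mem_closedBall, dist_zero_right]
    rw [mem_closedBall, dist_eq_norm] at hp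
    have : ‖p‖ ≤ ‖p - z‖ + ‖z‖ := by
      have := norm_add_le (p - z) z
      rwa [sub_add_cancel] at this
    linarith
  -- the family
  obtain ⟨G, hG⟩ : ∃ G : ℕ → ℝ × ℝ → ℝ, G = fun (k : ℕ) z => Th m L0 (M u z (s + k * d)) := ⟨_, rfl⟩
  have hGc : ∀ k, Continuous (G k) := by
    intro k
    rw [hG]
    exact (Th_cont m L0).comp (continuous_M huc (by positivity))
  have hGb : ∀ k p, -L0 ≤ G k p ∧ G k p ≤ 0 := by
    intro k p
    rw [hG]
    exact ⟨Th_ge hm _, Th_nonpos hm hL0'.le _⟩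
  have hGi : ∀ k R, IntegrableOn (G k) (closedBall (0 : ℝ × ℝ) R) := fun k R =>
    (hGc k).continuousOn.integrableOn_compact (isCompact_closedBall _ _)
  obtain ⟨k, hkn, hk⟩ := pigeon hn0 (a := fun k => ∫ p in closedBall (0 : ℝ × ℝ) 2, G k p)
    (X := 16 * L0) (by
      show (∫ p in closedBall (0 : ℝ × ℝ) 2, G n p) - ∫ p in closedBall (0 : ℝ × ℝ) 2, G 0 p ≤ _
      have h1 : ∫ p in closedBall (0 : ℝ × ℝ) 2, G n p ≤ 0 := by
        apply setIntegral_nonpos isClosed_closedBall.measurableSet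
        intro p _
        exact (hGb n p).2
      have h2 : ∫ p in closedBall (0 : ℝ × ℝ) 2, (-L0) ≤ ∫ p in closedBall (0 : ℝ × ℝ) 2, G 0 p := by
        apply setIntegral_mono_on
          (integrableOn_const (isCompact_closedBall _ _).measure_lt_top.ne) (hGi 0 2)
          isClosed_closedBall.measurableSet
        intro p _
        exact (hGb 0 p).1
      rw [setIntegral_const, area2 _ (by norm_num), smul_eq_mul] at h2
      linarith)
  have hkn' : (k : ℝ) + 1 ≤ n := by exact_mod_cast hkn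
  obtain ⟨σ, hσ⟩ : ∃ σ, σ = s + k * d := ⟨_, rfl⟩
  have hσs : s ≤ σ := by
    rw [hσ]
    have : 0 ≤ (k : ℝ) * d := by positivity
    linarith
  have hσ2 : σ ≤ 2 * s := by
    rw [hσ]
    have : (k : ℝ) * d ≤ n * d := mul_le_mul_of_nonneg_right (by linarith) hd0.le
    linarith
  have hσ0 : 0 < σ := by linarith
  have hHz : ∀ z ∈ closedBall (0 : ℝ × ℝ) 3, G k z = (1 / m) * Real.log (M u z σ) := by
    intro z hz
    rw [hG]
    show Th m L0 (M u z (s + k * d)) = _
    rw [← hσ]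
    exact Th_eq (hMlow z hz σ hσs) (hMup z hz σ hσ0.le (by linarith))
  have hHp : ∀ p, ∀ p' ∈ closedBall p d, G k p ≤ G (k + 1) p' := by
    intro p p' hp'
    rw [hG]
    show Th m L0 (M u p (s + k * d)) ≤ Th m L0 (M u p' (s + (k + 1 : ℕ) * d))
    apply Th_mono hm
    apply M_mono huc (by positivity)
    apply closedBall_subset_closedBall'
    rw [mem_closedBall, dist_comm] at hp'
    push_cast
    linarith
  obtain ⟨f, ψ, hf, hψ, hψe, hψ0, hHf, hψd, hfi⟩ := hpot t d L0 (G k) (G (k + 1)) ht0 hd0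
    (by linarith) hL0'.le (hGc (k + 1)) (hGb (k + 1)) hHp
  have hsub4 : closedBall (0 : ℝ × ℝ) 4 ⊆ closedBall (0 : ℝ × ℝ) B :=
    closedBall_subset_closedBall (by linarith)
  have hHψ := hcmp m Λ q u f ψ (G k) σ hm2 hΛ hΛ2 (sol_mono hsol hsub4)
    (fun p hp => hu1 p (hsub4 hp)) hσ0.le (by linarith) hψ
    (fun w hw p => by rw [hX]; exact hψd w hw p) (fun p => (hψ0 p).1) hψe hHf
    (fun z hz => ⟨lt_of_lt_of_le (Real.exp_pos _) (hMlow z hz σ hσs), hHz z hz⟩)
  -- the integral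
  have hint : ∫ p in closedBall (0 : ℝ × ℝ) 2, (f p - G k p) ≤ (4 * Cb + 21) * t * L0 := by
    have hfI : IntegrableOn f (closedBall (0 : ℝ × ℝ) 2) :=
      hf.continuous.continuousOn.integrableOn_compact (isCompact_closedBall _ _)
    rw [integral_sub hfI (hGi k 2)]
    have h1 : ∫ p in closedBall (0 : ℝ × ℝ) (2 - d), (G (k + 1) p + L0) ≤
        ∫ p in closedBall (0 : ℝ × ℝ) 2, (G (k + 1) p + L0) := by
      apply setIntegral_mono_set
      · exact ((hGc (k + 1)).add continuous_const).continuousOn.integrableOn_compact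
          (isCompact_closedBall _ _)
      · refine Filter.Eventually.of_forall fun p => ?_
        show 0 ≤ G (k + 1) p + L0
        linarith [(hGb (k + 1) p).1]
      · apply LE.le.eventuallyLE
        exact closedBall_subset_closedBall (by linarith)
    rw [integral_add (hGi (k + 1) _) (integrableOn_const
        (isCompact_closedBall _ _).measure_lt_top.ne),
      integral_add (hGi (k + 1) _) (integrableOn_const
        (isCompact_closedBall _ _).measure_lt_top.ne), setIntegral_const, setIntegral_const,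
      area2 _ (by linarith), area2 _ (by norm_num), smul_eq_mul, smul_eq_mul] at h1
    have h2 : 16 * L0 / n ≤ 16 * L0 * t := by
      rw [ht, mul_one_div]
      exact div_le_div_of_nonneg_left (by positivity) hA0 hnA
    have h3 : (2 * 2) ^ 2 * L0 - (2 * (2 - d)) ^ 2 * L0 ≤ 16 * d * L0 := by
      have h30 : (2 * 2) ^ 2 * L0 - (2 * (2 - d)) ^ 2 * L0 = 16 * d * L0 - 4 * (d ^ 2 * L0) := by
        ring
      have h31 : 0 ≤ d ^ 2 * L0 := by positivity
      linarith only [h30, h31]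
    have h4 : 16 * d * L0 ≤ t * L0 :=
      mul_le_mul_of_nonneg_right (by linarith only [hd2]) hL0'.le
    have h5 : 17 * (t * L0) ≤ (4 * Cb + 21) * (t * L0) :=
      mul_le_mul_of_nonneg_right (by linarith only [hCb]) (by positivity)
    have h6 : (4 * Cb + 21) * t * L0 = (4 * Cb + 21) * (t * L0) := by ring
    have h7 : 16 * L0 * t = 16 * (t * L0) := by ring
    rw [h6]
    rw [h7] at h2
    linarith only [h1, h2, h3, h4, h5, hk, hfi]
  refine ⟨G k, σ, hGc k, ?_, ?_, ?_, hHz, ?_⟩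
  · rw [← hs]; exact hσs
  · have : 1 / (2 * A) = 2 * s := by rw [hs]; field_simp; norm_num
    rw [this]; exact hσ2
  · intro z hz r hr
    exact lt_of_lt_of_le (Real.exp_pos _) (hMlow z hz r (by rw [hs]; exact hr))
  · rw [← ht, ← hL0]
    exact hen (G k) f ψ L0 t (hGc k) hf hψ ht0 (by linarith) hL0' (fun p _ => hψe p)
      (fun p _ => hψ0 p) (fun p _ => hHf p) hHψ hint

end StepX

open StepX in
theorem step (B : ℝ) (hB : 32 ≤ B) : ∃ CB : ℝ, 1 ≤ CB ∧ ∃ A0 : ℝ, 4 ≤ A0 ∧ ∀ A : ℝ, A0 ≤ A →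
    ∃ K : ℝ, 1 ≤ K ∧ ∀ (m Λ : ℝ) (q u : ℝ × ℝ → ℝ), K ≤ m → 0 ≤ Λ → K ^ 2 * Λ ≤ m ^ 2 →
      Sol q u Λ (closedBall 0 B) → (∀ p ∈ closedBall (0 : ℝ × ℝ) B, |u p| ≤ 1) →
      (∀ y ∈ closedBall (0 : ℝ × ℝ) (B / 2), Real.exp (-m) ≤ M u y 1) →
      (∀ y ∈ closedBall (0 : ℝ × ℝ) 1, 0 < M u y (1 / A)) ∧
      ∫ x in closedBall (0 : ℝ × ℝ) (1 / 2), Idx B u x (1 / A) ≤ CB * (Real.log A / A) * m := by
  obtain ⟨Ce, hCe, hcore⟩ := step_core
  have hCB : 1 ≤ 4096 * B ^ 4 * Ce * (1 + 4 * B) * 4 := by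
    have h1 : 1 ≤ B ^ 4 := one_le_pow₀ (by linarith)
    have h2 : 1 ≤ B ^ 4 * Ce := one_le_mul_of_one_le_of_one_le h1 hCe
    have h3 : 1 ≤ B ^ 4 * Ce * (1 + 4 * B) := one_le_mul_of_one_le_of_one_le h2 (by linarith)
    linarith
  refine ⟨4096 * B ^ 4 * Ce * (1 + 4 * B) * 4, hCB, max 64 (16 * B),
    le_trans (by norm_num) (le_max_left _ _), ?_⟩
  intro A hA
  have hA64 : 64 ≤ A := (le_max_left _ _).trans hA
  have hAB : 16 * B ≤ A := (le_max_right _ _).trans hA
  have hA0 : 0 < A := by linarith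
  have hB0 : 0 < B := by linarith
  obtain ⟨K, hK, hK'⟩ := hcore A (by linarith)
  refine ⟨K, hK, ?_⟩
  intro m Λ q u hKm hΛ hKΛ hsol hu1 hlow
  have hm : 0 < m := by linarith
  have huc : Continuous u := hsol.smooth_u.continuous
  obtain ⟨H, σ, hH, hσ1, hσ2, hpos, hHz, hHi⟩ := hK' B m Λ q u hB hKm hΛ hKΛ hsol hu1 hlow
  -- the scales
  obtain ⟨r, hr⟩ : ∃ r, r = 1 / A := ⟨_, rfl⟩
  have hr0 : 0 < r := by rw [hr]; positivity
  have hrA : r * A = 1 := by rw [hr]; field_simp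
  have hr64 : r ≤ 1 / 64 := by rw [hr]; exact one_div_le_one_div_of_le (by norm_num) hA64
  have hBr : B * r ≤ 1 / 16 := by
    have : 16 * B * r ≤ A * r := mul_le_mul_of_nonneg_right hAB hr0.le
    nlinarith
  have hs4 : 1 / (4 * A) = r / 4 := by rw [hr]; field_simp
  have hs2 : 1 / (2 * A) = r / 2 := by rw [hr]; field_simp
  rw [hs4] at hσ1 hpos
  rw [hs2] at hσ2
  rw [← hr]
  have hσ0 : 0 < σ := by linarith
  have hpos' : ∀ y ∈ closedBall (0 : ℝ × ℝ) 3, 0 < M u y r := fun y hy =>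
    hpos y hy r (by linarith)
  refine ⟨fun y hy => hpos' y (closedBall_subset_closedBall (by norm_num) hy), ?_⟩
  -- the pointwise bound
  obtain ⟨E, hE⟩ : ∃ E, E = Ce * (1 / A + 4 * (B * r)) * (2 * Real.log (64 * A)) := ⟨_, rfl⟩
  obtain ⟨Φ, hΦ⟩ : ∃ Φ : ℝ × ℝ → ℝ, Φ = fun x =>
    ∫ p in closedBall ((x, x) : (ℝ × ℝ) × (ℝ × ℝ)) (2 * (B * r)), |H p.2 - H p.1| := ⟨_, rfl⟩
  have hlog0 : 0 ≤ 2 * Real.log (64 * A) := by
    have : 0 ≤ Real.log (64 * A) := Real.log_nonneg (by linarith)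
    linarith
  obtain ⟨hΦi, hΦE⟩ := index_total (H := H) hH (ρ := 2 * (B * r)) (E := E) (by positivity)
    (by linarith) (by
      intro ζ hζ
      refine (hHi ζ (by linarith)).trans ?_
      rw [hE]
      apply mul_le_mul_of_nonneg_right _ hlog0
      apply mul_le_mul_of_nonneg_left _ (by linarith)
      linarith)
  have hpt : ∀ x ∈ closedBall (0 : ℝ × ℝ) (1 / 2), Idx B u x r ≤ m / (r / 2) ^ 4 * Φ x := by
    intro x hx
    rw [mem_closedBall, dist_zero_right] at hx
    apply Idx_le (by linarith) hr0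
    intro y hy
    have hy' : dist y x ≤ B * r / 2 := hy
    obtain ⟨zs, hzs, hzM⟩ := exists_M (u := u) huc (z := x) (r := B * r) (by positivity)
    have hzs' : dist zs x ≤ B * r := hzs
    have h32 : 32 * r ≤ B * r := mul_le_mul_of_nonneg_right hB hr0.le
    have hnorm : ∀ w : ℝ × ℝ, dist w x ≤ 2 * (B * r) → w ∈ closedBall (0 : ℝ × ℝ) 3 := by
      intro w hw
      rw [mem_closedBall, dist_zero_right]
      rw [dist_eq_norm] at hw
      have : ‖w‖ ≤ ‖w - x‖ + ‖x‖ := by
        have := norm_add_le (w - x) x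
        rwa [sub_add_cancel] at this
      linarith
    have hav := index_avg (H := H) hH (x := x) (zs := zs) (y := y) (s := r / 4)
      (ρ := 2 * (B * r))
      (a := (1 / m) * (Real.log (M u x (B * r)) - Real.log (M u y r))) (by linarith)
      (by linarith) (by linarith) (by
        intro z hz z' hz'
        rw [mem_closedBall] at hz hz'
        have hz3 : z ∈ closedBall (0 : ℝ × ℝ) 3 := by
          apply hnorm
          have := dist_triangle z zs x
          linarith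
        have hz3' : z' ∈ closedBall (0 : ℝ × ℝ) 3 := by
          apply hnorm
          have := dist_triangle z' y x
          linarith
        rw [hHz z hz3, hHz z' hz3', ← mul_sub]
        apply mul_le_mul_of_nonneg_left _ (by positivity)
        have h1 : Real.log (M u x (B * r)) ≤ Real.log (M u z σ) := by
          apply Real.log_le_log
          · apply hpos x (hnorm x (by rw [dist_self]; positivity)) _ (by linarith)
          · rw [← hzM]
            apply le_M huc
            rw [mem_closedBall, dist_comm]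
            linarith
        have h2 : Real.log (M u z' σ) ≤ Real.log (M u y r) := by
          apply Real.log_le_log (hpos z' hz3' σ (by linarith))
          apply M_mono huc hσ0.le
          apply closedBall_subset_closedBall'
          linarith
        linarith)
    have hp4 : 0 < (2 * (r / 4)) ^ 4 := by positivity
    have e1 : (2 * (r / 4)) ^ 4 = (r / 2) ^ 4 := by ring
    rw [e1] at hav hp4
    rw [hΦ]
    show _ ≤ m / (r / 2) ^ 4 * ∫ p in closedBall ((x, x) : (ℝ × ℝ) × (ℝ × ℝ)) (2 * (B * r)),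
      |H p.2 - H p.1|
    rw [div_mul_eq_mul_div, le_div_iff₀ hp4]
    calc (Real.log (M u x (B * r)) - Real.log (M u y r)) * (r / 2) ^ 4
        = m * ((r / 2) ^ 4 * ((1 / m) * (Real.log (M u x (B * r)) - Real.log (M u y r)))) := by
          field_simp
      _ ≤ _ := mul_le_mul_of_nonneg_left hav hm.le
  -- integration
  have hIc : ContinuousOn (fun x => Idx B u x r) (closedBall (0 : ℝ × ℝ) (1 / 2)) := by
    apply continuousOn_Idx huc (by linarith) hr0
    intro y hy
    exact hpos' y (closedBall_subset_closedBall (by linarith) hy)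
  have hIi : IntegrableOn (fun x => Idx B u x r) (closedBall (0 : ℝ × ℝ) (1 / 2)) :=
    hIc.integrableOn_compact (isCompact_closedBall _ _)
  have hΦi' : IntegrableOn Φ (closedBall (0 : ℝ × ℝ) (1 / 2)) := by rw [hΦ]; exact hΦi
  have hΦE' : ∫ x in closedBall (0 : ℝ × ℝ) (1 / 2), Φ x ≤ (2 * (2 * (B * r))) ^ 4 * E := by
    rw [hΦ]; exact hΦE
  have hr4 : 0 < (r / 2) ^ 4 := by positivity
  calc ∫ x in closedBall (0 : ℝ × ℝ) (1 / 2), Idx B u x r
      ≤ ∫ x in closedBall (0 : ℝ × ℝ) (1 / 2), m / (r / 2) ^ 4 * Φ x :=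
        setIntegral_mono_on hIi (hΦi'.const_mul _) isClosed_closedBall.measurableSet hpt
    _ = m / (r / 2) ^ 4 * ∫ x in closedBall (0 : ℝ × ℝ) (1 / 2), Φ x := integral_const_mul _ _
    _ ≤ m / (r / 2) ^ 4 * ((2 * (2 * (B * r))) ^ 4 * E) :=
        mul_le_mul_of_nonneg_left hΦE' (by positivity)
    _ = 4096 * B ^ 4 * m * E := by
        have : (2 * (2 * (B * r))) ^ 4 = 4096 * B ^ 4 * (r / 2) ^ 4 := by ring
        rw [this]
        field_simp
    _ ≤ 4096 * B ^ 4 * m * (Ce * ((1 + 4 * B) * (1 / A)) * (4 * Real.log A)) := by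
        apply mul_le_mul_of_nonneg_left _ (by positivity)
        rw [hE, hr]
        have h1 : 1 / A + 4 * (B * (1 / A)) = (1 + 4 * B) * (1 / A) := by ring
        rw [h1]
        apply mul_le_mul_of_nonneg_left _ (by positivity)
        have h2 : Real.log (64 * A) = Real.log 64 + Real.log A :=
          Real.log_mul (by norm_num) hA0.ne'
        have h3 : Real.log 64 ≤ Real.log A := Real.log_le_log (by norm_num) hA64
        linarith
    _ = 4096 * B ^ 4 * Ce * (1 + 4 * B) * 4 * (Real.log A / A) * m := by ring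

end Pool.Agent.H24.Near
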