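import Pool.Agent.H24.Near.Comparison

set_option autoImplicit false

/-!
# Lower bound of the maximum on a small square
-/

namespace Pool.Agent.H24.Near

open MeasureTheory Set Metric

namespace TB

lemma mem_cb {z c : ℝ × ℝ} {r : ℝ} :
    z ∈ closedBall c r ↔ |z.1 - c.1| ≤ r ∧ |z.2 - c.2| ≤ r := by
  rw [mem_closedBall, Prod.dist_eq, max_le_iff, Real.dist_eq, Real.dist_eq]

lemma norm_data {b1 b2 δ : ℝ} (hδ : 0 ≤ δ) (hb1 : |b1| ≤ δ) (hb2 : |b2| ≤ δ) :
    Real.sqrt (b1 ^ 2 + b2 ^ 2) ≤ 2 * δ := by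
  rw [Real.sqrt_le_left (by positivity)]
  have h1 : b1 ^ 2 ≤ δ ^ 2 := sq_le_sq' (neg_le_of_abs_le hb1) (le_of_abs_le hb1)
  have h2 : b2 ^ 2 ≤ δ ^ 2 := sq_le_sq' (neg_le_of_abs_le hb2) (le_of_abs_le hb2)
  nlinarith only [h1, h2]

lemma inner_le (a1 a2 b1 b2 : ℝ) :
    |a1 * b1 + a2 * b2| ≤ Real.sqrt (a1 ^ 2 + a2 ^ 2) * Real.sqrt (b1 ^ 2 + b2 ^ 2) := by
  rw [← Real.sqrt_mul (by positivity)]
  apply Real.abs_le_sqrt
  nlinarith [sq_nonneg (a1 * b2 - a2 * b1)]

lemma euclid_lower {a1 a2 b1 b2 r δ : ℝ} (hr : 0 ≤ r) (hδ : 0 ≤ δ) (hb1 : |b1| ≤ δ)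
    (hb2 : |b2| ≤ δ) (h : (r + 2 * δ) ^ 2 ≤ a1 ^ 2 + a2 ^ 2) :
    r ^ 2 ≤ (a1 + b1) ^ 2 + (a2 + b2) ^ 2 := by
  have h1 := norm_data hδ hb1 hb2
  have h2 := inner_le a1 a2 b1 b2
  set A := Real.sqrt (a1 ^ 2 + a2 ^ 2) with hA
  set Bn := Real.sqrt (b1 ^ 2 + b2 ^ 2) with hBn
  have h3 : r + 2 * δ ≤ A := Real.le_sqrt_of_sq_le h
  have h4 : A ^ 2 = a1 ^ 2 + a2 ^ 2 := Real.sq_sqrt (by positivity)
  have h5 : Bn ^ 2 = b1 ^ 2 + b2 ^ 2 := Real.sq_sqrt (by positivity)
  have h6 := neg_le_of_abs_le h2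
  have h7 : (A - Bn) ^ 2 ≤ (a1 + b1) ^ 2 + (a2 + b2) ^ 2 := by nlinarith only [h4, h5, h6]
  have h8 : r ^ 2 ≤ (A - Bn) ^ 2 := by
    apply pow_le_pow_left₀ hr
    linarith
  linarith only [h4, h5, h6, h8]

lemma euclid_upper {a1 a2 b1 b2 r δ : ℝ} (hr : 0 ≤ r - 2 * δ) (hδ : 0 ≤ δ) (hb1 : |b1| ≤ δ)
    (hb2 : |b2| ≤ δ) (h : a1 ^ 2 + a2 ^ 2 ≤ (r - 2 * δ) ^ 2) :
    (a1 + b1) ^ 2 + (a2 + b2) ^ 2 ≤ r ^ 2 := by
  have h1 := norm_data hδ hb1 hb2
  have h2 := inner_le a1 a2 b1 b2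
  set A := Real.sqrt (a1 ^ 2 + a2 ^ 2) with hA
  set Bn := Real.sqrt (b1 ^ 2 + b2 ^ 2) with hBn
  have hA0 : 0 ≤ A := Real.sqrt_nonneg _
  have hB0 : 0 ≤ Bn := Real.sqrt_nonneg _
  have h3 : A ≤ r - 2 * δ := (Real.sqrt_le_left hr).2 h
  have h4 : A ^ 2 = a1 ^ 2 + a2 ^ 2 := Real.sq_sqrt (by positivity)
  have h5 : Bn ^ 2 = b1 ^ 2 + b2 ^ 2 := Real.sq_sqrt (by positivity)
  have h6 := le_of_abs_le h2
  have h7 : (a1 + b1) ^ 2 + (a2 + b2) ^ 2 ≤ (A + Bn) ^ 2 := by nlinarith only [h4, h5, h6]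
  have h8 : (A + Bn) ^ 2 ≤ r ^ 2 := by
    apply pow_le_pow_left₀ (by positivity)
    linarith
  linarith only [h4, h5, h6, h8]

/-! ### The weight -/

/-- The regularised square of the Euclidean norm. -/
noncomputable def Q (a : ℝ) (z : ℝ × ℝ) : ℝ := z.1 * z.1 + z.2 * z.2 + a

lemma Q_pos {a : ℝ} (ha : 0 < a) (z : ℝ × ℝ) : 0 < Q a z := by
  unfold Q
  nlinarith [mul_self_nonneg z.1, mul_self_nonneg z.2]

lemma smooth_Q (a : ℝ) : Smooth (Q a) :=
  ((contDiff_fst.mul contDiff_fst).add (contDiff_snd.mul contDiff_snd)).add contDiff_const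

lemma d1_Q (a : ℝ) (z : ℝ × ℝ) : d1 (Q a) z = 2 * z.1 := by
  have h1 : d1 (fun x : ℝ × ℝ => x.1 * x.1) z = 2 * z.1 := by
    rw [d1_mul (by fun_prop) (by fun_prop), d1_fst]
    ring
  have h2 : d1 (fun x : ℝ × ℝ => x.2 * x.2) z = 0 := by
    rw [d1_mul (by fun_prop) (by fun_prop), d1_snd]
    ring
  have h3 : d1 (fun x : ℝ × ℝ => x.1 * x.1 + x.2 * x.2) z = 2 * z.1 := by
    rw [d1_add (f := fun x : ℝ × ℝ => x.1 * x.1) (g := fun x : ℝ × ℝ => x.2 * x.2)
      (by fun_prop) (by fun_prop), h1, h2, add_zero]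
  change d1 (fun x : ℝ × ℝ => (x.1 * x.1 + x.2 * x.2) + a) z = 2 * z.1
  rw [d1_add (f := fun x : ℝ × ℝ => x.1 * x.1 + x.2 * x.2) (g := fun _ => a)
      (by fun_prop) (by fun_prop), h3, d1_const, add_zero]

lemma d2_Q (a : ℝ) (z : ℝ × ℝ) : d2 (Q a) z = 2 * z.2 := by
  have h1 : d2 (fun x : ℝ × ℝ => x.1 * x.1) z = 0 := by
    rw [d2_mul (by fun_prop) (by fun_prop), d2_fst]
    ring
  have h2 : d2 (fun x : ℝ × ℝ => x.2 * x.2) z = 2 * z.2 := by
    rw [d2_mul (by fun_prop) (by fun_prop), d2_snd]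
    ring
  have h3 : d2 (fun x : ℝ × ℝ => x.1 * x.1 + x.2 * x.2) z = 2 * z.2 := by
    rw [d2_add (f := fun x : ℝ × ℝ => x.1 * x.1) (g := fun x : ℝ × ℝ => x.2 * x.2)
      (by fun_prop) (by fun_prop), h1, h2, zero_add]
  change d2 (fun x : ℝ × ℝ => (x.1 * x.1 + x.2 * x.2) + a) z = 2 * z.2
  rw [d2_add (f := fun x : ℝ × ℝ => x.1 * x.1 + x.2 * x.2) (g := fun _ => a)
      (by fun_prop) (by fun_prop), h3, d2_const, add_zero]

/-- The weight, centred at the origin. -/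
noncomputable def psi (a R η : ℝ) (z : ℝ × ℝ) : ℝ :=
  3 / 4 * (Real.log (Q a z) - Real.log (R ^ 2)) + η * (64 - Q 0 z)

lemma smooth_psi {a : ℝ} (ha : 0 < a) (R η : ℝ) : Smooth (psi a R η) := by
  have h1 : ContDiff ℝ (⊤ : ℕ∞) fun z => Real.log (Q a z) :=
    ContDiff.log (smooth_Q a) fun z => (Q_pos ha z).ne'
  exact (contDiff_const.mul (h1.sub contDiff_const)).add
    (contDiff_const.mul (contDiff_const.sub (smooth_Q 0)))

lemma d1_psi {a : ℝ} (ha : 0 < a) (R η : ℝ) (z : ℝ × ℝ) :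
    d1 (psi a R η) z = z.1 * (3 / 2 * (Q a z)⁻¹ + (-(2 * η))) := by
  have hQd : DifferentiableAt ℝ (Q a) z := (smooth_Q a).differentiable z
  have hQ0 : DifferentiableAt ℝ (Q 0) z := (smooth_Q 0).differentiable z
  have hlog : DifferentiableAt ℝ (fun x => Real.log (Q a x)) z := hQd.log (Q_pos ha z).ne'
  have h1 : d1 (fun x => Real.log (Q a x)) z = (Q a z)⁻¹ * (2 * z.1) := by
    rw [d1_comp hQd (Real.hasDerivAt_log (Q_pos ha z).ne'), d1_Q]
  have h2 : psi a R η = fun x => 3 / 4 * Real.log (Q a x) +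
      ((-η) * Q 0 x + (-(3 / 4) * Real.log (R ^ 2) + η * 64)) := by
    funext x
    unfold psi
    ring
  rw [h2, d1_add (by fun_prop) (by fun_prop), d1_const_mul _ hlog, h1,
    d1_add (by fun_prop) (by fun_prop), d1_const_mul _ hQ0, d1_Q, d1_const]
  ring

lemma d2_psi {a : ℝ} (ha : 0 < a) (R η : ℝ) (z : ℝ × ℝ) :
    d2 (psi a R η) z = z.2 * (3 / 2 * (Q a z)⁻¹ + (-(2 * η))) := by
  have hQd : DifferentiableAt ℝ (Q a) z := (smooth_Q a).differentiable z
  have hQ0 : DifferentiableAt ℝ (Q 0) z := (smooth_Q 0).differentiable z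
  have hlog : DifferentiableAt ℝ (fun x => Real.log (Q a x)) z := hQd.log (Q_pos ha z).ne'
  have h1 : d2 (fun x => Real.log (Q a x)) z = (Q a z)⁻¹ * (2 * z.2) := by
    rw [d2_comp hQd (Real.hasDerivAt_log (Q_pos ha z).ne'), d2_Q]
  have h2 : psi a R η = fun x => 3 / 4 * Real.log (Q a x) +
      ((-η) * Q 0 x + (-(3 / 4) * Real.log (R ^ 2) + η * 64)) := by
    funext x
    unfold psi
    ring
  rw [h2, d2_add (by fun_prop) (by fun_prop), d2_const_mul _ hlog, h1,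
    d2_add (by fun_prop) (by fun_prop), d2_const_mul _ hQ0, d2_Q, d2_const]
  ring

lemma lap_psi {a : ℝ} (ha : 0 < a) (R η : ℝ) (z : ℝ × ℝ) :
    lap (psi a R η) z = 3 * a / (Q a z) ^ 2 - 4 * η := by
  have hQd : DifferentiableAt ℝ (Q a) z := (smooth_Q a).differentiable z
  have hpos := Q_pos ha z
  have hinv : DifferentiableAt ℝ (fun x => (Q a x)⁻¹) z := hQd.inv hpos.ne'
  have hi1 : d1 (fun x => (Q a x)⁻¹) z = -((Q a z) ^ 2)⁻¹ * (2 * z.1) := by
    rw [d1_comp hQd (hasDerivAt_inv hpos.ne'), d1_Q]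
  have hi2 : d2 (fun x => (Q a x)⁻¹) z = -((Q a z) ^ 2)⁻¹ * (2 * z.2) := by
    rw [d2_comp hQd (hasDerivAt_inv hpos.ne'), d2_Q]
  unfold lap
  rw [show d1 (psi a R η) = fun z => z.1 * (3 / 2 * (Q a z)⁻¹ + (-(2 * η))) from
      funext (d1_psi ha R η),
    show d2 (psi a R η) = fun z => z.2 * (3 / 2 * (Q a z)⁻¹ + (-(2 * η))) from
      funext (d2_psi ha R η),
    d1_mul (by fun_prop) (by fun_prop), d2_mul (by fun_prop) (by fun_prop), d1_fst, d2_snd,
    d1_add (by fun_prop) (by fun_prop), d2_add (by fun_prop) (by fun_prop),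
    d1_const_mul _ hinv, d2_const_mul _ hinv, hi1, hi2, d1_const, d2_const]
  have h3 : z.1 ^ 2 + z.2 ^ 2 = Q a z - a := by
    unfold Q
    ring
  field_simp
  linear_combination (-(6 : ℝ)) * h3

lemma der_translate {f : ℝ × ℝ → ℝ} (hf : Smooth f) (c : ℝ × ℝ) (w : List Bool) (z : ℝ × ℝ) :
    der w (fun x => f (-c + (1 : ℝ) • x)) z = der w f (-c + (1 : ℝ) • z) := by
  induction w generalizing z with
  | nil => rfl
  | cons b w ih =>
    have h1 : der w (fun x => f (-c + (1 : ℝ) • x)) = fun x => der w f (-c + (1 : ℝ) • x) :=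
      funext ih
    cases b with
    | false =>
      change d1 (der w fun x => f (-c + (1 : ℝ) • x)) z = d1 (der w f) (-c + (1 : ℝ) • z)
      rw [h1, d1_scale (hf.der w).differentiable, one_mul]
    | true =>
      change d2 (der w fun x => f (-c + (1 : ℝ) • x)) z = d2 (der w f) (-c + (1 : ℝ) • z)
      rw [h1, d2_scale (hf.der w).differentiable, one_mul]

lemma exists_bound {f : ℝ × ℝ → ℝ} (hf : Smooth f) : ∃ L : ℝ, 1 ≤ L ∧
    ∀ w : List Bool, w.length ≤ 3 → ∀ z ∈ closedBall (0 : ℝ × ℝ) 8, |der w f z| ≤ L := by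
  classical
  have hfin : {w : List Bool | w.length ≤ 3}.Finite := List.finite_length_le Bool 3
  have h1 : ∀ w : List Bool, ∃ C : ℝ, ∀ z ∈ closedBall (0 : ℝ × ℝ) 8, |der w f z| ≤ C := by
    intro w
    obtain ⟨C, hC⟩ := (isCompact_closedBall (0 : ℝ × ℝ) 8).exists_bound_of_continuousOn
      (hf.der w).continuous.continuousOn
    exact ⟨C, fun z hz => hC z hz⟩
  choose C hC using h1
  have hC0 : ∀ w, 0 ≤ C w := fun w =>
    le_trans (abs_nonneg _) (hC w 0 (mem_closedBall_self (by norm_num)))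
  refine ⟨1 + ∑ w ∈ hfin.toFinset, C w, ?_, fun w hw z hz => ?_⟩
  · have : 0 ≤ ∑ w ∈ hfin.toFinset, C w := Finset.sum_nonneg fun w _ => hC0 w
    linarith
  · have h2 : C w ≤ ∑ w ∈ hfin.toFinset, C w :=
      Finset.single_le_sum (fun w _ => hC0 w) (hfin.mem_toFinset.2 hw)
    have h3 := hC w z hz
    linarith

end TB

open TB

theorem three_ball (s : ℝ) (hs : 0 < s) (hs1 : s ≤ 1) : ∃ K : ℝ, 1 ≤ K ∧
    ∀ (m Λ : ℝ) (q u : ℝ × ℝ → ℝ) (c y : ℝ × ℝ), K ≤ m → 0 ≤ Λ → K ^ 2 * Λ ≤ m ^ 2 →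
      Sol q u Λ (closedBall c 8) → (∀ p ∈ closedBall c 8, |u p| ≤ 1) → y ∈ closedBall c 2 →
      Real.exp (-m) ≤ |u y| →
      Real.exp (-(m * (2 * Real.log (16 / s)))) ≤ M u c s := by
  set a : ℝ := (s ^ 2 / 200) ^ 2 with ha
  have ha0 : 0 < a := by positivity
  set R1 : ℝ := 8 - s / 8 with hR1
  have hR1' : 7 ≤ R1 := by
    rw [hR1]
    linarith
  set ψ0 := psi a R1 (1 / 1000) with hψ0
  have hsm : Smooth ψ0 := smooth_psi ha0 R1 (1 / 1000)
  obtain ⟨L, hL1, hL⟩ := exists_bound hsm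
  obtain ⟨K, hK1, hK⟩ := comparison L (1 / 500) (s / 16) (1 / 20) 8 hL1 (by norm_num)
    (by positivity) (by norm_num) (by norm_num)
  refine ⟨K, hK1, fun m Λ q u c y hKm hΛ hKΛ hsol hu hy hexp => ?_⟩
  by_contra hcon
  push Not at hcon
  have hm : 1 ≤ m := le_trans hK1 hKm
  have hlog16 : 0 ≤ Real.log (16 / s) := by
    apply Real.log_nonneg
    rw [le_div_iff₀ hs]
    linarith only [hs1]
  have huc : Continuous u := hsol.smooth_u.continuous
  set E : ℝ × ℝ → ℝ := fun z => (z.1 - c.1) ^ 2 + (z.2 - c.2) ^ 2 with hE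
  have hEc : Continuous E := by
    simp only [hE]
    fun_prop
  set D : Set (ℝ × ℝ) := {z | (s / 2) ^ 2 ≤ E z ∧ E z ≤ 8 ^ 2} with hD
  set D' : Set (ℝ × ℝ) := {z | (s / 2 + 2 * (s / 16)) ^ 2 ≤ E z ∧ E z ≤ (8 - 2 * (s / 16)) ^ 2}
    with hD'
  have hsq : ∀ (z : ℝ × ℝ) (r : ℝ), 0 ≤ r → E z ≤ r ^ 2 → z ∈ closedBall c r := by
    intro z r hr h
    rw [mem_cb]
    constructor
    · apply abs_le_of_sq_le_sq _ hr
      have : 0 ≤ (z.2 - c.2) ^ 2 := sq_nonneg _
      simp only [hE] at h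
      linarith only [this, h]
    · apply abs_le_of_sq_le_sq _ hr
      have : 0 ≤ (z.1 - c.1) ^ 2 := sq_nonneg _
      simp only [hE] at h
      linarith only [this, h]
  have hDsub : D ⊆ closedBall c 8 := fun z hz => hsq z 8 (by norm_num) hz.2
  have hDc : IsCompact D := by
    apply (isCompact_closedBall c 8).of_isClosed_subset _ hDsub
    exact (isClosed_le continuous_const hEc).inter (isClosed_le hEc continuous_const)
  have hD'D : D' ⊆ D := by
    intro z hz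
    refine ⟨le_trans ?_ hz.1, le_trans hz.2 ?_⟩
    · apply pow_le_pow_left₀ (by positivity)
      linarith only [hs]
    · apply pow_le_pow_left₀ (by linarith only [hs1])
      linarith only [hs]
  have hballs : ∀ z ∈ D', closedBall z (s / 16) ⊆ D := by
    intro z hz z' hz'
    rw [mem_cb] at hz'
    have e1 : z'.1 - c.1 = (z.1 - c.1) + (z'.1 - z.1) := by ring
    have e2 : z'.2 - c.2 = (z.2 - c.2) + (z'.2 - z.2) := by ring
    refine ⟨?_, ?_⟩
    · simp only [hE]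
      rw [e1, e2]
      exact euclid_lower (by positivity) (by positivity) hz'.1 hz'.2 hz.1
    · simp only [hE]
      rw [e1, e2]
      exact euclid_upper (by linarith only [hs1]) (by positivity) hz'.1 hz'.2 hz.2
  have hsolD : Sol q u Λ D :=
    ⟨hsol.smooth_q, hsol.smooth_u, fun p hp => hsol.eq p (hDsub hp),
      fun p hp => hsol.bq p (hDsub hp), fun p hp => hsol.bq1 p (hDsub hp),
      fun p hp => hsol.bq2 p (hDsub hp)⟩
  set ψ : ℝ × ℝ → ℝ := fun x => ψ0 (-c + (1 : ℝ) • x) with hψ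
  have hψs : Smooth ψ := hsm.scale (-c) 1
  have hQE : ∀ (b : ℝ) (z : ℝ × ℝ), Q b (-c + (1 : ℝ) • z) = E z + b := by
    intro b z
    simp only [Q, hE, one_smul, Prod.fst_add, Prod.fst_neg, Prod.snd_add, Prod.snd_neg]
    ring
  have hψz : ∀ z, ψ z = 3 / 4 * (Real.log (E z + a) - Real.log (R1 ^ 2)) +
      1 / 1000 * (64 - E z) := by
    intro z
    simp only [hψ, hψ0, psi]
    rw [hQE, hQE, add_zero]
  have hE0 : ∀ z, 0 ≤ E z := by
    intro z
    simp only [hE]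
    positivity
  -- the derivatives
  have hder : ∀ w : List Bool, 1 ≤ w.length → w.length ≤ 3 → ∀ z ∈ D, |der w ψ z| ≤ L := by
    intro w _ hw z hz
    rw [hψ, der_translate hsm c w z]
    apply hL w hw
    have h1 := mem_cb.1 (hDsub hz)
    rw [mem_cb]
    simp only [one_smul, Prod.fst_add, Prod.fst_neg, Prod.snd_add, Prod.snd_neg, Prod.fst_zero,
      Prod.snd_zero, sub_zero]
    rw [neg_add_eq_sub, neg_add_eq_sub]
    exact h1
  -- the boundary values
  have hlogR : Real.log (R1 ^ 2) ≤ Real.log (8 ^ 2) := by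
    apply Real.log_le_log (by positivity)
    apply pow_le_pow_left₀ (by linarith)
    rw [hR1]
    linarith
  have hbd : ∀ z ∈ D, z ∉ D' → |u z| ≤ Real.exp (m * ψ z) := by
    intro z hz hz'
    have h1 : E z < (s / 2 + 2 * (s / 16)) ^ 2 ∨ (8 - 2 * (s / 16)) ^ 2 < E z := by
      by_contra hc
      push Not at hc
      exact hz' ⟨hc.1, hc.2⟩
    have hEpos : 0 < E z := lt_of_lt_of_le (by positivity) hz.1
    rcases h1 with h1 | h1
    · -- inner collar
      have h2 : z ∈ closedBall c s := by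
        apply hsq z s hs.le
        refine le_trans h1.le ?_
        apply pow_le_pow_left₀ (by positivity)
        linarith only [hs]
      have h3 : |u z| ≤ Real.exp (-(m * (2 * Real.log (16 / s)))) :=
        le_trans (le_M huc h2) hcon.le
      refine le_trans h3 (Real.exp_le_exp.2 ?_)
      have h4 : Real.log ((s / 2) ^ 2) ≤ Real.log (E z + a) :=
        Real.log_le_log (by positivity) (by linarith only [ha0, hz.1])
      have h5 : Real.log ((s / 2) ^ 2) - Real.log (8 ^ 2) = -(2 * Real.log (16 / s)) := by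
        rw [← Real.log_div (by positivity) (by norm_num)]
        have h6 : (s / 2) ^ 2 / 8 ^ 2 = ((16 / s) ^ 2)⁻¹ := by
          field_simp
          ring
        rw [h6, Real.log_inv, Real.log_pow]
        norm_num
      have h7 : -(2 * Real.log (16 / s)) ≤ ψ z := by
        rw [hψz]
        have h8 : E z ≤ 64 := le_trans hz.2 (by norm_num)
        have h9 : -(2 * Real.log (16 / s)) ≤ Real.log (E z + a) - Real.log (R1 ^ 2) := by
          rw [← h5]
          exact sub_le_sub h4 hlogR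
        linarith
      nlinarith only [hK1, hKm, h7]
    · -- outer collar
      have h2 : |u z| ≤ 1 := hu z (hDsub hz)
      refine le_trans h2 (Real.one_le_exp ?_)
      apply mul_nonneg (by linarith only [hK1, hKm])
      rw [hψz]
      have h3 : Real.log (R1 ^ 2) ≤ Real.log (E z + a) := by
        apply Real.log_le_log (by positivity)
        have h4 : (8 - 2 * (s / 16)) = R1 := by
          rw [hR1]
          ring
        rw [h4] at h1
        linarith only [ha0, h1]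
      have h5 := hz.2
      nlinarith only [h3, h5]
  -- superharmonicity
  have hlap : ∀ z ∈ D', Real.exp (m * (ψ z + 1 / 20)) < |u z| → lap ψ z ≤ -(1 / 500) := by
    intro z hz _
    have hzD := hD'D hz
    rw [hψ, lap_scale hsm, hψ0, lap_psi ha0, hQE]
    have h1 : (s / 2) ^ 2 ≤ E z + a := by linarith only [ha0, hzD.1]
    have h2 : ((s / 2) ^ 2) ^ 2 ≤ (E z + a) ^ 2 := pow_le_pow_left₀ (by positivity) h1 2
    have h3 : 3 * a / (E z + a) ^ 2 ≤ 1 / 500 := by
      rw [div_le_div_iff₀ (by positivity) (by norm_num)]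
      have h4 : 3 * a * 500 ≤ ((s / 2) ^ 2) ^ 2 := by
        rw [ha]
        have : 0 < s ^ 4 := by positivity
        nlinarith only []
      linarith only [ha, ha0, h2]
    linarith only [h3]
  have hcomp := hK m Λ q u ψ c D D' hKm hΛ hKΛ hDc hDsub hD'D hballs hsolD hψs hder hbd hlap
  by_cases hyD : (s / 2) ^ 2 ≤ E y
  · have hy' := mem_cb.1 hy
    have hEy : E y ≤ 8 := by
      simp only [hE]
      have h1 : (y.1 - c.1) ^ 2 ≤ 2 ^ 2 :=
        sq_le_sq' (neg_le_of_abs_le hy'.1) (le_of_abs_le hy'.1)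
      have h2 : (y.2 - c.2) ^ 2 ≤ 2 ^ 2 :=
        sq_le_sq' (neg_le_of_abs_le hy'.2) (le_of_abs_le hy'.2)
      linarith only [h1, h2]
    have h1 := hcomp y ⟨hyD, by linarith only [hEy]⟩
    have h2 := le_trans hexp h1
    rw [Real.exp_le_exp] at h2
    have ha1 : a ≤ 1 := by
      rw [ha]
      apply pow_le_one₀ (by positivity)
      have : s ^ 2 ≤ 1 := pow_le_one₀ hs.le hs1
      linarith only [this]
    have h3 : Real.log (E y + a) - Real.log (R1 ^ 2) ≤ -(3 / 2) := by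
      rw [← Real.log_div (by positivity) (by positivity)]
      have h4 : (E y + a) / R1 ^ 2 ≤ 9 / 49 := by
        rw [div_le_div_iff₀ (by positivity) (by norm_num)]
        have : 49 ≤ R1 ^ 2 := by nlinarith only [hs1, ha0, hR1, hyD, hEy]
        nlinarith only [hEy, ha1, this]
      have h5 : (9 / 49 : ℝ) ≤ Real.exp (-(3 / 2)) := by
        rw [Real.exp_neg, ← one_div, div_le_div_iff₀ (by norm_num) (Real.exp_pos _)]
        have h6 : Real.exp (3 / 2) ^ 2 = Real.exp 1 ^ 3 := by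
          rw [← Real.exp_nat_mul, ← Real.exp_nat_mul]
          norm_num
        have h7 := Real.exp_one_lt_d9
        have h8 : Real.exp 1 ^ 3 ≤ 2.7182818286 ^ 3 :=
          pow_le_pow_left₀ (Real.exp_pos 1).le h7.le 3
        have h9 : Real.exp (3 / 2) ≤ 5 := by
          apply le_of_sq_le_sq _ (by norm_num)
          rw [h6]
          refine le_trans h8 ?_
          norm_num
        linarith only [h9]
      have h10 : 0 < (E y + a) / R1 ^ 2 := by
        have := hE0 y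
        positivity
      calc Real.log ((E y + a) / R1 ^ 2) ≤ Real.log (Real.exp (-(3 / 2))) :=
            Real.log_le_log h10 (le_trans h4 h5)
        _ = -(3 / 2) := Real.log_exp _
    have h11 : ψ y + 1 / 20 < -1 := by
      rw [hψz]
      have := hE0 y
      nlinarith only [h3]
    nlinarith only [hK1, hKm, h2, h11]
  · push Not at hyD
    have h1 : y ∈ closedBall c s := by
      apply hsq y s hs.le
      refine le_trans hyD.le ?_
      apply pow_le_pow_left₀ (by positivity)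
      linarith
    have h2 := lt_of_le_of_lt (le_trans hexp (le_M huc h1)) hcon
    rw [Real.exp_lt_exp] at h2
    have h3 : 1 ≤ Real.log (16 / s) := by
      rw [Real.le_log_iff_exp_le (by positivity)]
      have h7 := Real.exp_one_lt_d9
      rw [le_div_iff₀ hs]
      nlinarith only [hs, hs1, h7]
    nlinarith only [hK1, hKm, h2, h3]

end Pool.Agent.H24.Near
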