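import Pool.Agent.H24.Near.Carleman
import Pool.Agent.H24.GradientEstimate

set_option autoImplicit false

/-!
# A solution cannot be touched from above by a strictly superharmonic exponential weight
-/

namespace Pool.Agent.H24.Near

open MeasureTheory Set Metric

namespace TouchingX

lemma d1_of_hasDerivAt {f : ℝ × ℝ → ℝ} {p : ℝ × ℝ} {f' : ℝ} (hf : DifferentiableAt ℝ f p)
    (h : HasDerivAt (fun s => f (s, p.2)) f' p.1) : d1 f p = f' := by
  have h1 : HasDerivAt (fun s : ℝ => ((s, p.2) : ℝ × ℝ)) (1, 0) p.1 :=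
    (hasDerivAt_id p.1).prodMk (hasDerivAt_const p.1 p.2)
  have h2 : HasDerivAt (f ∘ fun s : ℝ => ((s, p.2) : ℝ × ℝ)) (fderiv ℝ f p (1, 0)) p.1 :=
    HasFDerivAt.comp_hasDerivAt p.1 (by simpa using hf.hasFDerivAt) h1
  exact h2.unique h

lemma d2_of_hasDerivAt {f : ℝ × ℝ → ℝ} {p : ℝ × ℝ} {f' : ℝ} (hf : DifferentiableAt ℝ f p)
    (h : HasDerivAt (fun s => f (p.1, s)) f' p.2) : d2 f p = f' := by
  have h1 : HasDerivAt (fun s : ℝ => ((p.1, s) : ℝ × ℝ)) (0, 1) p.2 :=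
    (hasDerivAt_const p.2 p.1).prodMk (hasDerivAt_id p.2)
  have h2 : HasDerivAt (f ∘ fun s : ℝ => ((p.1, s) : ℝ × ℝ)) (fderiv ℝ f p (0, 1)) p.2 :=
    HasFDerivAt.comp_hasDerivAt p.2 (by simpa using hf.hasFDerivAt) h1
  exact h2.unique h

lemma dx_eq {u : ℝ × ℝ → ℝ} (hu : Differentiable ℝ u) (x y : ℝ) :
    Torus.dx (fun s t => u (s, t)) x y = d1 u (x, y) := by
  have h1 : HasDerivAt (fun s : ℝ => ((s, y) : ℝ × ℝ)) (1, 0) x :=
    (hasDerivAt_id x).prodMk (hasDerivAt_const x y)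
  have h2 : HasDerivAt (u ∘ fun s : ℝ => ((s, y) : ℝ × ℝ)) (fderiv ℝ u (x, y) (1, 0)) x :=
    HasFDerivAt.comp_hasDerivAt x (hu (x, y)).hasFDerivAt h1
  exact h2.deriv

lemma dy_eq {u : ℝ × ℝ → ℝ} (hu : Differentiable ℝ u) (x y : ℝ) :
    Torus.dy (fun s t => u (s, t)) x y = d2 u (x, y) := by
  have h1 : HasDerivAt (fun s : ℝ => ((x, s) : ℝ × ℝ)) (0, 1) y :=
    (hasDerivAt_const y x).prodMk (hasDerivAt_id y)
  have h2 : HasDerivAt (u ∘ fun s : ℝ => ((x, s) : ℝ × ℝ)) (fderiv ℝ u (x, y) (0, 1)) y :=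
    HasFDerivAt.comp_hasDerivAt y (hu (x, y)).hasFDerivAt h1
  exact h2.deriv

lemma mem_cb {p z : ℝ × ℝ} {r : ℝ} : p ∈ closedBall z r ↔ |p.1 - z.1| ≤ r ∧ |p.2 - z.2| ≤ r := by
  rw [mem_closedBall, Prod.dist_eq, max_le_iff, Real.dist_eq, Real.dist_eq]

/-- Gradient bound for solutions. -/
lemma grad_bound {q u : ℝ × ℝ → ℝ} {Λ m X : ℝ} {S : Set (ℝ × ℝ)} (hm : 20 ≤ m)
    (h : Sol q u Λ S) (hΛ : Λ ≤ m ^ 2 / 5000) {p : ℝ × ℝ} (hsub : closedBall p (1 / m) ⊆ S)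
    (hX : ∀ p' ∈ closedBall p (1 / m), |u p'| ≤ X) :
    |d1 u p| ≤ 3 * m * X ∧ |d2 u p| ≤ 3 * m * X := by
  have hm0 : 0 < m := by linarith only [hm]
  have hX0 : 0 ≤ X := le_trans (abs_nonneg _) (hX p (mem_closedBall_self (by positivity)))
  have hs : Torus.Smooth2 (fun s t => u (s, t)) := h.smooth_u
  have hlap : ∀ x y : ℝ, |x - p.1| ≤ 1 / m → |y - p.2| ≤ 1 / m →
      |Torus.dx (Torus.dx (fun s t => u (s, t))) x y + Torus.dy (Torus.dy (fun s t => u (s, t))) x y|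
        ≤ m ^ 2 / 5000 * X := by
    intro x y hx hy
    have e1 : Torus.dx (fun s t => u (s, t)) = fun s t => d1 u (s, t) := by
      funext s t; exact dx_eq h.smooth_u.differentiable s t
    have e2 : Torus.dy (fun s t => u (s, t)) = fun s t => d2 u (s, t) := by
      funext s t; exact dy_eq h.smooth_u.differentiable s t
    rw [e1, e2, dx_eq h.smooth_u.d1.differentiable, dy_eq h.smooth_u.d2.differentiable]
    have hmem : ((x, y) : ℝ × ℝ) ∈ closedBall p (1 / m) := mem_cb.2 ⟨hx, hy⟩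
    have h1 := h.eq (x, y) (hsub hmem)
    have h2 : d1 (d1 u) (x, y) + d2 (d2 u) (x, y) = -(q (x, y) * u (x, y)) := by
      unfold lap at h1
      linarith only [h1]
    rw [h2, abs_neg, abs_mul]
    exact mul_le_mul ((h.bq _ (hsub hmem)).trans hΛ) (hX _ hmem) (abs_nonneg _) (by positivity)
  have key := Torus.gradient_estimate hs (d := 1 / m) (M := X) (N := m ^ 2 / 5000 * X)
    (by positivity) (by positivity) p (fun x y hx hy => hX _ (mem_cb.2 ⟨hx, hy⟩)) hlap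
  rw [dx_eq h.smooth_u.differentiable, dy_eq h.smooth_u.differentiable] at key
  have e : 2 * X / (1 / m) + m ^ 2 / 5000 * X * (1 / m) / 2 ≤ 3 * m * X := by
    have h3 : 2 * X / (1 / m) + m ^ 2 / 5000 * X * (1 / m) / 2 = (2 + 1 / 10000) * (m * X) := by
      field_simp
      ring
    rw [h3]
    nlinarith only [hX0, mul_nonneg hm0.le hX0]
  exact ⟨key.1.trans e, key.2.trans e⟩

/-- The quadratic weight. -/
noncomputable def ph (b1 b2 A B C : ℝ) (p : ℝ × ℝ) : ℝ :=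
  b1 * p.1 + b2 * p.2 + (A * p.1 ^ 2 + 2 * B * p.1 * p.2 + C * p.2 ^ 2) / 2

lemma ph_smooth (b1 b2 A B C : ℝ) : Smooth (ph b1 b2 A B C) := by
  unfold Smooth ph
  fun_prop

lemma d1_ph (b1 b2 A B C : ℝ) (p : ℝ × ℝ) :
    d1 (ph b1 b2 A B C) p = b1 + A * p.1 + B * p.2 := by
  apply d1_of_hasDerivAt ((ph_smooth b1 b2 A B C).differentiable p)
  unfold ph
  have h := ((((hasDerivAt_id p.1).const_mul b1).add_const (b2 * p.2)).add
    ((((((hasDerivAt_id p.1).pow 2).const_mul A).add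
      ((((hasDerivAt_id p.1).const_mul (2 * B)).mul_const p.2))).add_const (C * p.2 ^ 2)).div_const 2))
  refine HasDerivAt.congr_deriv (h.congr_of_eventuallyEq (Filter.Eventually.of_forall ?_)) ?_
  · intro s
    simp
  · simp
    ring

lemma d2_ph (b1 b2 A B C : ℝ) (p : ℝ × ℝ) :
    d2 (ph b1 b2 A B C) p = b2 + B * p.1 + C * p.2 := by
  apply d2_of_hasDerivAt ((ph_smooth b1 b2 A B C).differentiable p)
  unfold ph
  have h := ((((hasDerivAt_id p.2).const_mul b2).const_add (b1 * p.1)).add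
    ((((((hasDerivAt_id p.2).const_mul (2 * B * p.1)).const_add (A * p.1 ^ 2)).add
      (((hasDerivAt_id p.2).pow 2).const_mul C))).div_const 2))
  refine HasDerivAt.congr_deriv (h.congr_of_eventuallyEq (Filter.Eventually.of_forall ?_)) ?_
  · intro s
    simp
  · simp
    ring

lemma d1_lin (a b c : ℝ) (p : ℝ × ℝ) : d1 (fun x => a + b * x.1 + c * x.2) p = b := by
  apply d1_of_hasDerivAt (by fun_prop)
  have h := (((hasDerivAt_id p.1).const_mul b).const_add a).add_const (c * p.2)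
  exact h.congr_deriv (mul_one b)

lemma d2_lin (a b c : ℝ) (p : ℝ × ℝ) : d2 (fun x => a + b * x.1 + c * x.2) p = c := by
  apply d2_of_hasDerivAt (by fun_prop)
  have h := ((hasDerivAt_id p.2).const_mul c).const_add (a + b * p.1)
  exact h.congr_deriv (mul_one c)

/-- The exponential weight. -/
noncomputable def W (m b1 b2 A B C : ℝ) (p : ℝ × ℝ) : ℝ := Real.exp (-(m * ph b1 b2 A B C p))

lemma W_smooth (m b1 b2 A B C : ℝ) : Smooth (W m b1 b2 A B C) := by
  have h := ph_smooth b1 b2 A B C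
  unfold Smooth at h ⊢
  unfold W
  exact Real.contDiff_exp.comp ((contDiff_const.mul h).neg)

lemma d1_W (m b1 b2 A B C : ℝ) (p : ℝ × ℝ) :
    d1 (W m b1 b2 A B C) p = -(m * (b1 + A * p.1 + B * p.2)) * W m b1 b2 A B C p := by
  have hd := (ph_smooth b1 b2 A B C).differentiable p
  have h1 : d1 (fun x => (-m) * ph b1 b2 A B C x) p = (-m) * d1 (ph b1 b2 A B C) p :=
    d1_const_mul (-m) hd
  have h2 := d1_comp (f := fun x => (-m) * ph b1 b2 A B C x) (g := Real.exp)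
    (g' := Real.exp ((-m) * ph b1 b2 A B C p)) (p := p) (hd.const_mul (-m))
    (Real.hasDerivAt_exp _)
  have h3 : W m b1 b2 A B C = fun x => Real.exp ((-m) * ph b1 b2 A B C x) := by
    funext x; unfold W; rw [neg_mul]
  rw [h3, h2, h1, d1_ph]
  ring

lemma d2_W (m b1 b2 A B C : ℝ) (p : ℝ × ℝ) :
    d2 (W m b1 b2 A B C) p = -(m * (b2 + B * p.1 + C * p.2)) * W m b1 b2 A B C p := by
  have hd := (ph_smooth b1 b2 A B C).differentiable p
  have h1 : d2 (fun x => (-m) * ph b1 b2 A B C x) p = (-m) * d2 (ph b1 b2 A B C) p :=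
    d2_const_mul (-m) hd
  have h2 := d2_comp (f := fun x => (-m) * ph b1 b2 A B C x) (g := Real.exp)
    (g' := Real.exp ((-m) * ph b1 b2 A B C p)) (p := p) (hd.const_mul (-m))
    (Real.hasDerivAt_exp _)
  have h3 : W m b1 b2 A B C = fun x => Real.exp ((-m) * ph b1 b2 A B C x) := by
    funext x; unfold W; rw [neg_mul]
  rw [h3, h2, h1, d2_ph]
  ring

lemma d11_W (m b1 b2 A B C : ℝ) (p : ℝ × ℝ) :
    d1 (d1 (W m b1 b2 A B C)) p =
      (-(m * A) + m ^ 2 * (b1 + A * p.1 + B * p.2) ^ 2) * W m b1 b2 A B C p := by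
  have e : d1 (W m b1 b2 A B C) =
      fun x => (-m * b1 + (-m * A) * x.1 + (-m * B) * x.2) * W m b1 b2 A B C x := by
    funext x; rw [d1_W]; ring
  rw [e, d1_mul (by fun_prop) ((W_smooth m b1 b2 A B C).differentiable p), d1_lin, d1_W]
  ring

lemma d22_W (m b1 b2 A B C : ℝ) (p : ℝ × ℝ) :
    d2 (d2 (W m b1 b2 A B C)) p =
      (-(m * C) + m ^ 2 * (b2 + B * p.1 + C * p.2) ^ 2) * W m b1 b2 A B C p := by
  have e : d2 (W m b1 b2 A B C) =
      fun x => (-m * b2 + (-m * B) * x.1 + (-m * C) * x.2) * W m b1 b2 A B C x := by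
    funext x; rw [d2_W]; ring
  rw [e, d2_mul (by fun_prop) ((W_smooth m b1 b2 A B C).differentiable p), d2_lin, d2_W]
  ring

/-- Second derivatives of a product. -/
lemma lap_mul {f g : ℝ × ℝ → ℝ} (hf : Smooth f) (hg : Smooth g) (p : ℝ × ℝ) :
    lap (fun x => f x * g x) p = lap f p * g p + 2 * (d1 f p * d1 g p + d2 f p * d2 g p) +
      f p * lap g p := by
  have e1 : d1 (fun x => f x * g x) = fun x => d1 f x * g x + f x * d1 g x := by
    funext x; exact d1_mul (hf.differentiable x) (hg.differentiable x)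
  have e2 : d2 (fun x => f x * g x) = fun x => d2 f x * g x + f x * d2 g x := by
    funext x; exact d2_mul (hf.differentiable x) (hg.differentiable x)
  unfold lap
  rw [e1, e2,
    d1_add (f := fun x => d1 f x * g x) (g := fun x => f x * d1 g x)
      ((hf.d1.differentiable p).mul (hg.differentiable p))
      ((hf.differentiable p).mul (hg.d1.differentiable p)),
    d2_add (f := fun x => d2 f x * g x) (g := fun x => f x * d2 g x)
      ((hf.d2.differentiable p).mul (hg.differentiable p))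
      ((hf.differentiable p).mul (hg.d2.differentiable p)),
    d1_mul (hf.d1.differentiable p) (hg.differentiable p),
    d1_mul (hf.differentiable p) (hg.d1.differentiable p),
    d2_mul (hf.d2.differentiable p) (hg.differentiable p),
    d2_mul (hf.differentiable p) (hg.d2.differentiable p)]
  ring

lemma conj_formula (m b1 b2 A B C : ℝ) {q u χ : ℝ × ℝ → ℝ} (hu : Smooth u) (hχ : Smooth χ)
    (p : ℝ × ℝ) :
    conjOp b1 b2 A B C m q (fun x => W m b1 b2 A B C x * (χ x * u x)) p =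
      W m b1 b2 A B C p * (χ p * (lap u p + q p * u p) +
        2 * (d1 χ p * d1 u p + d2 χ p * d2 u p) + lap χ p * u p) := by
  have hw : Smooth (fun x => χ x * u x) := ContDiff.mul hχ hu
  have hW := W_smooth m b1 b2 A B C
  unfold conjOp
  rw [lap_mul hW hw, lap_mul hχ hu,
    d1_mul (hW.differentiable p) (hw.differentiable p),
    d2_mul (hW.differentiable p) (hw.differentiable p),
    d1_mul (hχ.differentiable p) (hu.differentiable p),
    d2_mul (hχ.differentiable p) (hu.differentiable p)]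
  rw [show lap (W m b1 b2 A B C) p = (-(m * A) + m ^ 2 * (b1 + A * p.1 + B * p.2) ^ 2) *
    W m b1 b2 A B C p + (-(m * C) + m ^ 2 * (b2 + B * p.1 + C * p.2) ^ 2) * W m b1 b2 A B C p by
      unfold lap; rw [d11_W, d22_W], d1_W, d2_W]
  ring

lemma am {x y a b : ℝ} (hx : |x| ≤ a) (hy : |y| ≤ b) : |x * y| ≤ a * b := by
  rw [abs_mul]
  exact mul_le_mul hx hy (abs_nonneg _) ((abs_nonneg _).trans hx)

/-- Difference of the weight at two nearby points. -/
lemma ph_diff {b1 b2 A B C : ℝ} (hb1 : |b1| ≤ 1) (hb2 : |b2| ≤ 1) (hA : |A| ≤ 1 / 50)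
    (hB : |B| ≤ 1 / 50) (hC : |C| ≤ 1 / 50) {p p' : ℝ × ℝ} {r : ℝ} (hr : r ≤ 1)
    (hp : p ∈ closedBall (0 : ℝ × ℝ) 1) (hp' : p' ∈ closedBall p r) :
    |ph b1 b2 A B C p' - ph b1 b2 A B C p| ≤ 3 * r := by
  obtain ⟨g1, g2⟩ := mem_cb.1 hp'
  obtain ⟨k1, k2⟩ := mem_cb.1 hp
  simp only [Prod.fst_zero, Prod.snd_zero, sub_zero] at k1 k2
  set h1 := p'.1 - p.1 with hh1
  set h2 := p'.2 - p.2 with hh2
  have e1 : p'.1 = p.1 + h1 := by rw [hh1]; ring
  have e2 : p'.2 = p.2 + h2 := by rw [hh2]; ring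
  have hr0 : 0 ≤ r := (abs_nonneg _).trans g1
  have hrr : r * r ≤ r := by nlinarith only [hr, hr0]
  have e : ph b1 b2 A B C p' - ph b1 b2 A B C p = b1 * h1 + b2 * h2 + A * (p.1 * h1) +
      A * (h1 * h1) / 2 + B * (p.1 * h2) + B * (p.2 * h1) + B * (h1 * h2) + C * (p.2 * h2) +
      C * (h2 * h2) / 2 := by
    unfold ph
    rw [e1, e2]
    ring
  have t1 := abs_le.1 (am hb1 g1)
  have t2 := abs_le.1 (am hb2 g2)
  have t3 := abs_le.1 (am hA (am k1 g1))
  have t4 := abs_le.1 (am hA (am g1 g1))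
  have t5 := abs_le.1 (am hB (am k1 g2))
  have t6 := abs_le.1 (am hB (am k2 g1))
  have t7 := abs_le.1 (am hB (am g1 g2))
  have t8 := abs_le.1 (am hC (am k2 g2))
  have t9 := abs_le.1 (am hC (am g2 g2))
  rw [e, abs_le]
  constructor <;> linarith only [hrr, t8, t9, t1.1, t2.1, t3.1, t4.1, t5.1, t6.1, t7.1, t8.1, t9.1, t2, t4, t1.2, t2.2, t3.2, t5.2, t6.2, t7.2, t8.2, t9.2]

lemma ph_zero (b1 b2 A B C : ℝ) : ph b1 b2 A B C 0 = 0 := by
  unfold ph; simp

/-- Mean value estimate. -/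
lemma mean_value {u : ℝ × ℝ → ℝ} (hu : Smooth u) {r G : ℝ} (hr : 0 ≤ r)
    (hG : ∀ p ∈ closedBall (0 : ℝ × ℝ) r, |d1 u p| ≤ G ∧ |d2 u p| ≤ G) {p : ℝ × ℝ}
    (hp : p ∈ closedBall (0 : ℝ × ℝ) r) : |u p - u 0| ≤ 2 * G * ‖p‖ := by
  have hG0 : 0 ≤ G := (abs_nonneg _).trans (hG p hp).1
  have key := (convex_closedBall (0 : ℝ × ℝ) r).norm_image_sub_le_of_norm_fderiv_le (𝕜 := ℝ)
    (f := u) (C := 2 * G) (x := 0) (y := p) (fun x _ => hu.differentiable x) ?_
    (mem_closedBall_self hr) hp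
  · simpa using key
  · intro x hx
    obtain ⟨h1, h2⟩ := hG x hx
    apply ContinuousLinearMap.opNorm_le_bound _ (by positivity)
    intro v
    rw [fderiv_apply_eq, Real.norm_eq_abs]
    have hv1 : |v.1| ≤ ‖v‖ := by
      have := norm_fst_le v; rwa [Real.norm_eq_abs] at this
    have hv2 : |v.2| ≤ ‖v‖ := by
      have := norm_snd_le v; rwa [Real.norm_eq_abs] at this
    calc |d1 u x * v.1 + d2 u x * v.2| ≤ |d1 u x * v.1| + |d2 u x * v.2| := abs_add_le _ _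
      _ ≤ G * ‖v‖ + G * ‖v‖ := add_le_add (am h1 hv1) (am h2 hv2)
      _ = 2 * G * ‖v‖ := by ring

lemma vol_cb {r : ℝ} (hr : 0 ≤ r) : (volume (closedBall (0 : ℝ × ℝ) r)).toReal = (2 * r) ^ 2 := by
  have h : closedBall (0 : ℝ × ℝ) r = closedBall (0 : ℝ) r ×ˢ closedBall (0 : ℝ) r := by
    rw [closedBall_prod_same]
    rfl
  rw [h, MeasureTheory.Measure.volume_eq_prod, MeasureTheory.Measure.prod_prod,
    Real.volume_closedBall, ← ENNReal.ofReal_mul (by positivity), ENNReal.toReal_ofReal (by positivity)]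
  ring

lemma deriv_zero_of_const {f : ℝ × ℝ → ℝ} {U : Set (ℝ × ℝ)} (hU : IsOpen U) {c : ℝ}
    (h : ∀ p ∈ U, f p = c) {p : ℝ × ℝ} (hp : p ∈ U) :
    d1 f p = 0 ∧ d2 f p = 0 ∧ lap f p = 0 := by
  have key : ∀ {g : ℝ × ℝ → ℝ} {e : ℝ}, (∀ p ∈ U, g p = e) → ∀ p ∈ U, d1 g p = 0 ∧ d2 g p = 0 := by
    intro g e hg p hp
    have h1 : g =ᶠ[nhds p] fun _ => e := by
      filter_upwards [hU.mem_nhds hp] with x hx
      exact hg x hx
    unfold d1 d2
    rw [h1.fderiv_eq]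
    simp
  have k1 := key h
  refine ⟨(k1 p hp).1, (k1 p hp).2, ?_⟩
  unfold lap
  rw [(key (fun x hx => (k1 x hx).1) p hp).1, (key (fun x hx => (k1 x hx).2) p hp).2, add_zero]

/-- Cutoff data. -/
lemma exists_cutoff : ∃ (χ : ℝ × ℝ → ℝ) (K : ℝ), 1 ≤ K ∧ Smooth χ ∧ HasCompactSupport χ ∧
    (∀ p ∈ closedBall (0 : ℝ × ℝ) (1 / 2), χ p = 1) ∧
    (∀ p, p ∉ closedBall (0 : ℝ × ℝ) (3 / 4) →
      χ p = 0 ∧ d1 χ p = 0 ∧ d2 χ p = 0 ∧ lap χ p = 0) ∧
    (∀ p ∈ ball (0 : ℝ × ℝ) (1 / 2), d1 χ p = 0 ∧ d2 χ p = 0 ∧ lap χ p = 0) ∧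
    (∀ p ∈ closedBall (0 : ℝ × ℝ) 1, |d1 χ p| ≤ K ∧ |d2 χ p| ≤ K ∧ |lap χ p| ≤ K) := by
  let χ : ContDiffBump (0 : ℝ × ℝ) := ⟨1 / 2, 3 / 4, by norm_num, by norm_num⟩
  have hs : Smooth χ := χ.contDiff
  obtain ⟨K1, hK1⟩ := (isCompact_closedBall (0 : ℝ × ℝ) 1).exists_bound_of_continuousOn
    (f := d1 χ) hs.d1.continuous.continuousOn
  obtain ⟨K2, hK2⟩ := (isCompact_closedBall (0 : ℝ × ℝ) 1).exists_bound_of_continuousOn
    (f := d2 χ) hs.d2.continuous.continuousOn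
  obtain ⟨K3, hK3⟩ := (isCompact_closedBall (0 : ℝ × ℝ) 1).exists_bound_of_continuousOn
    (f := lap χ) hs.lap.continuous.continuousOn
  refine ⟨χ, max (max K1 K2) (max K3 1), (le_max_right _ _).trans (le_max_right _ _), hs,
    χ.hasCompactSupport, ?_, ?_, ?_, ?_⟩
  · intro p hp
    exact χ.one_of_mem_closedBall hp
  · have hU : IsOpen (closedBall (0 : ℝ × ℝ) (3 / 4))ᶜ := isClosed_closedBall.isOpen_compl
    have h0 : ∀ p ∈ (closedBall (0 : ℝ × ℝ) (3 / 4))ᶜ, χ p = 0 := by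
      intro p hp
      apply χ.zero_of_le_dist
      rw [mem_compl_iff, mem_closedBall, not_le] at hp
      exact hp.le
    intro p hp
    exact ⟨h0 p hp, deriv_zero_of_const hU h0 hp⟩
  · intro p hp
    exact deriv_zero_of_const isOpen_ball
      (fun x hx => χ.one_of_mem_closedBall (ball_subset_closedBall hx)) hp
  · intro p hp
    refine ⟨?_, ?_, ?_⟩
    · exact (hK1 p hp).trans ((le_max_left _ _).trans (le_max_left _ _))
    · exact (hK2 p hp).trans ((le_max_right _ _).trans (le_max_left _ _))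
    · exact (hK3 p hp).trans ((le_max_left _ _).trans (le_max_right _ _))

/-- The hypotheses of the main theorem in a convenient form. -/
structure Ctx (m b1 b2 A B C κ Λ : ℝ) (q u : ℝ × ℝ → ℝ) : Prop where
  hm : 20 ≤ m
  hb1 : |b1| ≤ 1
  hb2 : |b2| ≤ 1
  hA : |A| ≤ 1 / 50
  hB : |B| ≤ 1 / 50
  hC : |C| ≤ 1 / 50
  hκ : 0 < κ
  hΛ : Λ ≤ m ^ 2 / 5000
  sol : Sol q u Λ (closedBall (0 : ℝ × ℝ) 1)
  H : ∀ p ∈ closedBall (0 : ℝ × ℝ) 1,
      |u p| ≤ |u 0| * Real.exp (m * (ph b1 b2 A B C p - κ * (p.1 ^ 2 + p.2 ^ 2)))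

variable {m b1 b2 A B C κ Λ : ℝ} {q u : ℝ × ℝ → ℝ}

lemma Ctx.grad (X : Ctx m b1 b2 A B C κ Λ q u) {p : ℝ × ℝ}
    (hp : p ∈ closedBall (0 : ℝ × ℝ) (1 / m)) :
    |d1 u p| ≤ 3 * m * (|u 0| * Real.exp 6) ∧ |d2 u p| ≤ 3 * m * (|u 0| * Real.exp 6) := by
  have hm0 : 0 < m := by linarith [X.hm]
  have h1m : 1 / m ≤ 1 / 20 := one_div_le_one_div_of_le (by norm_num) X.hm
  have e2 : (2 : ℝ) / m = 1 / m + 1 / m := by ring
  have hsub : closedBall p (1 / m) ⊆ closedBall (0 : ℝ × ℝ) (2 / m) := by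
    apply closedBall_subset_closedBall'
    rw [mem_closedBall] at hp
    linarith
  have hsub2 : closedBall (0 : ℝ × ℝ) (2 / m) ⊆ closedBall (0 : ℝ × ℝ) 1 := by
    apply closedBall_subset_closedBall
    linarith only [h1m, e2]
  refine grad_bound X.hm X.sol X.hΛ (hsub.trans hsub2) ?_
  intro p' hp'
  refine (X.H p' (hsub2 (hsub hp'))).trans ?_
  apply mul_le_mul_of_nonneg_left _ (abs_nonneg _)
  apply Real.exp_le_exp.2
  have h2 := ph_diff X.hb1 X.hb2 X.hA X.hB X.hC (r := 2 / m) (by linarith only [h1m, e2])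
    (mem_closedBall_self zero_le_one) (hsub hp')
  rw [ph_zero, sub_zero] at h2
  have h3 : ph b1 b2 A B C p' ≤ 3 * (2 / m) := (le_abs_self _).trans h2
  have h4 : m * (3 * (2 / m)) = 6 := by field_simp; norm_num
  have h5 : 0 ≤ κ * (p'.1 ^ 2 + p'.2 ^ 2) := mul_nonneg X.hκ.le (by positivity)
  have h6 : m * (ph b1 b2 A B C p' - κ * (p'.1 ^ 2 + p'.2 ^ 2)) ≤ m * (3 * (2 / m)) :=
    mul_le_mul_of_nonneg_left (by linarith only [h3, h5]) hm0.le
  linarith only [h4, h6]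

lemma Ctx.u_low (X : Ctx m b1 b2 A B C κ Λ q u) {p : ℝ × ℝ}
    (hp : p ∈ closedBall (0 : ℝ × ℝ) (Real.exp (-6) / 12 / m)) : |u 0| / 2 ≤ |u p| := by
  have hm0 : 0 < m := by linarith [X.hm]
  have hc1 : Real.exp (-6) / 12 ≤ 1 := by
    have : Real.exp (-6) ≤ 1 := Real.exp_le_one_iff.2 (by norm_num)
    linarith only [this]
  have hcm : Real.exp (-6) / 12 / m ≤ 1 / m := div_le_div_of_nonneg_right hc1 hm0.le
  have h1 := mean_value X.sol.smooth_u (by positivity) (fun p hp => X.grad hp)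
    (closedBall_subset_closedBall hcm hp)
  have h2 : ‖p‖ ≤ Real.exp (-6) / 12 / m := by simpa using hp
  have h3 : 2 * (3 * m * (|u 0| * Real.exp 6)) * ‖p‖ ≤
      2 * (3 * m * (|u 0| * Real.exp 6)) * (Real.exp (-6) / 12 / m) :=
    mul_le_mul_of_nonneg_left h2 (by positivity)
  have h4 : 2 * (3 * m * (|u 0| * Real.exp 6)) * (Real.exp (-6) / 12 / m) = |u 0| / 2 := by
    have h5 : Real.exp 6 * Real.exp (-6) = 1 := by rw [← Real.exp_add]; simp
    have h6 : m * (Real.exp (-6) / 12 / m) = Real.exp (-6) / 12 := by field_simp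
    linear_combination (6 * |u 0| * Real.exp 6) * h6 + (|u 0| / 2) * h5
  have h6 : |u 0| - |u p| ≤ |u p - u 0| := by
    have := abs_sub_abs_le_abs_sub (u 0) (u p)
    rw [abs_sub_comm] at this
    linarith only [this]
  linarith

lemma Ctx.v_low (X : Ctx m b1 b2 A B C κ Λ q u) {χ : ℝ × ℝ → ℝ}
    (hχ1 : ∀ p ∈ closedBall (0 : ℝ × ℝ) (1 / 2), χ p = 1) {p : ℝ × ℝ}
    (hp : p ∈ closedBall (0 : ℝ × ℝ) (Real.exp (-6) / 12 / m)) :
    Real.exp (-2) * |u 0| ^ 2 / 4 ≤ (W m b1 b2 A B C p * (χ p * u p)) ^ 2 := by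
  have hm0 : 0 < m := by linarith [X.hm]
  have h1m : 1 / m ≤ 1 / 20 := one_div_le_one_div_of_le (by norm_num) X.hm
  have hc1 : Real.exp (-6) / 12 ≤ 1 / 12 := by
    have : Real.exp (-6) ≤ 1 := Real.exp_le_one_iff.2 (by norm_num)
    linarith only [this]
  have hcm : Real.exp (-6) / 12 / m ≤ 1 / m :=
    div_le_div_of_nonneg_right (by linarith) hm0.le
  have h1 := ph_diff X.hb1 X.hb2 X.hA X.hB X.hC (r := Real.exp (-6) / 12 / m) (by linarith)
    (mem_closedBall_self zero_le_one) hp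
  rw [ph_zero, sub_zero] at h1
  have h2 : m * ph b1 b2 A B C p ≤ 1 := by
    have h3 : ph b1 b2 A B C p ≤ 3 * (Real.exp (-6) / 12 / m) := (le_abs_self _).trans h1
    have h4 : m * (3 * (Real.exp (-6) / 12 / m)) = 3 * (Real.exp (-6) / 12) := by field_simp
    have h5 : m * ph b1 b2 A B C p ≤ m * (3 * (Real.exp (-6) / 12 / m)) :=
      mul_le_mul_of_nonneg_left h3 hm0.le
    linarith
  have h3 : Real.exp (-1) ≤ W m b1 b2 A B C p := by
    unfold W
    apply Real.exp_le_exp.2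
    linarith
  have h4 : χ p = 1 := by
    apply hχ1
    apply closedBall_subset_closedBall _ hp
    linarith only [h1m, hcm]
  have h5 : Real.exp (-1) * (|u 0| / 2) ≤ |W m b1 b2 A B C p * (χ p * u p)| := by
    rw [h4, one_mul, abs_mul, abs_of_pos (show 0 < W m b1 b2 A B C p from Real.exp_pos _)]
    exact mul_le_mul h3 (X.u_low hp) (by positivity) (Real.exp_pos _).le
  rw [← sq_abs (W m b1 b2 A B C p * (χ p * u p))]
  have h6 : (Real.exp (-1) * (|u 0| / 2)) ^ 2 ≤ |W m b1 b2 A B C p * (χ p * u p)| ^ 2 :=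
    pow_le_pow_left₀ (by positivity) h5 2
  have h7 : Real.exp (-2) = Real.exp (-1) * Real.exp (-1) := by
    rw [← Real.exp_add]; norm_num
  have h8 : Real.exp (-2) * |u 0| ^ 2 / 4 = (Real.exp (-1) * (|u 0| / 2)) ^ 2 := by
    rw [h7]; ring
  rw [h8]
  exact h6

lemma Ctx.int_low (X : Ctx m b1 b2 A B C κ Λ q u) {χ : ℝ × ℝ → ℝ} (hχs : Smooth χ)
    (hχc : HasCompactSupport χ) (hχ1 : ∀ p ∈ closedBall (0 : ℝ × ℝ) (1 / 2), χ p = 1) :
    Real.exp (-2) * |u 0| ^ 2 / 4 * (2 * (Real.exp (-6) / 12 / m)) ^ 2 ≤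
      ∫ p, (W m b1 b2 A B C p * (χ p * u p)) ^ 2 := by
  have hm0 : 0 < m := by linarith [X.hm]
  have hcs : HasCompactSupport (fun p => W m b1 b2 A B C p * (χ p * u p)) := by
    apply HasCompactSupport.mul_left
    exact hχc.mul_right
  have hcont : Continuous (fun p => W m b1 b2 A B C p * (χ p * u p)) :=
    (W_smooth m b1 b2 A B C).continuous.mul (hχs.continuous.mul X.sol.smooth_u.continuous)
  have hint : Integrable (fun p => (W m b1 b2 A B C p * (χ p * u p)) ^ 2) := by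
    apply Continuous.integrable_of_hasCompactSupport (hcont.pow 2)
    rw [pow_two]
    exact hcs.mul_left
  calc Real.exp (-2) * |u 0| ^ 2 / 4 * (2 * (Real.exp (-6) / 12 / m)) ^ 2
      = ∫ _p in closedBall (0 : ℝ × ℝ) (Real.exp (-6) / 12 / m),
          (Real.exp (-2) * |u 0| ^ 2 / 4) := by
        rw [setIntegral_const, measureReal_def, vol_cb (by positivity), smul_eq_mul, mul_comm]
    _ ≤ ∫ p in closedBall (0 : ℝ × ℝ) (Real.exp (-6) / 12 / m),
          (W m b1 b2 A B C p * (χ p * u p)) ^ 2 := by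
        apply setIntegral_mono_on _ hint.integrableOn measurableSet_closedBall
          (fun p hp => X.v_low hχ1 hp)
        exact integrableOn_const (isCompact_closedBall _ _).measure_lt_top.ne
    _ ≤ ∫ p, (W m b1 b2 A B C p * (χ p * u p)) ^ 2 :=
        setIntegral_le_integral hint (Filter.Eventually.of_forall fun p => sq_nonneg _)

lemma Ctx.annulus (X : Ctx m b1 b2 A B C κ Λ q u) {p : ℝ × ℝ} (hpn : 1 / 2 ≤ ‖p‖)
    (hpn' : ‖p‖ ≤ 3 / 4) : ∀ p' ∈ closedBall p (1 / m),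
      |u p'| ≤ |u 0| * Real.exp (m * ph b1 b2 A B C p + (3 - m * κ / 5)) := by
  have hm0 : 0 < m := by linarith only [X.hm]
  have hκ := X.hκ
  have h1m : 1 / m ≤ 1 / 20 := one_div_le_one_div_of_le (by norm_num) X.hm
  have hp1 : p ∈ closedBall (0 : ℝ × ℝ) 1 := by
    rw [mem_closedBall_zero_iff]; linarith only [hpn']
  have hsub : closedBall p (1 / m) ⊆ closedBall (0 : ℝ × ℝ) 1 := by
    apply closedBall_subset_closedBall'
    rw [dist_zero_right]
    linarith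
  intro p' hp'
  refine (X.H p' (hsub hp')).trans ?_
  apply mul_le_mul_of_nonneg_left _ (abs_nonneg _)
  apply Real.exp_le_exp.2
  have h2 := (abs_le.1 (ph_diff X.hb1 X.hb2 X.hA X.hB X.hC (r := 1 / m) (by linarith only [h1m]) hp1 hp')).2
  have h3 : m * (ph b1 b2 A B C p' - ph b1 b2 A B C p) ≤ m * (3 * (1 / m)) :=
    mul_le_mul_of_nonneg_left h2 hm0.le
  have h4 : m * (3 * (1 / m)) = 3 := by field_simp
  have h5 : 9 / 20 ≤ ‖p'‖ := by
    have h6 : ‖p‖ ≤ ‖p'‖ + dist p' p := by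
      have := norm_sub_norm_le p p'
      rw [dist_comm, dist_eq_norm]
      linarith only [this]
    rw [mem_closedBall] at hp'
    linarith only [hpn, h1m, hp', h6]
  have h7 : 1 / 5 ≤ p'.1 ^ 2 + p'.2 ^ 2 := by
    rw [Prod.norm_def] at h5
    rcases le_max_iff.1 h5 with h8 | h8
    · rw [Real.norm_eq_abs] at h8
      have : (9 / 20 : ℝ) ^ 2 ≤ |p'.1| ^ 2 := pow_le_pow_left₀ (by norm_num) h8 2
      rw [sq_abs] at this
      linarith only [this, sq_nonneg p'.2]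
    · rw [Real.norm_eq_abs] at h8
      have : (9 / 20 : ℝ) ^ 2 ≤ |p'.2| ^ 2 := pow_le_pow_left₀ (by norm_num) h8 2
      rw [sq_abs] at this
      linarith only [this, sq_nonneg p'.1]
  have h9 : m * κ * (1 / 5) ≤ m * κ * (p'.1 ^ 2 + p'.2 ^ 2) :=
    mul_le_mul_of_nonneg_left h7 (by positivity)
  linarith only [h3, h4, h9]

lemma Ctx.up (X : Ctx m b1 b2 A B C κ Λ q u) {χ : ℝ × ℝ → ℝ} {K : ℝ} (hK : 1 ≤ K)
    (hχs : Smooth χ)
    (hχ0 : ∀ p, p ∉ closedBall (0 : ℝ × ℝ) (3 / 4) →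
      χ p = 0 ∧ d1 χ p = 0 ∧ d2 χ p = 0 ∧ lap χ p = 0)
    (hχb : ∀ p ∈ ball (0 : ℝ × ℝ) (1 / 2), d1 χ p = 0 ∧ d2 χ p = 0 ∧ lap χ p = 0)
    (hχK : ∀ p ∈ closedBall (0 : ℝ × ℝ) 1, |d1 χ p| ≤ K ∧ |d2 χ p| ≤ K ∧ |lap χ p| ≤ K)
    (p : ℝ × ℝ) :
    |conjOp b1 b2 A B C m q (fun x => W m b1 b2 A B C x * (χ x * u x)) p| ≤
      13 * m * K * (|u 0| * Real.exp (3 - m * κ / 5)) ∧
    (p ∉ closedBall (0 : ℝ × ℝ) 1 →
      conjOp b1 b2 A B C m q (fun x => W m b1 b2 A B C x * (χ x * u x)) p = 0) := by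
  have hm0 : 0 < m := by linarith [X.hm]
  have hK0 : 0 < K := by linarith
  have hnn : 0 ≤ 13 * m * K * (|u 0| * Real.exp (3 - m * κ / 5)) := by positivity
  rw [conj_formula m b1 b2 A B C X.sol.smooth_u hχs]
  by_cases hp : p ∈ closedBall (0 : ℝ × ℝ) (3 / 4)
  swap
  · obtain ⟨h1, h2, h3, h4⟩ := hχ0 p hp
    rw [h1, h2, h3, h4]
    simp only [zero_mul, add_zero, mul_zero, abs_zero]
    exact ⟨hnn, fun _ => trivial⟩
  have hp1 : p ∈ closedBall (0 : ℝ × ℝ) 1 := closedBall_subset_closedBall (by norm_num) hp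
  refine ⟨?_, fun h => absurd hp1 h⟩
  rw [X.sol.eq p hp1]
  by_cases hpb : p ∈ ball (0 : ℝ × ℝ) (1 / 2)
  · obtain ⟨h1, h2, h3⟩ := hχb p hpb
    rw [h1, h2, h3]
    simp only [zero_mul, add_zero, mul_zero, abs_zero]
    exact hnn
  have hpn : 1 / 2 ≤ ‖p‖ := by simpa using hpb
  have hpn' : ‖p‖ ≤ 3 / 4 := by simpa using hp
  have h1m : 1 / m ≤ 1 / 20 := one_div_le_one_div_of_le (by norm_num) X.hm
  have hsub : closedBall p (1 / m) ⊆ closedBall (0 : ℝ × ℝ) 1 := by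
    apply closedBall_subset_closedBall'
    rw [dist_zero_right]
    linarith
  have hXb := X.annulus hpn hpn'
  obtain ⟨g1, g2⟩ := grad_bound X.hm X.sol X.hΛ hsub hXb
  have g0 := hXb p (mem_closedBall_self (by positivity))
  obtain ⟨k1, k2, k3⟩ := hχK p hp1
  have hW : 0 < W m b1 b2 A B C p := Real.exp_pos _
  have eW : W m b1 b2 A B C p * (|u 0| * Real.exp (m * ph b1 b2 A B C p + (3 - m * κ / 5))) =
      |u 0| * Real.exp (3 - m * κ / 5) := by
    unfold W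
    have : Real.exp (m * ph b1 b2 A B C p + (3 - m * κ / 5)) =
        Real.exp (m * ph b1 b2 A B C p) * Real.exp (3 - m * κ / 5) := Real.exp_add _ _
    rw [this]
    have h1 : Real.exp (-(m * ph b1 b2 A B C p)) * Real.exp (m * ph b1 b2 A B C p) = 1 := by
      rw [← Real.exp_add]; simp
    linear_combination (|u 0| * Real.exp (3 - m * κ / 5)) * h1
  have hY0 : 0 ≤ |u 0| * Real.exp (m * ph b1 b2 A B C p + (3 - m * κ / 5)) := by positivity
  generalize |u 0| * Real.exp (m * ph b1 b2 A B C p + (3 - m * κ / 5)) = Y at *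
  generalize |u 0| * Real.exp (3 - m * κ / 5) = Z at *
  have e2 : |χ p * 0 + 2 * (d1 χ p * d1 u p + d2 χ p * d2 u p) + lap χ p * u p| ≤
      13 * m * K * Y := by
    have t1 := abs_le.1 (am k1 g1)
    have t2 := abs_le.1 (am k2 g2)
    have t3 := abs_le.1 (am k3 g0)
    have t4 : K * Y ≤ m * (K * Y) := le_mul_of_one_le_left (by positivity) (by linarith only [X.hm])
    rw [abs_le]
    constructor
    · linarith [t1.1, t2.1, t3.1, t4]
    · linarith only [t3, t1.2, t2.2, t3.2, t4]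
  rw [abs_mul, abs_of_pos hW]
  calc W m b1 b2 A B C p * |χ p * 0 + 2 * (d1 χ p * d1 u p + d2 χ p * d2 u p) + lap χ p * u p|
      ≤ W m b1 b2 A B C p * (13 * m * K * Y) := mul_le_mul_of_nonneg_left e2 hW.le
    _ = 13 * m * K * Z := by rw [← eW]; ring

lemma int_up {F : ℝ × ℝ → ℝ} (hF : Continuous F) {K : ℝ} (hK : ∀ p, |F p| ≤ K)
    (h0 : ∀ p, p ∉ closedBall (0 : ℝ × ℝ) 1 → F p = 0) : ∫ p, (F p) ^ 2 ≤ K ^ 2 * 4 := by
  rw [← setIntegral_eq_integral_of_forall_compl_eq_zero (s := closedBall (0 : ℝ × ℝ) 1)]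
  · calc ∫ p in closedBall (0 : ℝ × ℝ) 1, (F p) ^ 2
        ≤ ∫ _p in closedBall (0 : ℝ × ℝ) 1, K ^ 2 := by
          apply setIntegral_mono_on _ _ measurableSet_closedBall
          · intro p _
            rw [← sq_abs]
            exact pow_le_pow_left₀ (abs_nonneg _) (hK p) 2
          · exact (hF.pow 2).continuousOn.integrableOn_compact (isCompact_closedBall _ _)
          · exact integrableOn_const (isCompact_closedBall _ _).measure_lt_top.ne
      _ = K ^ 2 * 4 := by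
          rw [setIntegral_const, measureReal_def, vol_cb zero_le_one, smul_eq_mul]
          ring
  · intro p hp
    rw [h0 p hp]
    ring

lemma conj_cont {q v : ℝ × ℝ → ℝ} (hq : Smooth q) (hv : Smooth v) (b1 b2 A B C m : ℝ) :
    Continuous (conjOp b1 b2 A B C m q v) := by
  have c1 := hv.lap.continuous
  have c2 := hv.d1.continuous
  have c3 := hv.d2.continuous
  have c4 := hv.continuous
  have c5 := hq.continuous
  unfold conjOp
  fun_prop

/-- The final numerical contradiction. -/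
lemma final_ineq {η κ K m U η' I : ℝ} (hη : 0 < η) (hη' : η ≤ η') (hκ : 0 < κ) (hK : 1 ≤ K)
    (hU : 0 < U) (hm : 20 ≤ m)
    (hmK : 2 * (676 * K ^ 2 * Real.exp 6) / ((2 * κ / 5) ^ 2 *
      (η * (Real.exp (-2) * (Real.exp (-6) / 12) ^ 2) / 4)) + 1 ≤ m)
    (hlow : Real.exp (-2) * U ^ 2 / 4 * (2 * (Real.exp (-6) / 12 / m)) ^ 2 ≤ I)
    (hup : η' * m ^ 3 / 4 * I ≤ (13 * m * K * (U * Real.exp (3 - m * κ / 5))) ^ 2 * 4) :
    False := by
  have hm0 : 0 < m := by linarith only [hm]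
  have hK0 : 0 < K := by linarith only [hK]
  generalize hc : Real.exp (-6) / 12 = c at *
  have hc0 : 0 < c := by rw [← hc]; positivity
  generalize ha : 2 * κ / 5 = a at *
  have ha0 : 0 < a := by rw [← ha]; positivity
  have h1 : Real.exp (3 - m * κ / 5) ^ 2 = Real.exp 6 * Real.exp (-(a * m)) := by
    rw [← Real.exp_add, ← Real.exp_nat_mul, ← ha]
    congr 1
    push_cast
    ring
  have hD0 : 0 < 676 * K ^ 2 * Real.exp 6 := by positivity
  have hE0 : 0 < η * (Real.exp (-2) * c ^ 2) / 4 := by positivity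
  have e5 : (13 * m * K * (U * Real.exp (3 - m * κ / 5))) ^ 2 * 4 =
      U ^ 2 * m * ((676 * K ^ 2 * Real.exp 6) * (m * Real.exp (-(a * m)))) := by
    linear_combination (676 * m ^ 2 * K ^ 2 * U ^ 2) * h1
  have e3 : η * m ^ 3 / 4 * (Real.exp (-2) * U ^ 2 / 4 * (2 * (c / m)) ^ 2) ≤
      η' * m ^ 3 / 4 * I := by
    apply mul_le_mul _ hlow (by positivity) (by have := hη.trans_le hη'; positivity)
    have : 0 ≤ m ^ 3 := by positivity
    nlinarith only [hη', this]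
  have e4 : η * m ^ 3 / 4 * (Real.exp (-2) * U ^ 2 / 4 * (2 * (c / m)) ^ 2) =
      U ^ 2 * m * (η * (Real.exp (-2) * c ^ 2) / 4) := by
    field_simp
    ring
  rw [e4] at e3
  rw [e5] at hup
  have e6 := le_of_mul_le_mul_left (e3.trans hup) (by positivity)
  generalize 676 * K ^ 2 * Real.exp 6 = D at *
  generalize η * (Real.exp (-2) * c ^ 2) / 4 = E at *
  have e7 : m * Real.exp (-(a * m)) ≤ 2 / (a ^ 2 * m) := by
    have h1 := Real.quadratic_le_exp_of_nonneg (show 0 ≤ a * m by positivity)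
    have h2 : Real.exp (-(a * m)) * Real.exp (a * m) = 1 := by rw [← Real.exp_add]; simp
    rw [le_div_iff₀ (by positivity)]
    have h3 : (a * m) ^ 2 / 2 ≤ Real.exp (a * m) := by
      have : 0 ≤ 1 + a * m := by positivity
      linarith only [h1, this]
    have h4 : Real.exp (-(a * m)) * ((a * m) ^ 2 / 2) ≤ 1 := by
      rw [← h2]
      exact mul_le_mul_of_nonneg_left h3 (Real.exp_pos _).le
    linarith only [h4]
  have e8 : D * (2 / (a ^ 2 * m)) < E := by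
    have h1 : D * (2 / (a ^ 2 * m)) = 2 * D / (a ^ 2 * E) * E / m := by
      field_simp
    rw [h1, div_lt_iff₀ hm0]
    have h2 : 2 * D / (a ^ 2 * E) < m := by linarith only [hmK]
    rw [mul_comm E m]
    exact mul_lt_mul_of_pos_right h2 hE0
  have e9 : D * (m * Real.exp (-(a * m))) ≤ D * (2 / (a ^ 2 * m)) :=
    mul_le_mul_of_nonneg_left e7 hD0.le
  linarith only [e6, e8, e9]

end TouchingX

open TouchingX in
theorem touching (η κ : ℝ) (hη : 0 < η) (hκ : 0 < κ) : ∃ K : ℝ, 20 ≤ K ∧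
    ∀ (m b1 b2 A B C : ℝ) (q u : ℝ × ℝ → ℝ), K ≤ m → b1 ^ 2 + b2 ^ 2 = 1 → η ≤ -(A + C) →
      A ^ 2 + 2 * B ^ 2 + C ^ 2 ≤ -(A + C) / 100 →
      Sol q u (η * m ^ 2 / 100) (closedBall (0 : ℝ × ℝ) 1) →
      (∀ p ∈ closedBall (0 : ℝ × ℝ) 1, |u p| ≤ |u 0| * Real.exp (m * (b1 * p.1 + b2 * p.2 +
        (A * p.1 ^ 2 + 2 * B * p.1 * p.2 + C * p.2 ^ 2) / 2 - κ * (p.1 ^ 2 + p.2 ^ 2)))) →
      u 0 = 0 := by
  obtain ⟨χ, Kχ, hKχ, hχs, hχc, hχ1, hχ0, hχb, hχK⟩ := exists_cutoff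
  refine ⟨max 20 (2 * (676 * Kχ ^ 2 * Real.exp 6) / ((2 * κ / 5) ^ 2 *
      (η * (Real.exp (-2) * (Real.exp (-6) / 12) ^ 2) / 4)) + 1), le_max_left _ _, ?_⟩
  intro m b1 b2 A B C q u hm hb htr hM hsol H
  have hm20 : 20 ≤ m := (le_max_left _ _).trans hm
  have hmK := (le_max_right _ _).trans hm
  by_contra hu0
  have hU0 : 0 < |u 0| := abs_pos.2 hu0
  have hη' : -(A + C) ≤ 1 / 50 := by
    nlinarith only [htr, hM, sq_nonneg (A - C)]
  have hη'0 : 0 < -(A + C) := by linarith only [hη, htr]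
  have X : Ctx m b1 b2 A B C κ (η * m ^ 2 / 100) q u := by
    refine ⟨hm20, ?_, ?_, ?_, ?_, ?_, hκ, ?_, hsol, H⟩
    · exact abs_le_one_iff_mul_self_le_one.2 (by nlinarith only [hb])
    · exact abs_le_one_iff_mul_self_le_one.2 (by nlinarith only [hb])
    · exact abs_le_of_sq_le_sq (by nlinarith only [hM, hη']) (by norm_num)
    · exact abs_le_of_sq_le_sq (by nlinarith only [hM, hη']) (by norm_num)
    · exact abs_le_of_sq_le_sq (by nlinarith only [hM, hη', sq_nonneg B]) (by norm_num)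
    · have h1 : η ≤ 1 / 50 := htr.trans hη'
      nlinarith only [htr, hη']
  have hvs : Smooth (fun x => W m b1 b2 A B C x * (χ x * u x)) :=
    ContDiff.mul (W_smooth m b1 b2 A B C) (ContDiff.mul hχs hsol.smooth_u)
  have hvc : HasCompactSupport (fun x => W m b1 b2 A B C x * (χ x * u x)) := by
    apply HasCompactSupport.mul_left
    exact hχc.mul_right
  have hvsupp : ∀ p, W m b1 b2 A B C p * (χ p * u p) ≠ 0 → p ∈ closedBall (0 : ℝ × ℝ) 1 := by
    intro p hp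
    by_contra hcon
    have h1 : p ∉ closedBall (0 : ℝ × ℝ) (3 / 4) := fun h =>
      hcon (closedBall_subset_closedBall (by norm_num) h)
    apply hp
    rw [(hχ0 p h1).1]
    ring
  have hup := X.up hKχ hχs hχ0 hχb hχK
  have hupi := int_up (conj_cont hsol.smooth_q hvs b1 b2 A B C m) (fun p => (hup p).1)
    (fun p => (hup p).2)
  have hcar := carleman (b1 := b1) (b2 := b2) (A := A) (B := B) (C := C) (η := -(A + C)) (m := m)
    hsol.smooth_q hvs hvc hvsupp hb (by ring) hη'0 hM hm20 (by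
      intro p hp
      have h1 : η * m ^ 2 / 100 ≤ -(A + C) * m ^ 2 / 100 := by nlinarith only [htr]
      exact ⟨(hsol.bq p hp).trans h1, (hsol.bq1 p hp).trans h1, (hsol.bq2 p hp).trans h1⟩)
  exact final_ineq hη htr hκ hKχ hU0 hm20 hmK (X.int_low hχs hχc hχ1) (hcar.trans hupi)

end Pool.Agent.H24.Near
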